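import Pool.Agent.LibSP74.PL2

/-! Task PL3: the Prékopa-Leindler inequality, and Brunn-Minkowski for `A` and `-A`. -/

set_option autoImplicit false

open MeasureTheory Set
open scoped ENNReal

namespace Pool.Agent.LibSP74

private theorem PL3_slice {d : ℕ} {f : (Fin (d + 1) → ℝ) → ℝ≥0∞} (hf : Measurable f) :
    ∫⁻ x, f x = ∫⁻ x : ℝ, ∫⁻ z : Fin d → ℝ, f (Fin.cons x z) := by
  have hm := (volume_preserving_piFinSuccAbove (fun _ : Fin (d + 1) => ℝ) 0).symm
  have hc : Measurable fun a : ℝ × (Fin d → ℝ) =>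
      f ((MeasurableEquiv.piFinSuccAbove (fun _ : Fin (d + 1) => ℝ) 0).symm a) :=
    hf.comp (MeasurableEquiv.measurable _)
  rw [← hm.lintegral_comp_emb (MeasurableEquiv.measurableEmbedding _) f,
    Measure.volume_eq_prod, lintegral_prod _ hc.aemeasurable]
  refine lintegral_congr fun x => lintegral_congr fun z => ?_
  rw [MeasurableEquiv.piFinSuccAbove_symm_apply, Fin.insertNthEquiv_zero]
  rfl

private theorem PL3_meas {d : ℕ} {f : (Fin (d + 1) → ℝ) → ℝ≥0∞} (hf : Measurable f) :
    Measurable fun p : ℝ × (Fin d → ℝ) => f (Fin.cons p.1 p.2) := by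
  refine hf.comp ?_
  refine measurable_pi_lambda _ fun i => ?_
  refine Fin.cases ?_ (fun j => ?_) i
  · simpa using measurable_fst
  · have h1 : Measurable fun c : ℝ × (Fin d → ℝ) => c.2 j :=
      (measurable_pi_apply j).comp measurable_snd
    simpa using h1

/-- Induction on `d`. For `d + 1` use `volume_preserving_piFinSuccAbove (fun _ => ℝ) 0` and Tonelli:
`∫⁻ f = ∫⁻ x, ∫⁻ z, f (Fin.cons x z)`; apply the induction hypothesis to the slices and `pl_line` to
the functions `x ↦ ∫⁻ z, f (Fin.cons x z)` etc. -/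
theorem pl (d : ℕ) {f g h : (Fin d → ℝ) → ℝ≥0∞} (hf : Measurable f) (hg : Measurable g)
    (hh : Measurable h) (H : ∀ x y, f x * g y ≤ h ((1 / 2 : ℝ) • (x + y)) ^ 2) :
    (∫⁻ x, f x) * (∫⁻ x, g x) ≤ (∫⁻ x, h x) ^ 2 := by
  induction d with
  | zero =>
    rw [Measure.volume_pi_eq_dirac 0, lintegral_dirac, lintegral_dirac, lintegral_dirac]
    have h1 := H 0 0
    rwa [add_zero, smul_zero] at h1
  | succ d ih =>
    rw [PL3_slice hf, PL3_slice hg, PL3_slice hh]
    refine pl_line (PL3_meas hf).lintegral_prod_right' (PL3_meas hg).lintegral_prod_right'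
      (PL3_meas hh).lintegral_prod_right' fun x y => ?_
    refine ih ((PL3_meas hf).comp measurable_prodMk_left)
      ((PL3_meas hg).comp measurable_prodMk_left) ((PL3_meas hh).comp measurable_prodMk_left)
      fun z w => ?_
    have h1 := H (Fin.cons x z) (Fin.cons y w)
    have e : (1 / 2 : ℝ) • ((Fin.cons x z : Fin (d + 1) → ℝ) + Fin.cons y w) =
        Fin.cons ((x + y) / 2) ((1 / 2 : ℝ) • (z + w)) := by
      funext i
      refine Fin.cases ?_ (fun j => ?_) i
      · simp only [Pi.smul_apply, Pi.add_apply, Fin.cons_zero, smul_eq_mul]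
        ring
      · simp only [Pi.smul_apply, Pi.add_apply, Fin.cons_succ, smul_eq_mul]
    rw [e] at h1
    exact h1

/-- `f`, `g`, `h` are the indicators of `A`, `-A`, `S`; transfer to the euclidean space with
`EuclideanSpace.volume_preserving_symm_measurableEquiv_toLp` (or `PiLp.volume_preserving_ofLp`). -/
theorem bm_symm {d : ℕ} {A S : Set (E d)} (hA : MeasurableSet A) (hS : MeasurableSet S)
    (h : ∀ x ∈ A, ∀ y ∈ A, (1 / 2 : ℝ) • (x - y) ∈ S) : volume A ≤ volume S := by
  classical
  set τ : (Fin d → ℝ) → E d := fun x => WithLp.toLp 2 x with hτ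
  have hmp : MeasurePreserving τ := PiLp.volume_preserving_toLp (Fin d)
  have hA' : MeasurableSet (τ ⁻¹' A) := hmp.measurable hA
  have hS' : MeasurableSet (τ ⁻¹' S) := hmp.measurable hS
  have hN' : MeasurableSet (-(τ ⁻¹' A)) := hA'.neg
  have e1 : volume (τ ⁻¹' A) = volume A := hmp.measure_preimage hA.nullMeasurableSet
  have e2 : volume (τ ⁻¹' S) = volume S := hmp.measure_preimage hS.nullMeasurableSet
  have e3 : volume (-(τ ⁻¹' A)) = volume A := by
    rw [Measure.measure_neg, e1]
  have key := pl d (f := (τ ⁻¹' A).indicator 1) (g := (-(τ ⁻¹' A)).indicator 1)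
    (h := (τ ⁻¹' S).indicator 1) (measurable_one.indicator hA') (measurable_one.indicator hN')
    (measurable_one.indicator hS') (fun x y => by
      by_cases hx : x ∈ τ ⁻¹' A
      · by_cases hy : y ∈ -(τ ⁻¹' A)
        · have hxy : (1 / 2 : ℝ) • (x + y) ∈ τ ⁻¹' S := by
            have h1 := h (τ x) hx (τ (-y)) hy
            have e : (1 / 2 : ℝ) • (τ x - τ (-y)) = τ ((1 / 2 : ℝ) • (x + y)) := by
              rw [hτ]
              ext i
              simp [mul_add]
            rw [e] at h1
            exact h1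
          rw [indicator_of_mem hx, indicator_of_mem hy, indicator_of_mem hxy]
          simp
        · rw [indicator_of_notMem hy, mul_zero]
          exact zero_le
      · rw [indicator_of_notMem hx, zero_mul]
        exact zero_le)
  rw [lintegral_indicator_one hA', lintegral_indicator_one hN', lintegral_indicator_one hS', e1,
    e2, e3, ← sq] at key
  by_contra hcon
  rw [not_le] at hcon
  exact absurd key (not_le.2 (ENNReal.pow_lt_pow_left two_ne_zero hcon))

end Pool.Agent.LibSP74
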