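import Pool.Agent.LibSP74.AnA

/-! Task AnC: pointwise limits. -/

set_option autoImplicit false

open MeasureTheory Set Filter
open scoped Topology

namespace Pool.Agent.LibSP74

theorem AnC_sinh (c : ℝ) : Tendsto (fun η : ℝ => Real.sinh (c * η) / η) (𝓝[>] 0) (𝓝 c) := by
  have h1 : HasDerivAt (fun η : ℝ => Real.sinh (c * η)) c 0 := by
    have h2 : HasDerivAt (fun η : ℝ => c * η) c 0 := by
      simpa using (hasDerivAt_id (0 : ℝ)).const_mul c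
    have h3 := h2.sinh
    simpa using h3
  have h4 := h1.tendsto_slope_zero_right
  refine h4.congr ?_
  intro η
  simp only [zero_add, mul_zero, Real.sinh_zero, sub_zero, smul_eq_mul]
  rw [div_eq_inv_mul]

theorem AnC_cosh (c : ℝ) :
    Tendsto (fun η : ℝ => (Real.cosh (c * η) - 1) / η ^ 2) (𝓝[>] 0) (𝓝 (c ^ 2 / 2)) := by
  have h1 := ((AnC_sinh (c / 2)).pow 2).const_mul 2
  have e : 2 * (c / 2) ^ 2 = c ^ 2 / 2 := by ring
  rw [e] at h1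
  refine h1.congr ?_
  intro η
  have h2 : Real.cosh (c * η) - 1 = 2 * Real.sinh (c / 2 * η) ^ 2 := by
    have h3 : c * η = 2 * (c / 2 * η) := by ring
    rw [h3, Real.cosh_two_mul, Real.cosh_sq]
    ring
  rw [h2, div_pow]
  ring

theorem AnC_sh2 : Tendsto (fun η : ℝ => Real.sinh η ^ 2 / η ^ 2) (𝓝[>] 0) (𝓝 1) := by
  have h1 := (AnC_sinh 1).pow 2
  simp only [one_mul, div_pow, one_pow] at h1
  exact h1

theorem AnC_ch1 : Tendsto (fun η : ℝ => (Real.cosh η - 1) / η ^ 2) (𝓝[>] 0) (𝓝 (1 / 2)) := by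
  have h1 := AnC_cosh 1
  simp only [one_mul, one_pow] at h1
  exact h1

theorem AnC_sh : Tendsto (fun η : ℝ => Real.sinh η) (𝓝[>] 0) (𝓝 0) := by
  have h := (Real.continuous_sinh.tendsto 0).mono_left (nhdsWithin_le_nhds (s := Ioi 0))
  simpa using h

theorem AnC_ch : Tendsto (fun η : ℝ => Real.cosh η) (𝓝[>] 0) (𝓝 1) := by
  have h := (Real.continuous_cosh.tendsto 0).mono_left (nhdsWithin_le_nhds (s := Ioi 0))
  simpa using h

theorem AnC_den {t : ℝ} : Tendsto (fun η : ℝ => t * Real.cosh η - 2 * Real.sinh η ^ 2) (𝓝[>] 0)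
    (𝓝 t) := by
  have h := (AnC_ch.const_mul t).sub ((AnC_sh.pow 2).const_mul 2)
  simpa using h

theorem AnC_num {t : ℝ} : Tendsto (fun η : ℝ => t ^ 2 - 4 * Real.sinh η ^ 2) (𝓝[>] 0)
    (𝓝 (t ^ 2)) := by
  have h := (tendsto_const_nhds (x := t ^ 2)).sub ((AnC_sh.pow 2).const_mul 4)
  simpa using h

/-- near zero everything is in the range -/
theorem AnC_ev {t : ℝ} (ht : 0 < t) : ∀ᶠ η in 𝓝[>] (0 : ℝ), 0 < η ∧ 2 * Real.sinh η < t := by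
  have h1 : ∀ᶠ η in 𝓝[>] (0 : ℝ), Real.sinh η < t / 2 :=
    AnC_sh.eventually (gt_mem_nhds (by positivity))
  filter_upwards [h1, self_mem_nhdsWithin] with η h2 h3
  exact ⟨h3, by linarith⟩

theorem tendsto_hh {t : ℝ} (ht : 0 < t) :
    Tendsto (fun η => hh η t) (𝓝[>] 0) (𝓝 t) := by
  have h := (AnC_num (t := t)).div (AnC_den (t := t)) ht.ne'
  have e : t ^ 2 / t = t := by field_simp
  rw [e] at h
  exact h

/-- `(hd - 1)/η² → -1/2 + 4/t²`: with `x = 2 sh/t`,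
`hd - 1 = (ch (1 - ch) - 2 x sh (1 - ch) + x² (ch - sh²)) / (ch - x sh)²`. -/
theorem tendsto_hd {t : ℝ} (ht : 0 < t) :
    Tendsto (fun η => (hd η t - 1) / η ^ 2) (𝓝[>] 0) (𝓝 (-1 / 2 + 4 / t ^ 2)) := by
  have h1 : Tendsto (fun η : ℝ => (-(t ^ 2 * Real.cosh η * ((Real.cosh η - 1) / η ^ 2)) +
      4 * t * Real.sinh η ^ 2 * ((Real.cosh η - 1) / η ^ 2) +
      4 * (Real.sinh η ^ 2 / η ^ 2) * (Real.cosh η - Real.sinh η ^ 2)) /
      (t * Real.cosh η - 2 * Real.sinh η ^ 2) ^ 2) (𝓝[>] 0)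
      (𝓝 ((-(t ^ 2 * 1 * (1 / 2)) + 4 * t * 0 ^ 2 * (1 / 2) + 4 * 1 * (1 - 0 ^ 2)) / t ^ 2)) := by
    refine Tendsto.div ?_ (AnC_den.pow 2) (by positivity)
    refine Tendsto.add (Tendsto.add ?_ ?_) ?_
    · exact ((AnC_ch.const_mul (t ^ 2)).mul AnC_ch1).neg
    · exact ((AnC_sh.pow 2).const_mul (4 * t)).mul AnC_ch1
    · exact (AnC_sh2.const_mul 4).mul (AnC_ch.sub (AnC_sh.pow 2))
  have e : (-(t ^ 2 * 1 * (1 / 2)) + 4 * t * 0 ^ 2 * (1 / 2) + 4 * 1 * (1 - 0 ^ 2)) / t ^ 2 =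
      -1 / 2 + 4 / t ^ 2 := by
    field_simp; ring
  rw [e] at h1
  refine h1.congr' ?_
  filter_upwards [AnC_ev ht] with η hη
  have hB := (den_pos hη.1 hη.2).ne'
  have hη0 : η ≠ 0 := hη.1.ne'
  have h2 : hd η t - 1 = (-(t ^ 2 * Real.cosh η * (Real.cosh η - 1)) +
      4 * t * Real.sinh η ^ 2 * (Real.cosh η - 1) +
      4 * Real.sinh η ^ 2 * (Real.cosh η - Real.sinh η ^ 2)) /
      (t * Real.cosh η - 2 * Real.sinh η ^ 2) ^ 2 := by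
    unfold hd
    rw [eq_div_iff (pow_ne_zero 2 hB), sub_mul, div_mul_cancel₀ _ (pow_ne_zero 2 hB)]
    ring
  rw [h2]
  generalize t * Real.cosh η - 2 * Real.sinh η ^ 2 = B at hB ⊢
  field_simp

/-- `(ph - 1)/η² → 1 - 4/t + 4/t²`: with `x = 2 sh/t`,
`ph - 1 = (ch² - 1 - 2 x sh ch + x² sh² + x²) / (1 - x²)`. -/
theorem tendsto_ph {t : ℝ} (ht : 0 < t) :
    Tendsto (fun η => (ph η t - 1) / η ^ 2) (𝓝[>] 0) (𝓝 (1 - 4 / t + 4 / t ^ 2)) := by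
  have h1 : Tendsto (fun η : ℝ => (Real.sinh η ^ 2 / η ^ 2) *
      (t ^ 2 - 4 * t * Real.cosh η + 4 * Real.sinh η ^ 2 + 4) /
      (t ^ 2 - 4 * Real.sinh η ^ 2)) (𝓝[>] 0)
      (𝓝 (1 * (t ^ 2 - 4 * t * 1 + 4 * 0 ^ 2 + 4) / t ^ 2)) := by
    refine Tendsto.div ?_ AnC_num (by positivity)
    refine AnC_sh2.mul ?_
    exact ((tendsto_const_nhds.sub (AnC_ch.const_mul (4 * t))).add
      ((AnC_sh.pow 2).const_mul 4)).add_const 4
  have e : 1 * (t ^ 2 - 4 * t * 1 + 4 * 0 ^ 2 + 4) / t ^ 2 = 1 - 4 / t + 4 / t ^ 2 := by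
    field_simp; ring
  rw [e] at h1
  refine h1.congr' ?_
  filter_upwards [AnC_ev ht] with η hη
  have hA := (AnA_num_pos hη.1 hη.2).ne'
  have hη0 : η ≠ 0 := hη.1.ne'
  have h2 : ph η t - 1 = Real.sinh η ^ 2 *
      (t ^ 2 - 4 * t * Real.cosh η + 4 * Real.sinh η ^ 2 + 4) /
      (t ^ 2 - 4 * Real.sinh η ^ 2) := by
    unfold ph
    rw [eq_div_iff hA, sub_mul, div_mul_cancel₀ _ hA]
    have h4 := Real.cosh_sq η
    linear_combination t ^ 2 * h4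
  rw [h2]
  generalize t ^ 2 - 4 * Real.sinh η ^ 2 = A at hA ⊢
  field_simp

theorem AnC_ph_one {t : ℝ} (ht : 0 < t) : Tendsto (fun η => ph η t) (𝓝[>] 0) (𝓝 1) := by
  have h := ((AnC_den (t := t)).pow 2).div (AnC_num (t := t)) (by positivity)
  have e : t ^ 2 / t ^ 2 = 1 := by field_simp
  rw [e] at h
  exact h

theorem AnC_hd_one {t : ℝ} (ht : 0 < t) : Tendsto (fun η => hd η t) (𝓝[>] 0) (𝓝 1) := by
  have h : Tendsto (fun η : ℝ => (t ^ 2 * Real.cosh η - 4 * t * Real.sinh η ^ 2 +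
      4 * Real.sinh η ^ 2 * Real.cosh η) / (t * Real.cosh η - 2 * Real.sinh η ^ 2) ^ 2) (𝓝[>] 0)
      (𝓝 ((t ^ 2 * 1 - 4 * t * 0 ^ 2 + 4 * 0 ^ 2 * 1) / t ^ 2)) := by
    refine Tendsto.div ?_ (AnC_den.pow 2) (by positivity)
    exact ((AnC_ch.const_mul _).sub ((AnC_sh.pow 2).const_mul _)).add
      (((AnC_sh.pow 2).const_mul 4).mul AnC_ch)
  have e : (t ^ 2 * 1 - 4 * t * 0 ^ 2 + 4 * 0 ^ 2 * 1) / t ^ 2 = 1 := by
    field_simp; ring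
  rw [e] at h
  exact h

/-- `FF = (cosh ((2d+1) η) - 1) hd + (hd - 1) - (ph^d - 1)`, and `ph^d - 1 = (ph - 1) ∑ ph^i`. The limit
is `(2d+1)²/2 - 1/2 + 4/t² - d (1 - 4/t + 4/t²) = 2 om d t`. -/
theorem tendsto_FF (d : ℕ) {t : ℝ} (ht : 0 < t) :
    Tendsto (fun η => FF d η t / η ^ 2) (𝓝[>] 0) (𝓝 (2 * om d t)) := by
  have h1 := ((AnC_cosh (2 * d + 1)).mul (AnC_hd_one ht)).add (tendsto_hd ht)
  have hs : Tendsto (fun η => ∑ i ∈ Finset.range d, ph η t ^ i) (𝓝[>] 0)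
      (𝓝 (∑ i ∈ Finset.range d, (1 : ℝ) ^ i)) :=
    tendsto_finsetSum _ fun i _ => (AnC_ph_one ht).pow i
  have h2 := h1.sub ((tendsto_ph ht).mul hs)
  have e : (2 * (d : ℝ) + 1) ^ 2 / 2 * 1 + (-1 / 2 + 4 / t ^ 2) -
      (1 - 4 / t + 4 / t ^ 2) * ∑ i ∈ Finset.range d, (1 : ℝ) ^ i = 2 * om d t := by
    simp only [one_pow, Finset.sum_const, Finset.card_range, nsmul_eq_mul, mul_one]
    unfold om
    field_simp
    ring
  rw [e] at h2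
  refine h2.congr' ?_
  filter_upwards [AnC_ev ht] with η hη
  have hη0 : η ≠ 0 := hη.1.ne'
  have h3 : (ph η t - 1) * ∑ i ∈ Finset.range d, ph η t ^ i = ph η t ^ d - 1 :=
    mul_geom_sum (ph η t) d
  unfold FF
  have h4 : (ph η t - 1) / η ^ 2 * ∑ i ∈ Finset.range d, ph η t ^ i =
      (ph η t ^ d - 1) / η ^ 2 := by
    rw [← h3]; ring
  rw [h4]
  field_simp
  ring

end Pool.Agent.LibSP74
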