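import Pool.Agent.LibSP74.AnB
import Pool.Agent.LibSP74.AnC

/-! Task AnD: the limit of the integrals. -/

set_option autoImplicit false

open MeasureTheory Set Filter
open scoped Topology

namespace Pool.Agent.LibSP74

/-- Dominated convergence (`tendsto_integral_filter_of_dominated_convergence` on `Ioo 0 3`, with
indicators, or along sequences): for `η ≤ 1/4` the integrand divided by `η²` is bounded by `C`
(`bound_FF`), the indicator of `Ioo (2 sinh η) (2 cosh η)` tends to the indicator of `Ioo 0 2` at all
points `≠ 2`, and `D (hh η t) → D t` if `D` is continuous at `t`. -/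
theorem tendsto_main {d : ℕ} (hd2 : 2 ≤ d) {D : ℝ → ℝ} (hm : Measurable D)
    (h0 : ∀ u ∈ Ioo (0 : ℝ) 2, 0 ≤ D u) (h1 : ∀ u ∈ Ioo (0 : ℝ) 2, D u ≤ u ^ d)
    (hc : ∀ᵐ u : ℝ, ContinuousAt D u) :
    Tendsto (fun η => (∫ t in Ioo (2 * Real.sinh η) (2 * Real.cosh η),
      D (hh η t) * FF d η t) / η ^ 2) (𝓝[>] 0) (𝓝 (2 * ∫ u in Ioo 0 2, D u * om d u)) := by
  obtain ⟨C, hC⟩ := bound_FF hd2
  have hsm : ∀ᶠ η in 𝓝[>] (0 : ℝ), 0 < η ∧ η ≤ 1 / 4 := by
    have : Ioc (0 : ℝ) (1 / 4) ∈ 𝓝[>] (0 : ℝ) := Ioc_mem_nhdsGT (by norm_num)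
    filter_upwards [this] with η hη using ⟨hη.1, hη.2⟩
  have hcoshT : Tendsto (fun η : ℝ => 2 * Real.cosh η) (𝓝[>] 0) (𝓝 2) := by
    have h : Continuous fun η : ℝ => 2 * Real.cosh η := by fun_prop
    have := h.tendsto 0
    simp only [Real.cosh_zero, mul_one] at this
    exact this.mono_left nhdsWithin_le_nhds
  have hsinhT : Tendsto (fun η : ℝ => 2 * Real.sinh η) (𝓝[>] 0) (𝓝 0) := by
    have h : Continuous fun η : ℝ => 2 * Real.sinh η := by fun_prop
    have := h.tendsto 0
    simp only [Real.sinh_zero, mul_zero] at this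
    exact this.mono_left nhdsWithin_le_nhds
  have hcosh3 : ∀ᶠ η in 𝓝[>] (0 : ℝ), 2 * Real.cosh η < 3 :=
    hcoshT.eventually (gt_mem_nhds (by norm_num))
  have key : Tendsto (fun η => ∫ t : ℝ, (Ioo (2 * Real.sinh η) (2 * Real.cosh η)).indicator
      (fun t => D (hh η t) * FF d η t / η ^ 2) t) (𝓝[>] 0)
      (𝓝 (∫ t : ℝ, (Ioo (0 : ℝ) 2).indicator (fun t => D t * (2 * om d t)) t)) := by
    refine tendsto_integral_filter_of_dominated_convergence
      ((Ioo (0 : ℝ) 3).indicator (fun _ => C)) ?_ ?_ ?_ ?_
    · refine Eventually.of_forall fun η => ?_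
      refine (Measurable.indicator ?_ measurableSet_Ioo).aestronglyMeasurable
      have e1 : Measurable fun t : ℝ => hh η t := by
        unfold hh; fun_prop
      have e2 : Measurable fun t : ℝ => FF d η t := by
        unfold FF hd ph; fun_prop
      exact ((hm.comp e1).mul e2).div_const _
    · filter_upwards [hsm, hcosh3] with η hη hη3
      refine Eventually.of_forall fun t => ?_
      by_cases ht : t ∈ Ioo (2 * Real.sinh η) (2 * Real.cosh η)
      · have hs : 0 < Real.sinh η := Real.sinh_pos_iff.2 hη.1
        have ht3 : t ∈ Ioo (0 : ℝ) 3 := ⟨by linarith [ht.1], by linarith [ht.2]⟩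
        rw [indicator_of_mem ht, indicator_of_mem ht3, Real.norm_eq_abs, abs_div,
          abs_of_pos (pow_pos hη.1 2), div_le_iff₀ (pow_pos hη.1 2)]
        have hmem : hh η t ∈ Ioo (0 : ℝ) 2 := by
          rw [← image_hh hη.1]
          exact mem_image_of_mem _ ht
        exact hC η hη.1 hη.2 t ht _ (h0 _ hmem) (h1 _ hmem)
      · rw [indicator_of_notMem ht, norm_zero]
        by_cases ht3 : t ∈ Ioo (0 : ℝ) 3
        · rw [indicator_of_mem ht3]
          -- `C ≥ 0`
          have h2 : (1 : ℝ) ∈ Ioo (2 * Real.sinh (1 / 8)) (2 * Real.cosh (1 / 8)) := by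
            constructor
            · have := Real.sinh_lt_cosh (1 / 8)
              have hx : Real.sinh (1 / 8 : ℝ) < 1 / 2 := by
                have e1 : Real.sinh (1 / 8 : ℝ) ≤ Real.exp (1 / 8) / 2 := by
                  rw [Real.sinh_eq]
                  have := Real.exp_pos (-(1 / 8 : ℝ))
                  linarith
                by_contra hcon
                push Not at hcon
                rw [Real.sinh_eq] at hcon
                have e2 : Real.exp (1 / 8 : ℝ) ≤ 1 / (1 - 1 / 8) := by
                  have := Real.one_sub_le_exp_neg (1 / 8 : ℝ)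
                  rw [Real.exp_neg] at this
                  have hp := Real.exp_pos (1 / 8 : ℝ)
                  rw [le_div_iff₀ (by norm_num)]
                  have h3 := mul_le_mul_of_nonneg_left this hp.le
                  rw [mul_inv_cancel₀ hp.ne'] at h3
                  exact h3
                have e3 := Real.one_sub_le_exp_neg (1 / 8 : ℝ)
                norm_num at e2 e3 hcon
                linarith
              linarith
            · have := Real.one_le_cosh (1 / 8)
              linarith
          have hmem : hh (1 / 8) 1 ∈ Ioo (0 : ℝ) 2 := by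
            rw [← image_hh (by norm_num : (0 : ℝ) < 1 / 8)]
            exact mem_image_of_mem _ h2
          have h4 := hC (1 / 8) (by norm_num) (by norm_num) 1 h2 _ (h0 _ hmem) (h1 _ hmem)
          have h5 := (abs_nonneg _).trans h4
          by_contra hcon
          push Not at hcon
          nlinarith
        · rw [indicator_of_notMem ht3]
    · refine (integrable_indicator_iff measurableSet_Ioo).2 ?_
      exact integrableOn_const (by simp)
    · have hne2 : ∀ᵐ t : ℝ, t ≠ 2 := by
        simp [ae_iff]
      have hne0 : ∀ᵐ t : ℝ, t ≠ 0 := by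
        simp [ae_iff]
      filter_upwards [hc, hne2, hne0] with t htc ht2 ht0
      rcases lt_trichotomy t 0 with h | h | h
      · have e1 : t ∉ Ioo (0 : ℝ) 2 := fun hh' => absurd hh'.1 (by linarith)
        rw [indicator_of_notMem e1]
        refine tendsto_const_nhds.congr' ?_
        filter_upwards [hsm] with η hη
        have hs : 0 < Real.sinh η := Real.sinh_pos_iff.2 hη.1
        rw [indicator_of_notMem (fun hh' => absurd hh'.1 (by linarith))]
      · exact absurd h ht0
      · rcases lt_or_gt_of_ne ht2 with h' | h'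
        · have e1 : t ∈ Ioo (0 : ℝ) 2 := ⟨h, h'⟩
          rw [indicator_of_mem e1]
          have hT := (htc.tendsto.comp (tendsto_hh h)).mul (tendsto_FF d h)
          refine hT.congr' ?_
          filter_upwards [hsm, hsinhT.eventually (gt_mem_nhds h)] with η hη hη2
          have e2 : t ∈ Ioo (2 * Real.sinh η) (2 * Real.cosh η) :=
            ⟨hη2, by have := Real.one_le_cosh η; linarith⟩
          rw [indicator_of_mem e2]
          simp only [Function.comp_apply]
          rw [mul_div_assoc]
        · have e1 : t ∉ Ioo (0 : ℝ) 2 := fun hh' => absurd hh'.2 (by linarith)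
          rw [indicator_of_notMem e1]
          refine tendsto_const_nhds.congr' ?_
          filter_upwards [hcoshT.eventually (gt_mem_nhds h')] with η hη
          rw [indicator_of_notMem (fun hh' => absurd hh'.2 (by linarith))]
  have e1 : ∀ η : ℝ, (∫ t in Ioo (2 * Real.sinh η) (2 * Real.cosh η),
      D (hh η t) * FF d η t) / η ^ 2 = ∫ t : ℝ, (Ioo (2 * Real.sinh η) (2 * Real.cosh η)).indicator
      (fun t => D (hh η t) * FF d η t / η ^ 2) t := by
    intro η
    rw [integral_indicator measurableSet_Ioo, integral_div]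
  have e2 : (2 * ∫ u in Ioo (0 : ℝ) 2, D u * om d u) =
      ∫ t : ℝ, (Ioo (0 : ℝ) 2).indicator (fun t => D t * (2 * om d t)) t := by
    rw [integral_indicator measurableSet_Ioo, ← integral_const_mul]
    congr 1
    funext t
    ring
  rw [e2]
  exact key.congr fun η => (e1 η).symm

end Pool.Agent.LibSP74
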