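import Pool.Agent.LibSP74.Basic

/-! Task CubeB: the area of the hexagon. -/

set_option autoImplicit false

open MeasureTheory Set

namespace Pool.Agent.LibSP74

lemma CubeB_int {r s t : ℝ} (h1 : |r - s| ≤ t) (h2 : t ≤ r + s) :
    ∫ x in (-r)..r, (min s (x + t) - max (-s) (x - t)) = 4 * r * s - (r + s - t) ^ 2 := by
  obtain ⟨ha, hb⟩ := abs_le.mp h1
  have hr : -r ≤ s - t := by linarith
  have hs : s - t ≤ r := by linarith
  have hr' : -r ≤ t - s := by linarith
  have hs' : t - s ≤ r := by linarith
  have cmin : Continuous fun x : ℝ => min s (x + t) := by fun_prop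
  have cmax : Continuous fun x : ℝ => max (-s) (x - t) := by fun_prop
  have i1 : ∫ x in (-r)..r, min s (x + t) = (s ^ 2 - (t - r) ^ 2) / 2 + s * (r - (s - t)) := by
    rw [← intervalIntegral.integral_add_adjacent_intervals (b := s - t)
      (cmin.intervalIntegrable _ _) (cmin.intervalIntegrable _ _)]
    congr 1
    · have : ∫ x in (-r)..(s - t), min s (x + t) = ∫ x in (-r)..(s - t), (x + t) := by
        refine intervalIntegral.integral_congr fun x hx => ?_
        rw [uIcc_of_le hr] at hx
        exact min_eq_right (by linarith [hx.2])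
      rw [this, intervalIntegral.integral_comp_add_right (fun x => x) t, integral_id]
      ring
    · have : ∫ x in (s - t)..r, min s (x + t) = ∫ x in (s - t)..r, s := by
        refine intervalIntegral.integral_congr fun x hx => ?_
        rw [uIcc_of_le hs] at hx
        exact min_eq_left (by linarith [hx.1])
      rw [this, intervalIntegral.integral_const, smul_eq_mul]
      ring
  have i2 : ∫ x in (-r)..r, max (-s) (x - t) = (-s) * (t - s + r) + ((r - t) ^ 2 - s ^ 2) / 2 := by
    rw [← intervalIntegral.integral_add_adjacent_intervals (b := t - s)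
      (cmax.intervalIntegrable _ _) (cmax.intervalIntegrable _ _)]
    congr 1
    · have : ∫ x in (-r)..(t - s), max (-s) (x - t) = ∫ x in (-r)..(t - s), (-s) := by
        refine intervalIntegral.integral_congr fun x hx => ?_
        rw [uIcc_of_le hr'] at hx
        exact max_eq_left (by linarith [hx.2])
      rw [this, intervalIntegral.integral_const, smul_eq_mul]
      ring
    · have : ∫ x in (t - s)..r, max (-s) (x - t) = ∫ x in (t - s)..r, (x - t) := by
        refine intervalIntegral.integral_congr fun x hx => ?_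
        rw [uIcc_of_le hs'] at hx
        exact max_eq_right (by linarith [hx.1])
      rw [this, intervalIntegral.integral_comp_sub_right (fun x => x) t, integral_id]
      ring
  rw [intervalIntegral.integral_sub (cmin.intervalIntegrable _ _) (cmax.intervalIntegrable _ _),
    i1, i2]
  ring

/-- The plane: the area of the hexagon. -/
theorem area_hexagon {r s t : ℝ} (h1 : |r - s| ≤ t) (h2 : t ≤ r + s) :
    volume {p : ℝ × ℝ | |p.1| ≤ r ∧ |p.2| ≤ s ∧ |p.1 - p.2| ≤ t} =
      ENNReal.ofReal (4 * r * s - (r + s - t) ^ 2) := by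
  obtain ⟨ha, hb⟩ := abs_le.mp h1
  have ht : 0 ≤ t := (abs_nonneg _).trans h1
  have hr : 0 ≤ r := by linarith
  have hs : 0 ≤ s := by linarith
  have hmeas : MeasurableSet {p : ℝ × ℝ | |p.1| ≤ r ∧ |p.2| ≤ s ∧ |p.1 - p.2| ≤ t} := by
    refine (IsClosed.inter (isClosed_le continuous_fst.abs continuous_const)
      (IsClosed.inter (isClosed_le continuous_snd.abs continuous_const)
      (isClosed_le (continuous_fst.sub continuous_snd).abs continuous_const))).measurableSet
  rw [Measure.volume_eq_prod, Measure.prod_apply hmeas]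
  have hsec : ∀ x : ℝ, volume (Prod.mk x ⁻¹'
      {p : ℝ × ℝ | |p.1| ≤ r ∧ |p.2| ≤ s ∧ |p.1 - p.2| ≤ t}) =
      (Ioc (-r) r).indicator (fun x => ENNReal.ofReal (min s (x + t) - max (-s) (x - t))) x ∨
      x = -r := by
    intro x
    by_cases hx : x = -r
    · exact Or.inr hx
    left
    by_cases hxr : x ∈ Ioc (-r) r
    · rw [indicator_of_mem hxr]
      have : Prod.mk x ⁻¹' {p : ℝ × ℝ | |p.1| ≤ r ∧ |p.2| ≤ s ∧ |p.1 - p.2| ≤ t} =
          Icc (max (-s) (x - t)) (min s (x + t)) := by
        ext y
        simp only [mem_preimage, mem_ofPred_eq, mem_Icc, max_le_iff, le_min_iff, abs_le]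
        constructor
        · rintro ⟨-, ⟨h3, h4⟩, h5, h6⟩
          exact ⟨⟨h3, by linarith⟩, h4, by linarith⟩
        · rintro ⟨⟨h3, h4⟩, h5, h6⟩
          exact ⟨⟨hxr.1.le, hxr.2⟩, ⟨h3, h5⟩, by linarith, by linarith⟩
      rw [this, Real.volume_Icc]
    · rw [indicator_of_notMem hxr]
      have : Prod.mk x ⁻¹' {p : ℝ × ℝ | |p.1| ≤ r ∧ |p.2| ≤ s ∧ |p.1 - p.2| ≤ t} = ∅ := by
        ext y
        simp only [mem_preimage, mem_ofPred_eq, mem_empty_iff_false, iff_false]
        rintro ⟨h3, -⟩
        rw [abs_le] at h3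
        exact hxr ⟨lt_of_le_of_ne h3.1 (Ne.symm hx), h3.2⟩
      rw [this, measure_empty]
  have hae : ∀ᵐ x : ℝ, volume (Prod.mk x ⁻¹'
      {p : ℝ × ℝ | |p.1| ≤ r ∧ |p.2| ≤ s ∧ |p.1 - p.2| ≤ t}) =
      (Ioc (-r) r).indicator
        (fun x => ENNReal.ofReal (min s (x + t) - max (-s) (x - t))) x := by
    have : ∀ᵐ x : ℝ, x ≠ -r := by
      rw [ae_iff]
      simp
    filter_upwards [this] with x hx
    exact (hsec x).resolve_right hx
  rw [lintegral_congr_ae hae, lintegral_indicator measurableSet_Ioc, ← CubeB_int h1 h2,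
    intervalIntegral.integral_of_le (by linarith), ofReal_integral_eq_lintegral_ofReal]
  · have cc : Continuous fun x : ℝ => min s (x + t) - max (-s) (x - t) := by fun_prop
    exact (cc.integrableOn_Icc (a := -r) (b := r)).mono_set Ioc_subset_Icc_self
  · refine (ae_restrict_iff' measurableSet_Ioc).mpr (Filter.Eventually.of_forall fun x hx => ?_)
    simp only [Pi.zero_apply, sub_nonneg, max_le_iff, le_min_iff]
    have h3 := hx.1
    have h4 := hx.2
    exact ⟨⟨by linarith, by linarith⟩, by linarith, by linarith⟩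

end Pool.Agent.LibSP74
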