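import Pool.Agent.LibSP74.CubeA
import Pool.Agent.LibSP74.CubeB

/-! Task Cube: the volume function of the cube. -/

set_option autoImplicit false

open MeasureTheory Set

namespace Pool.Agent.LibSP74

/-- The volume function of the cube is the product of the areas. (`vol mx = 2 ^ d`. Use the measure
preserving equivalence `(Fin d → ℝ) × (Fin d → ℝ) ≃ᵐ (Fin d → ℝ × ℝ)`, or Fubini, `volume_pi_pi` and
`MeasureTheory.lintegral_fintype_prod_eq_prod`-like lemmas.) -/
theorem V_mx (d : ℕ) {r s t : ℝ} (h1 : |r - s| ≤ t) (h2 : t ≤ r + s) :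
    V (mx : E d → ℝ) r s t = (4 * r * s - (r + s - t) ^ 2) ^ d := by
  rw [abs_le] at h1
  have hr : 0 ≤ r := by linarith [h1.1]
  have hs : 0 ≤ s := by linarith [h1.2]
  have ht : 0 ≤ t := by linarith [h1.1, h1.2]
  have hA : 0 ≤ 4 * r * s - (r + s - t) ^ 2 := by
    have a1 : 0 ≤ r + s - t := by linarith
    rcases le_total r s with h | h
    · have : r + s - t ≤ 2 * r := by linarith
      nlinarith
    · have : r + s - t ≤ 2 * s := by linarith
      nlinarith
  have hm : MeasurePreserving (fun f : Fin d → ℝ × ℝ =>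
      ((WithLp.toLp 2 (fun i => (f i).1) : E d), (WithLp.toLp 2 (fun i => (f i).2) : E d))) := by
    have a1 := volume_measurePreserving_arrowProdEquivProdArrow ℝ ℝ (Fin d)
    have a2 : MeasurePreserving (Prod.map (WithLp.toLp 2 : (Fin d → ℝ) → E d)
        (WithLp.toLp 2 : (Fin d → ℝ) → E d)) :=
      (PiLp.volume_preserving_toLp (Fin d)).prod (PiLp.volume_preserving_toLp (Fin d))
    exact a2.comp a1
  have hT : MeasurableSet (T (mx : E d → ℝ) r s t) := (isN_mx d).measurableSet_T r s t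
  have hpre : (fun f : Fin d → ℝ × ℝ =>
      ((WithLp.toLp 2 (fun i => (f i).1) : E d), (WithLp.toLp 2 (fun i => (f i).2) : E d))) ⁻¹'
      (T (mx : E d → ℝ) r s t) =
      Set.pi univ (fun _ => {p : ℝ × ℝ | |p.1| ≤ r ∧ |p.2| ≤ s ∧ |p.1 - p.2| ≤ t}) := by
    ext f
    simp only [Set.mem_preimage, T, Set.mem_setOf_eq, mx, Set.mem_pi, Set.mem_univ, true_imp_iff]
    rw [pi_norm_le_iff_of_nonneg hr, pi_norm_le_iff_of_nonneg hs, pi_norm_le_iff_of_nonneg ht]
    constructor
    · rintro ⟨b1, b2, b3⟩ i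
      exact ⟨b1 i, b2 i, b3 i⟩
    · intro b
      exact ⟨fun i => (b i).1, fun i => (b i).2.1, fun i => (b i).2.2⟩
  unfold V
  rw [← hm.measure_preimage hT.nullMeasurableSet, hpre, volume_pi_pi]
  simp only [area_hexagon (abs_le.2 h1) h2, Finset.prod_const, Finset.card_univ, Fintype.card_fin]
  rw [ENNReal.toReal_pow, ENNReal.toReal_ofReal hA]

end Pool.Agent.LibSP74
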