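import Pool.Agent.LibSP74.Basic

/-! Task Gauge: norms and bodies. -/

set_option autoImplicit false

open MeasureTheory Set

namespace Pool.Agent.LibSP74

/-- `N` and its unit ball determine each other. (Copy the proof of `gauge_ball` in
`H78Sprawl/Polar.lean`.) -/
theorem gauge_ball {d : ℕ} {N : E d → ℝ} (h : IsN N) : gauge {z | N z ≤ 1} = N := by
  funext z
  by_cases hz : z = 0
  · rw [hz, gauge_zero, h.zero]
  have hpos := h.pos z hz
  apply le_antisymm
  · apply gauge_le_of_mem hpos.le
    rw [mem_smul_set_iff_inv_smul_mem₀ hpos.ne']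
    change N _ ≤ 1
    rw [h.smul_nonneg (by positivity), inv_mul_cancel₀ hpos.ne']
  · rw [gauge_def']
    refine le_csInf ⟨N z, hpos, ?_⟩ ?_
    · change N _ ≤ 1
      rw [h.smul_nonneg (by positivity), inv_mul_cancel₀ hpos.ne']
    · rintro r ⟨hr, hr'⟩
      have hr0 : 0 < r := hr
      have h1 : N (r⁻¹ • z) ≤ 1 := hr'
      rw [h.smul_nonneg (by positivity), inv_mul_le_iff₀ hr0, mul_one] at h1
      exact h1

/-- (Copy the proof of `body_norm` in `H78Sprawl/Polar.lean`.) -/
theorem body_norm {d : ℕ} {K : Set (E d)} (hc : Convex ℝ K) (hK : IsCompact K)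
    (hi : (interior K).Nonempty) (hs : ∀ x ∈ K, -x ∈ K) :
    IsN (gauge K) ∧ K = {z | gauge K z ≤ 1} := by
  have h0 : K ∈ nhds (0 : E d) := by
    obtain ⟨z, hz⟩ := hi
    have hz' : -z ∈ interior K := by
      have hneg : (Homeomorph.neg (E d)) '' K = K := by
        ext x
        constructor
        · rintro ⟨y, hy, rfl⟩
          exact hs y hy
        · intro hx
          exact ⟨-x, hs x hx, neg_neg x⟩
      have := (Homeomorph.neg (E d)).image_interior K
      rw [hneg] at this
      rw [← this]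
      exact ⟨z, hz, rfl⟩
    have hmid := hc.interior hz hz' (by norm_num : (0:ℝ) ≤ 1/2) (by norm_num : (0:ℝ) ≤ 1/2)
      (by norm_num)
    rw [smul_neg, add_neg_cancel] at hmid
    exact mem_interior_iff_mem_nhds.1 hmid
  have habs : Absorbent ℝ K := absorbent_nhds_zero h0
  refine ⟨⟨continuous_gauge hc h0, ?_, fun z w => gauge_add_le hc habs z w, ?_⟩, ?_⟩
  · intro c z
    rcases le_total 0 c with hcc | hcc
    · rw [gauge_smul_of_nonneg hcc, smul_eq_mul, abs_of_nonneg hcc]
    · have e : c • z = -((-c) • z) := by rw [neg_smul, neg_neg]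
      rw [e, gauge_neg hs, gauge_smul_of_nonneg (by linarith), smul_eq_mul, abs_of_nonpos hcc]
  · intro z hz
    exact (gauge_pos habs (NormedSpace.isVonNBounded_of_isBounded ℝ hK.isBounded)).2 hz
  · ext z
    rw [mem_ofPred_eq, gauge_le_one_iff_mem_closure hc h0, hK.isClosed.closure_eq]

end Pool.Agent.LibSP74
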