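import Pool.Agent.LibSP74.Defs

/-! Task Pos: positivity of the limit for `d ≥ 3`. -/

set_option autoImplicit false

open MeasureTheory Set

namespace Pool.Agent.LibSP74

theorem Pos_om_eq {d : ℕ} {t : ℝ} (h : 0 < t) :
    om d t = ((d : ℝ) * (2 * d + 1) / 2 * t ^ 2 + 2 * d * t - 2 * (d - 1)) / t ^ 2 := by
  unfold om
  field_simp

/-- `om d` is nonnegative on `[2/5, 2]`: `t² om` is increasing in `t` and at `2/5` it is
`(4 d² - 28 d + 50)/25 > 0` (discriminant `28² - 800 < 0`). -/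
theorem om_nonneg {d : ℕ} (hd : 1 ≤ d) {t : ℝ} (h : 2 / 5 ≤ t) : 0 ≤ om d t := by
  have ht : 0 < t := by linarith
  rw [Pos_om_eq ht]
  refine div_nonneg ?_ (by positivity)
  have hd' : (1 : ℝ) ≤ d := by exact_mod_cast hd
  have h1 : (4 / 25 : ℝ) ≤ t ^ 2 := by nlinarith
  have h2 : (d : ℝ) * (2 * d + 1) / 2 * (4 / 25) ≤ (d : ℝ) * (2 * d + 1) / 2 * t ^ 2 :=
    mul_le_mul_of_nonneg_left h1 (by positivity)
  have h3 : 2 * (d : ℝ) * (2 / 5) ≤ 2 * d * t := mul_le_mul_of_nonneg_left h (by positivity)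
  nlinarith [sq_nonneg ((d : ℝ) - 7 / 2)]

/-- Pointwise: for `0 < t < 2/5` let `θ = t (3-t)²/(4(2-t)) ≤ 9t/8 < 1`, `T = (4-2t)/(3-t) ∈ (1, 4/3)`. We have
`om d t ≥ -2(d-1)/t²`, `om d T ≥ d(2d+1)/2`, and `2(d-1) θ^d / t² ≤ 2 (d-1) (9/8)³ t ≤ d(2d+1)/9 ≤
d (2d+1)/(3-t)²` for `d ≥ 3`. -/
theorem om_pointwise {d : ℕ} (hd : 3 ≤ d) {t : ℝ} (h0 : 0 < t) (h1 : t < 2 / 5) {y z : ℝ} (hy : 0 ≤ y)
    (hz : 0 ≤ z) (hyz : y ≤ (t * (3 - t) ^ 2 / (4 * (2 - t))) ^ d * z) :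
    0 ≤ y * om d t + z * om d ((4 - 2 * t) / (3 - t)) * (2 / (3 - t) ^ 2) := by
  have hd' : (3 : ℝ) ≤ d := by exact_mod_cast hd
  set θ := t * (3 - t) ^ 2 / (4 * (2 - t)) with hθ
  set T := (4 - 2 * t) / (3 - t) with hT
  have h2t : 0 < 2 - t := by linarith
  have h3t : 0 < 3 - t := by linarith
  have hθ0 : 0 ≤ θ := by positivity
  have hθ1 : θ ≤ 9 / 8 * t := by
    rw [hθ, div_le_iff₀ (by positivity)]
    nlinarith [mul_pos h0 h0, mul_pos h0 h2t]
  have hθ2 : θ ≤ 1 := by linarith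
  have hθd : θ ^ d ≤ (9 / 8 * t) ^ 3 :=
    (pow_le_pow_of_le_one hθ0 hθ2 hd).trans (pow_le_pow_left₀ hθ0 hθ1 3)
  -- lower bound for `om d t`
  have ho1 : -(2 * ((d : ℝ) - 1) / t ^ 2) ≤ om d t := by
    unfold om
    have a1 : 0 ≤ (d : ℝ) * (2 * d + 1) / 2 := by positivity
    have a2 : 0 ≤ 2 * (d : ℝ) / t := by positivity
    linarith
  have hT1 : 1 ≤ T := by
    rw [hT, le_div_iff₀ h3t]; linarith
  have ho2 : (d : ℝ) * (2 * d + 1) / 2 ≤ om d T := by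
    unfold om
    have a1 : 2 * ((d : ℝ) - 1) / T ^ 2 ≤ 2 * d / T := by
      rw [div_le_div_iff₀ (by positivity) (by linarith)]
      have hT0 : 0 < T := by linarith
      have a3 : (d : ℝ) - 1 ≤ d * T := by nlinarith
      have a4 : 2 * ((d : ℝ) - 1) * T ≤ 2 * (d * T) * T := by
        have := mul_le_mul_of_nonneg_right a3 hT0.le
        linarith
      calc 2 * ((d : ℝ) - 1) * T ≤ 2 * (d * T) * T := a4
        _ = 2 * d * T ^ 2 := by ring
    linarith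
  have h5 : y * (2 * ((d : ℝ) - 1) / t ^ 2) ≤ z * (d * (2 * d + 1) / 9) := by
    have b0 : 0 ≤ 2 * ((d : ℝ) - 1) / t ^ 2 := div_nonneg (by linarith) (by positivity)
    have b1 : y * (2 * ((d : ℝ) - 1) / t ^ 2) ≤ (θ ^ d * z) * (2 * ((d : ℝ) - 1) / t ^ 2) :=
      mul_le_mul_of_nonneg_right hyz b0
    have b2 : (θ ^ d * z) * (2 * ((d : ℝ) - 1) / t ^ 2) ≤
        ((9 / 8 * t) ^ 3 * z) * (2 * ((d : ℝ) - 1) / t ^ 2) :=
      mul_le_mul_of_nonneg_right (mul_le_mul_of_nonneg_right hθd hz) b0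
    have b3 : ((9 / 8 * t) ^ 3 * z) * (2 * ((d : ℝ) - 1) / t ^ 2) =
        z * ((9 / 8) ^ 3 * t * (2 * ((d : ℝ) - 1))) := by
      field_simp
    have b4 : (9 / 8 : ℝ) ^ 3 * t * (2 * ((d : ℝ) - 1)) ≤ d * (2 * d + 1) / 9 := by
      have c1 : (9 / 8 : ℝ) ^ 3 * t * (2 * ((d : ℝ) - 1)) ≤
          (9 / 8 : ℝ) ^ 3 * (2 / 5) * (2 * ((d : ℝ) - 1)) := by
        apply mul_le_mul_of_nonneg_right _ (by linarith)
        apply mul_le_mul_of_nonneg_left h1.le (by positivity)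
      refine c1.trans ?_
      nlinarith
    have b5 := mul_le_mul_of_nonneg_left b4 hz
    rw [b3] at b2
    linarith
  have h6 : z * (d * (2 * d + 1) / 9) ≤ z * om d T * (2 / (3 - t) ^ 2) := by
    have c1 : (2 / 9 : ℝ) ≤ 2 / (3 - t) ^ 2 := by
      rw [div_le_div_iff₀ (by norm_num) (by positivity)]
      nlinarith
    have c2 : (d : ℝ) * (2 * d + 1) / 2 * (2 / 9) ≤ om d T * (2 / (3 - t) ^ 2) := by
      apply mul_le_mul ho2 c1 (by norm_num)
      exact le_trans (by positivity) ho2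
    have c3 := mul_le_mul_of_nonneg_left c2 hz
    calc z * (d * (2 * d + 1) / 9) = z * ((d : ℝ) * (2 * d + 1) / 2 * (2 / 9)) := by ring
      _ ≤ z * (om d T * (2 / (3 - t) ^ 2)) := c3
      _ = z * om d T * (2 / (3 - t) ^ 2) := by ring
  have h7 : -(y * (2 * ((d : ℝ) - 1) / t ^ 2)) ≤ y * om d t := by
    have := mul_le_mul_of_nonneg_left ho1 hy
    linarith
  linarith

theorem Pos_measurable_om (d : ℕ) : Measurable (om d) := by
  unfold om
  fun_prop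

theorem Pos_integrable {d : ℕ} (hd : 3 ≤ d) {D : ℝ → ℝ} (hm : Measurable D)
    (h0 : ∀ u ∈ Ioo (0 : ℝ) 2, 0 ≤ D u) (h1 : ∀ u ∈ Ioo (0 : ℝ) 2, D u ≤ u ^ d) :
    IntegrableOn (fun u => D u * om d u) (Ioo 0 2) := by
  refine Measure.integrableOn_of_bounded (M := 2 ^ (d - 2) * (2 * d * (2 * d + 1) + 4 * d + 2 * d))
    (by simp) (hm.mul (Pos_measurable_om d)).aestronglyMeasurable ?_
  filter_upwards [ae_restrict_mem measurableSet_Ioo] with u hu
  have hu0 : 0 < u := hu.1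
  have hu2 : u < 2 := hu.2
  have hd' : (3 : ℝ) ≤ d := by exact_mod_cast hd
  rw [Real.norm_eq_abs, abs_mul, abs_of_nonneg (h0 u hu)]
  have e1 : |om d u| ≤ (2 * d * (2 * d + 1) + 4 * d + 2 * d) / u ^ 2 := by
    rw [Pos_om_eq hu0, abs_div, abs_of_pos (by positivity : (0 : ℝ) < u ^ 2)]
    apply div_le_div_of_nonneg_right _ (by positivity)
    have a1 : (d : ℝ) * (2 * d + 1) / 2 * u ^ 2 ≤ (d : ℝ) * (2 * d + 1) / 2 * 4 :=
      mul_le_mul_of_nonneg_left (by nlinarith) (by positivity)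
    have a2 : 2 * (d : ℝ) * u ≤ 2 * d * 2 := mul_le_mul_of_nonneg_left hu2.le (by positivity)
    have a3 : 0 ≤ (d : ℝ) * (2 * d + 1) / 2 * u ^ 2 := by positivity
    have a4 : 0 ≤ 2 * (d : ℝ) * u := by positivity
    rw [abs_le]
    constructor <;> nlinarith
  calc D u * |om d u| ≤ u ^ d * ((2 * d * (2 * d + 1) + 4 * d + 2 * d) / u ^ 2) :=
        mul_le_mul (h1 u hu) e1 (abs_nonneg _) (by positivity)
    _ = u ^ (d - 2) * (2 * d * (2 * d + 1) + 4 * d + 2 * d) := by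
        have : u ^ d = u ^ (d - 2) * u ^ 2 := by
          rw [← pow_add]; congr 1; omega
        rw [this]; field_simp
    _ ≤ 2 ^ (d - 2) * (2 * d * (2 * d + 1) + 4 * d + 2 * d) := by
        apply mul_le_mul_of_nonneg_right _ (by positivity)
        exact pow_le_pow_left₀ hu0.le hu2.le _

/-- The integral over `(0, 2)` is at least the integral over `(0, 2/5)` plus the integral over
`(16/13, 4/3)`; in the last one substitute `u = (4 - 2t)/(3 - t)`, `t ∈ (0, 2/5)`,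
`du = -2/(3-t)² dt`. -/
theorem integral_nonneg_main {d : ℕ} (hd : 3 ≤ d) {D : ℝ → ℝ} (hm : Measurable D)
    (h0 : ∀ u ∈ Ioo (0 : ℝ) 2, 0 ≤ D u) (h1 : ∀ u ∈ Ioo (0 : ℝ) 2, D u ≤ u ^ d)
    (h2 : ∀ t ∈ Ioo (0 : ℝ) 1, D t ≤ (t * (3 - t) ^ 2 / (4 * (2 - t))) ^ d *
      D ((4 - 2 * t) / (3 - t))) :
    0 ≤ ∫ u in Ioo 0 2, D u * om d u := by
  have hi := Pos_integrable hd hm h0 h1
  have hsplit : Ioo (0 : ℝ) 2 = Ioo 0 (2 / 5) ∪ Ico (2 / 5) 2 := by
    rw [Ioo_union_Ico_eq_Ioo (by norm_num) (by norm_num)]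
  have hdisj : Disjoint (Ioo (0 : ℝ) (2 / 5)) (Ico (2 / 5) 2) := by
    rw [Set.disjoint_left]
    intro x hx hx2
    linarith [hx.2, hx2.1]
  have hi1 : IntegrableOn (fun u => D u * om d u) (Ioo 0 (2 / 5)) :=
    hi.mono_set (by rw [hsplit]; exact subset_union_left)
  have hi2 : IntegrableOn (fun u => D u * om d u) (Ico (2 / 5) 2) :=
    hi.mono_set (by rw [hsplit]; exact subset_union_right)
  rw [hsplit, setIntegral_union hdisj measurableSet_Ico hi1 hi2]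
  -- the substitution
  set T : ℝ → ℝ := fun t => (4 - 2 * t) / (3 - t) with hT
  have hder : ∀ t ∈ Ioo (0 : ℝ) (2 / 5), HasDerivWithinAt T (-(2 / (3 - t) ^ 2)) (Ioo 0 (2 / 5)) t := by
    intro t ht
    have h3t : 3 - t ≠ 0 := by linarith [ht.2]
    have a1 : HasDerivAt (fun t : ℝ => 4 - 2 * t) (-2) t := by
      simpa using ((hasDerivAt_id t).const_mul 2).const_sub 4
    have a2 : HasDerivAt (fun t : ℝ => 3 - t) (-1) t := by
      simpa using (hasDerivAt_id t).const_sub 3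
    have a3 := a1.fun_div a2 h3t
    have e : (-2 * (3 - t) - (4 - 2 * t) * -1) / (3 - t) ^ 2 = -(2 / (3 - t) ^ 2) := by
      field_simp; ring
    rw [e] at a3
    exact a3.hasDerivWithinAt
  have hinj : InjOn T (Ioo 0 (2 / 5)) := by
    intro a ha b hb hab
    simp only [hT] at hab
    have a3 : 3 - a ≠ 0 := by linarith [ha.2]
    have b3 : 3 - b ≠ 0 := by linarith [hb.2]
    rw [div_eq_div_iff a3 b3] at hab
    linarith
  have himg : T '' Ioo 0 (2 / 5) ⊆ Ico (2 / 5) 2 := by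
    rintro _ ⟨t, ht, rfl⟩
    have a3 : 0 < 3 - t := by linarith [ht.2]
    simp only [hT]
    constructor
    · rw [le_div_iff₀ a3]; linarith [ht.1, ht.2]
    · rw [div_lt_iff₀ a3]; linarith [ht.1, ht.2]
  have hcv := integral_image_eq_integral_abs_deriv_smul measurableSet_Ioo hder hinj
    (fun u => D u * om d u)
  have hci := (integrableOn_image_iff_integrableOn_abs_deriv_smul measurableSet_Ioo hder hinj
    (fun u => D u * om d u)).1 (hi2.mono_set himg)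
  have hmono : ∫ u in T '' Ioo 0 (2 / 5), D u * om d u ≤ ∫ u in Ico (2 / 5) 2, D u * om d u := by
    refine setIntegral_mono_set hi2 ?_ (Filter.Eventually.of_forall himg)
    filter_upwards [ae_restrict_mem measurableSet_Ico] with u hu
    exact mul_nonneg (h0 u ⟨by linarith [hu.1], hu.2⟩) (om_nonneg (by omega) hu.1)
  rw [hcv] at hmono
  have hsum : 0 ≤ ∫ t in Ioo 0 (2 / 5), (D t * om d t + |-(2 / (3 - t) ^ 2)| • (D (T t) * om d (T t))) := by
    refine setIntegral_nonneg measurableSet_Ioo ?_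
    intro t ht
    have e : |-(2 / (3 - t) ^ 2)| • (D (T t) * om d (T t)) =
        D (T t) * om d (T t) * (2 / (3 - t) ^ 2) := by
      rw [abs_neg, abs_of_nonneg (by positivity), smul_eq_mul]; ring
    rw [e]
    refine om_pointwise hd ht.1 ht.2 (h0 t ⟨ht.1, by linarith [ht.2]⟩) (h0 _ ?_)
      (h2 t ⟨ht.1, by linarith [ht.2]⟩)
    have := himg ⟨t, ht, rfl⟩
    exact ⟨by linarith [this.1], this.2⟩
  rw [integral_add hi1 hci] at hsum
  linarith

end Pool.Agent.LibSP74
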