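import Pool.Agent.LibSP74.Layer

/-! Task Shell: the sprawl and `Psi`. -/

set_option autoImplicit false

open MeasureTheory Set
open scoped Pointwise

namespace Pool.Agent.LibSP74

variable {d : ℕ} {N : E d → ℝ}

lemma Shell_diff (h : IsN N) {f : E d → ℝ} {a b : ℝ} (hab : b ≤ a)
    (hf : IntegrableOn f {x : E d | N x ≤ a}) :
    ∫ x in {x : E d | N x ≤ a} \ {x : E d | N x ≤ b}, f x =
      (∫ x in {x : E d | N x ≤ a}, f x) - ∫ x in {x : E d | N x ≤ b}, f x :=
  integral_diff (h.measurableSet_ball b) hf fun _ hx => le_trans hx hab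

/-- The integral of a function of degree of homogeneity zero. -/
lemma Shell_hom (h : IsN N) {f : E d → ℝ} {r : ℝ} (hr : 0 < r)
    (hf : ∀ c : ℝ, 0 < c → ∀ x, f (c • x) = f x) :
    ∫ x in {x : E d | N x ≤ r}, f x = r ^ d * ∫ x in {x : E d | N x ≤ 1}, f x := by
  have h1 := Measure.setIntegral_comp_smul_of_pos (volume : Measure (E d)) f
    {x : E d | N x ≤ 1} hr
  have h2 : r • {x : E d | N x ≤ 1} = {x : E d | N x ≤ r} := by
    ext x
    rw [mem_smul_set_iff_inv_smul_mem₀ hr.ne', mem_ofPred_eq, mem_ofPred_eq,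
      h.smul_nonneg (inv_nonneg.mpr hr.le), inv_mul_le_iff₀ hr, mul_one]
  rw [h2] at h1
  simp only [hf r hr, finrank_euclideanSpace, Fintype.card_fin, smul_eq_mul] at h1
  rw [h1, ← mul_assoc, mul_inv_cancel₀ (pow_ne_zero _ hr.ne'), one_mul]

/-- Continuous functions are integrable. -/
lemma Shell_int_G (h : IsN N) (r s : ℝ) :
    Integrable (fun p : E d × E d => N (p.1 - p.2))
      ((volume.restrict {x : E d | N x ≤ r}).prod (volume.restrict {x : E d | N x ≤ s})) := by
  rw [Measure.prod_restrict]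
  exact ((h.cont.comp (continuous_fst.sub continuous_snd)).continuousOn.integrableOn_compact
    ((h.isCompact_ball r).prod (h.isCompact_ball s)))

lemma Shell_vol_lt (h : IsN N) (r : ℝ) : volume {x : E d | N x ≤ r} < ⊤ :=
  (h.isCompact_ball r).measure_lt_top

/-- The normalised vector. -/
lemma Shell_norm_le (h : IsN N) (x : E d) : N ((N x)⁻¹ • x) ≤ 1 := by
  rw [h.smul_nonneg (inv_nonneg.mpr (h.nonneg x))]
  exact inv_mul_le_one

lemma Shell_meas_F (h : IsN N) :
    Measurable fun p : E d × E d => N ((N p.1)⁻¹ • p.1 - (N p.2)⁻¹ • p.2) := by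
  refine h.cont.measurable.comp ?_
  exact ((h.cont.measurable.comp measurable_fst).inv.smul measurable_fst).sub
    ((h.cont.measurable.comp measurable_snd).inv.smul measurable_snd)

lemma Shell_bound_F (h : IsN N) (x y : E d) :
    ‖N ((N x)⁻¹ • x - (N y)⁻¹ • y)‖ ≤ 2 := by
  rw [Real.norm_eq_abs, abs_of_nonneg (h.nonneg _)]
  have := h.sub_le ((N x)⁻¹ • x) ((N y)⁻¹ • y)
  have h1 := Shell_norm_le h x
  have h2 := Shell_norm_le h y
  linarith

lemma Shell_int_F (h : IsN N) (r s : ℝ) :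
    Integrable (fun p : E d × E d => N ((N p.1)⁻¹ • p.1 - (N p.2)⁻¹ • p.2))
      ((volume.restrict {x : E d | N x ≤ r}).prod (volume.restrict {x : E d | N x ≤ s})) := by
  have : IsFiniteMeasure (volume.restrict {x : E d | N x ≤ r}) :=
    ⟨by rw [Measure.restrict_apply_univ]; exact Shell_vol_lt h r⟩
  have : IsFiniteMeasure (volume.restrict {x : E d | N x ≤ s}) :=
    ⟨by rw [Measure.restrict_apply_univ]; exact Shell_vol_lt h s⟩
  exact Integrable.of_bound (Shell_meas_F h).aestronglyMeasurable 2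
    (Filter.Eventually.of_forall fun p => Shell_bound_F h p.1 p.2)

/-- The double integral over the shell. -/
lemma Shell_double (h : IsN N) {f : E d × E d → ℝ} {a b : ℝ} (hab : b ≤ a)
    (hf : ∀ r s : ℝ, Integrable f
      ((volume.restrict {x : E d | N x ≤ r}).prod (volume.restrict {x : E d | N x ≤ s})))
    (hf2 : ∀ (s : ℝ) (x : E d), IntegrableOn (fun y => f (x, y)) {x : E d | N x ≤ s}) :
    (∫ x in {x : E d | N x ≤ a} \ {x : E d | N x ≤ b},
      ∫ y in {x : E d | N x ≤ a} \ {x : E d | N x ≤ b}, f (x, y)) =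
      ((∫ x in {x : E d | N x ≤ a}, ∫ y in {x : E d | N x ≤ a}, f (x, y)) -
        ∫ x in {x : E d | N x ≤ b}, ∫ y in {x : E d | N x ≤ a}, f (x, y)) -
      ((∫ x in {x : E d | N x ≤ a}, ∫ y in {x : E d | N x ≤ b}, f (x, y)) -
        ∫ x in {x : E d | N x ≤ b}, ∫ y in {x : E d | N x ≤ b}, f (x, y)) := by
  have h1 : ∀ x : E d, ∫ y in {x : E d | N x ≤ a} \ {x : E d | N x ≤ b}, f (x, y) =
      (∫ y in {x : E d | N x ≤ a}, f (x, y)) - ∫ y in {x : E d | N x ≤ b}, f (x, y) :=
    fun x => Shell_diff h hab (hf2 a x)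
  simp only [h1]
  have h2 : IntegrableOn (fun x => ∫ y in {x : E d | N x ≤ a}, f (x, y)) {x : E d | N x ≤ a} :=
    (hf a a).integral_prod_left
  have h3 : IntegrableOn (fun x => ∫ y in {x : E d | N x ≤ b}, f (x, y)) {x : E d | N x ≤ a} :=
    (hf a b).integral_prod_left
  rw [integral_sub (h2.mono_set diff_subset) (h3.mono_set diff_subset), Shell_diff h hab h2,
    Shell_diff h hab h3]

lemma Shell_close (h : IsN N) {η : ℝ} {x y : E d}
    (hx : x ∈ {x : E d | N x ≤ Real.exp η} \ {x : E d | N x ≤ Real.exp (-η)})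
    (hy : y ∈ {x : E d | N x ≤ Real.exp η} \ {x : E d | N x ≤ Real.exp (-η)}) :
    ‖N ((N x)⁻¹ • x - (N y)⁻¹ • y) - N (x - y)‖ ≤ 2 * (Real.exp η - 1) := by
  have key : ∀ z : E d, z ∈ {x : E d | N x ≤ Real.exp η} \ {x : E d | N x ≤ Real.exp (-η)} →
      N ((N z)⁻¹ • z - z) ≤ Real.exp η - 1 := by
    intro z hz
    have h1 : N z ≤ Real.exp η := hz.1
    have h2 : Real.exp (-η) < N z := not_le.mp hz.2
    have h3 : 0 < N z := (Real.exp_pos _).trans h2
    have h4 : (N z)⁻¹ • z - z = ((N z)⁻¹ - 1) • z := by rw [sub_smul, one_smul]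
    rw [h4, h.smul]
    have h5 : |(N z)⁻¹ - 1| * N z = |1 - N z| := by
      have : |1 - N z| = |((N z)⁻¹ - 1) * N z| := by
        congr 1
        field_simp
      rw [this, abs_mul, abs_of_pos h3]
    rw [h5, abs_le]
    have h6 : Real.exp (-η) * Real.exp η = 1 := by rw [← Real.exp_add]; simp
    have h7 : 0 < Real.exp (-η) := Real.exp_pos _
    have h8 : 0 < Real.exp η := Real.exp_pos _
    constructor
    · linarith
    · nlinarith [sq_nonneg (Real.exp η - Real.exp (-η)), sq_nonneg (Real.exp η + Real.exp (-η) - 2)]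
  have h1 := key x hx
  have h2 := key y hy
  have e1 : (N x)⁻¹ • x - (N y)⁻¹ • y = ((N x)⁻¹ • x - x) - ((N y)⁻¹ • y - y) + (x - y) := by abel
  have e2 : x - y = ((N y)⁻¹ • y - y) - ((N x)⁻¹ • x - x) + ((N x)⁻¹ • x - (N y)⁻¹ • y) := by abel
  have i1 : N ((N x)⁻¹ • x - (N y)⁻¹ • y) ≤
      N ((N x)⁻¹ • x - x) + N ((N y)⁻¹ • y - y) + N (x - y) := by
    calc N ((N x)⁻¹ • x - (N y)⁻¹ • y)
        = N (((N x)⁻¹ • x - x) - ((N y)⁻¹ • y - y) + (x - y)) := by rw [← e1]
      _ ≤ N (((N x)⁻¹ • x - x) - ((N y)⁻¹ • y - y)) + N (x - y) := h.add_le _ _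
      _ ≤ _ := by linarith [h.sub_le ((N x)⁻¹ • x - x) ((N y)⁻¹ • y - y)]
  have i2 : N (x - y) ≤
      N ((N y)⁻¹ • y - y) + N ((N x)⁻¹ • x - x) + N ((N x)⁻¹ • x - (N y)⁻¹ • y) := by
    calc N (x - y)
        = N (((N y)⁻¹ • y - y) - ((N x)⁻¹ • x - x) + ((N x)⁻¹ • x - (N y)⁻¹ • y)) := by rw [← e2]
      _ ≤ N (((N y)⁻¹ • y - y) - ((N x)⁻¹ • x - x)) + N ((N x)⁻¹ • x - (N y)⁻¹ • y) :=
        h.add_le _ _
      _ ≤ _ := by linarith [h.sub_le ((N y)⁻¹ • y - y) ((N x)⁻¹ • x - x)]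
  rw [Real.norm_eq_abs, abs_le]
  constructor <;> linarith

/-- Let `S = {x : e^{-η} < N x ≤ e^η}`. The integral of `N (x - y)` over `S × S` is
`Psi (e^η) (e^η) - 2 Psi (e^η) (e^{-η}) + Psi (e^{-η}) (e^{-η})`. The integral of
`F (x, y) = N (x / N x - y / N y)` over `S × S` is `(e^{dη} - e^{-dη})²` times the integral over
`{N ≤ 1}²` (homogeneity in `x` and in `y`: `∫_{N ≤ r} f = r^d ∫_{N ≤ 1} f` for `f` with `f (c x) = f x`
for all `c > 0`). On `S × S` the two functions differ by at most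
`|N x - 1| + |N y - 1| ≤ 2 (e^η - 1)`, and the volume of `S × S` is `(e^{dη} - e^{-dη})² vol²`. -/
theorem sprawl_approx (h : IsN N) (hd : d ≠ 0) {η : ℝ} (hη : 0 < η) :
    |(2 * Real.sinh (d * η)) ^ 2 * sprawl N -
      (2 * Real.cosh ((2 * d + 1) * η) * Psi N 1 1 - 2 * Psi N (Real.exp η) (Real.exp (-η))) /
        vol N ^ 2| ≤ (2 * Real.sinh (d * η)) ^ 2 * (2 * (Real.exp η - 1)) := by
  have ha : 0 < Real.exp η := Real.exp_pos _
  have hb : 0 < Real.exp (-η) := Real.exp_pos _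
  have hab : Real.exp (-η) ≤ Real.exp η := Real.exp_le_exp.mpr (by linarith)
  have hvp := h.vol_pos
  have hD : Real.exp η ^ d - Real.exp (-η) ^ d = 2 * Real.sinh (d * η) := by
    rw [Real.sinh_eq, ← Real.exp_nat_mul, ← Real.exp_nat_mul]
    ring_nf
  set S : Set (E d) := {x : E d | N x ≤ Real.exp η} \ {x : E d | N x ≤ Real.exp (-η)} with hS
  have hSm : MeasurableSet S := (h.measurableSet_ball _).diff (h.measurableSet_ball _)
  -- the volume of the shell
  have hvol : (volume S).toReal = 2 * Real.sinh (d * η) * vol N := by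
    have hsub : {x : E d | N x ≤ Real.exp (-η)} ⊆ {x : E d | N x ≤ Real.exp η} :=
      fun x hx => le_trans hx hab
    rw [hS, measure_diff hsub (h.measurableSet_ball _).nullMeasurableSet
      (Shell_vol_lt h _).ne, h.volume_ball hd ha.le, h.volume_ball hd hb.le,
      ENNReal.toReal_sub_of_le, ENNReal.toReal_ofReal (by positivity),
      ENNReal.toReal_ofReal (by positivity), ← hD]
    · ring
    · apply ENNReal.ofReal_le_ofReal
      have := pow_le_pow_left₀ hb.le hab d
      nlinarith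
    · exact ENNReal.ofReal_ne_top
  have hSfin : volume S < ⊤ := (measure_mono diff_subset).trans_lt (Shell_vol_lt h _)
  -- the function `F`
  have hF2 : ∀ (s : ℝ) (x : E d), IntegrableOn
      (fun y => N ((N x)⁻¹ • x - (N y)⁻¹ • y)) {x : E d | N x ≤ s} := by
    intro s x
    refine Measure.integrableOn_of_bounded (M := 2) (Shell_vol_lt h s).ne ?_ ?_
    · exact ((Shell_meas_F h).comp (measurable_prodMk_left (x := x))).aestronglyMeasurable
    · exact Filter.Eventually.of_forall fun y => Shell_bound_F h x y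
  have hG2 : ∀ (s : ℝ) (x : E d), IntegrableOn
      (fun y => N (x - y)) {x : E d | N x ≤ s} := by
    intro s x
    exact (h.cont.comp (continuous_const.sub continuous_id)).continuousOn.integrableOn_compact
      (h.isCompact_ball s)
  have homF1 : ∀ (x : E d) (c : ℝ), 0 < c → ∀ y, N ((N x)⁻¹ • x - (N (c • y))⁻¹ • c • y) =
      N ((N x)⁻¹ • x - (N y)⁻¹ • y) := by
    intro x c hc y
    rw [h.smul_nonneg hc.le, smul_smul]
    congr 3
    by_cases hy : N y = 0
    · simp [hy]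
    · field_simp
  have homF2 : ∀ (y : E d) (c : ℝ), 0 < c → ∀ x, N ((N (c • x))⁻¹ • c • x - (N y)⁻¹ • y) =
      N ((N x)⁻¹ • x - (N y)⁻¹ • y) := by
    intro y c hc x
    rw [h.sub_comm, homF1 y c hc x, h.sub_comm]
  have hF : (∫ x in S, ∫ y in S, N ((N x)⁻¹ • x - (N y)⁻¹ • y)) =
      (2 * Real.sinh (d * η)) ^ 2 * (sprawl N * vol N ^ 2) := by
    have h1 := Shell_double h (f := fun p : E d × E d => N ((N p.1)⁻¹ • p.1 - (N p.2)⁻¹ • p.2))
      hab (Shell_int_F h) hF2
    have h2 : ∀ s : ℝ, 0 < s → ∀ x : E d,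
        ∫ y in {x : E d | N x ≤ s}, N ((N x)⁻¹ • x - (N y)⁻¹ • y) =
        s ^ d * ∫ y in {x : E d | N x ≤ 1}, N ((N x)⁻¹ • x - (N y)⁻¹ • y) :=
      fun s hs x => Shell_hom h hs (homF1 x)
    have h3 : ∀ r s : ℝ, 0 < r → 0 < s →
        (∫ x in {x : E d | N x ≤ r}, ∫ y in {x : E d | N x ≤ s}, N ((N x)⁻¹ • x - (N y)⁻¹ • y)) =
        r ^ d * s ^ d * ∫ x in {x : E d | N x ≤ 1}, ∫ y in {x : E d | N x ≤ 1},
          N ((N x)⁻¹ • x - (N y)⁻¹ • y) := by
      intro r s hr hs
      simp only [h2 s hs]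
      rw [integral_const_mul, Shell_hom h hr
        (f := fun x => ∫ y in {x : E d | N x ≤ 1}, N ((N x)⁻¹ • x - (N y)⁻¹ • y))]
      · ring
      · intro c hc x
        refine integral_congr_ae (Filter.Eventually.of_forall fun y => ?_)
        exact homF2 y c hc x
    simp only at h1
    rw [hS, h1, h3 _ _ ha ha, h3 _ _ hb ha, h3 _ _ ha hb, h3 _ _ hb hb, sprawl,
      div_mul_cancel₀ _ (by positivity), ← hD]
    ring
  have hG : (∫ x in S, ∫ y in S, N (x - y)) =
      2 * Real.cosh ((2 * d + 1) * η) * Psi N 1 1 - 2 * Psi N (Real.exp η) (Real.exp (-η)) := by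
    have h1 := Shell_double h (f := fun p : E d × E d => N (p.1 - p.2)) hab (Shell_int_G h) hG2
    simp only at h1
    have h2 : ∀ r s : ℝ, (∫ x in {x : E d | N x ≤ r}, ∫ y in {x : E d | N x ≤ s}, N (x - y)) =
      Psi N r s := fun r s => rfl
    rw [hS, h1, h2, h2, h2, h2, Psi_scale h hd ha, Psi_scale h hd hb, Psi_comm h hd hb ha,
      Real.cosh_eq, ← Real.exp_nat_mul, ← Real.exp_nat_mul]
    push_cast
    ring_nf
  have hFG : |(∫ x in S, ∫ y in S, N ((N x)⁻¹ • x - (N y)⁻¹ • y)) -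
      ∫ x in S, ∫ y in S, N (x - y)| ≤
      2 * (Real.exp η - 1) * (2 * Real.sinh (d * η) * vol N) ^ 2 := by
    have iF : Integrable (fun p : E d × E d => N ((N p.1)⁻¹ • p.1 - (N p.2)⁻¹ • p.2))
        ((volume.restrict S).prod (volume.restrict S)) := by
      have := Shell_int_F h (Real.exp η) (Real.exp η)
      rw [Measure.prod_restrict] at this ⊢
      exact this.mono_measure (Measure.restrict_mono (prod_mono diff_subset diff_subset) le_rfl)
    have iG : Integrable (fun p : E d × E d => N (p.1 - p.2))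
        ((volume.restrict S).prod (volume.restrict S)) := by
      have := Shell_int_G h (Real.exp η) (Real.exp η)
      rw [Measure.prod_restrict] at this ⊢
      exact this.mono_measure (Measure.restrict_mono (prod_mono diff_subset diff_subset) le_rfl)
    rw [← integral_prod _ iF, ← integral_prod _ iG, ← integral_sub iF iG, Measure.prod_restrict]
    have h1 := norm_setIntegral_le_of_norm_le_const
      (μ := (volume : Measure (E d)).prod (volume : Measure (E d))) (s := S ×ˢ S)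
      (f := fun p : E d × E d => N ((N p.1)⁻¹ • p.1 - (N p.2)⁻¹ • p.2) - N (p.1 - p.2))
      (C := 2 * (Real.exp η - 1))
      (by rw [Measure.prod_prod]; exact ENNReal.mul_lt_top hSfin hSfin)
      (fun p hp => Shell_close h hp.1 hp.2)
    rw [Real.norm_eq_abs] at h1
    refine h1.trans (le_of_eq ?_)
    rw [Measure.real, Measure.prod_prod, ENNReal.toReal_mul, hvol]
    ring
  rw [hF, hG] at hFG
  have hv2 : 0 < vol N ^ 2 := by positivity
  rw [← mul_le_mul_iff_left₀ hv2]
  calc _ = |((2 * Real.sinh (d * η)) ^ 2 * sprawl N -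
      (2 * Real.cosh ((2 * d + 1) * η) * Psi N 1 1 - 2 * Psi N (Real.exp η) (Real.exp (-η))) /
        vol N ^ 2) * vol N ^ 2| := by rw [abs_mul, abs_of_pos hv2]
    _ = |(2 * Real.sinh (d * η)) ^ 2 * (sprawl N * vol N ^ 2) -
      (2 * Real.cosh ((2 * d + 1) * η) * Psi N 1 1 -
        2 * Psi N (Real.exp η) (Real.exp (-η)))| := by
      congr 1
      field_simp
    _ ≤ 2 * (Real.exp η - 1) * (2 * Real.sinh (d * η) * vol N) ^ 2 := hFG
    _ = _ := by ring

end Pool.Agent.LibSP74
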