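import Pool.Agent.LibSP74.Move
import Pool.Agent.LibSP74.Cube
import Pool.Agent.LibSP74.Shell
import Pool.Agent.LibSP74.AnD
import Pool.Agent.LibSP74.Pos
import Pool.Agent.LibSP74.Gauge

/-! The upper bound. -/

set_option autoImplicit false

open MeasureTheory Set Filter
open scoped Topology

namespace Pool.Agent.LibSP74

variable {d : ℕ} {N : E d → ℝ}

/-- The difference of the normalised volume functions. -/
noncomputable def DD (N : E d → ℝ) (u : ℝ) : ℝ := V N 1 1 u / vol N ^ 2 - vc d u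

theorem measurable_vc (d : ℕ) : Continuous (vc d) := by
  unfold vc
  fun_prop

theorem DD_nonneg (h : IsN N) (hd : d ≠ 0) {u : ℝ} (hu : u ∈ Ioo (0 : ℝ) 2) : 0 ≤ DD N u := by
  have hv := h.vol_pos
  have := V_ge h hd hu.1.le hu.2.le
  unfold DD
  rw [sub_nonneg, le_div_iff₀ (by positivity)]
  exact this

theorem vc_nonneg (d : ℕ) {u : ℝ} (h0 : 0 ≤ u) (h1 : u ≤ 4) : 0 ≤ vc d u := by
  unfold vc
  have : 0 ≤ u * (4 - u) := mul_nonneg h0 (by linarith)
  positivity

theorem DD_le (h : IsN N) (hd : d ≠ 0) {u : ℝ} (hu : u ∈ Ioo (0 : ℝ) 2) : DD N u ≤ u ^ d := by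
  have hv := h.vol_pos
  have h1 := V_le' h hd (r := 1) (s := 1) (t := u) zero_le_one hu.1.le
  have h2 := vc_nonneg d hu.1.le (by linarith [hu.2])
  rw [one_pow, one_mul] at h1
  unfold DD
  have h3 : V N 1 1 u / vol N ^ 2 ≤ u ^ d := by
    rw [div_le_iff₀ (by positivity)]
    exact h1
  linarith

theorem DD_move (h : IsN N) {t : ℝ} (ht : t ∈ Ioo (0 : ℝ) 1) :
    DD N t ≤ (t * (3 - t) ^ 2 / (4 * (2 - t))) ^ d * DD N ((4 - 2 * t) / (3 - t)) := by
  have hv := h.vol_pos
  obtain ⟨h0, h1⟩ := ht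
  have h2 := move_one h h0 h1
  have h3 : vc d t = (t * (3 - t) ^ 2 / (4 * (2 - t))) ^ d * vc d ((4 - 2 * t) / (3 - t)) := by
    unfold vc
    rw [← mul_pow]
    congr 1
    have e1 : (3 - t) ≠ 0 := by linarith
    have e2 : (2 - t) ≠ 0 := by linarith
    field_simp
    ring
  unfold DD
  rw [mul_sub, ← h3, mul_div_assoc']
  exact sub_le_sub_right (div_le_div_of_nonneg_right h2 (by positivity)) _

theorem measurable_DD (h : IsN N) : Measurable (DD N) :=
  ((V_mono h 1 1).measurable.div_const _).sub (measurable_vc d).measurable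

theorem DD_cont (h : IsN N) : ∀ᵐ u : ℝ, ContinuousAt (DD N) u := by
  have hc := (V_mono h 1 1).countable_not_continuousAt
  have h0 : ∀ᵐ u : ℝ, ContinuousAt (V N 1 1) u := by
    rw [ae_iff]
    exact hc.measure_zero _
  filter_upwards [h0] with u hu
  exact (hu.div_const _).sub (measurable_vc d).continuousAt

theorem integrable_V (h : IsN N) (r s a b : ℝ) : IntegrableOn (V N r s) (Ioo a b) := by
  have : IntervalIntegrable (V N r s) volume a b := (V_mono h r s).intervalIntegrable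
  rcases le_total a b with hab | hab
  · exact ((intervalIntegrable_iff_integrableOn_Ioc_of_le hab).1 this).mono_set Ioo_subset_Ioc_self
  · rw [Ioo_eq_empty (not_lt.2 hab)]
    exact integrableOn_empty

/-- The difference of the second terms. -/
theorem diff_eta (h : IsN N) (hd : d ≠ 0) {η : ℝ} (hη : 0 < η) {t : ℝ} (h0 : 0 < t)
    (ht : t < 2 * Real.cosh η) :
    (t ≤ 2 * Real.sinh η → V N (Real.exp η) (Real.exp (-η)) t / vol N ^ 2 -
      V (mx : E d → ℝ) (Real.exp η) (Real.exp (-η)) t / vol (mx : E d → ℝ) ^ 2 = 0) ∧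
    (2 * Real.sinh η < t → V N (Real.exp η) (Real.exp (-η)) t / vol N ^ 2 -
      V (mx : E d → ℝ) (Real.exp η) (Real.exp (-η)) t / vol (mx : E d → ℝ) ^ 2 ≤
        ph η t ^ d * DD N (hh η t)) := by
  have hC := isN_mx d
  have hvN := h.vol_pos
  have hvC := hC.vol_pos
  have e1 : Real.exp η = Real.cosh η + Real.sinh η := by rw [Real.cosh_add_sinh]
  have e2 : Real.exp (-η) = Real.cosh η - Real.sinh η := by rw [Real.cosh_sub_sinh]
  constructor
  · intro hts
    have h1 : Real.exp (-η) + t ≤ Real.exp η := by rw [e1, e2]; linarith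
    rw [V_small h hd (Real.exp_pos _).le h0.le h1, V_small hC hd (Real.exp_pos _).le h0.le h1,
      mul_div_assoc, mul_div_assoc, div_self (by positivity), div_self (by positivity), sub_self]
  · intro hts
    have h1 := move_eta h hη hts
    have h2 : V (mx : E d → ℝ) (Real.exp η) (Real.exp (-η)) t / vol (mx : E d → ℝ) ^ 2 =
        ph η t ^ d * vc d (hh η t) := by
      have hs : 0 < Real.sinh η := Real.sinh_pos_iff.2 hη
      rw [V_mx d (by rw [e1, e2, show Real.cosh η + Real.sinh η - (Real.cosh η - Real.sinh η) =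
          2 * Real.sinh η by ring, abs_of_pos (by linarith)]; exact hts.le)
        (by rw [e1, e2]; linarith), vol_mx]
      unfold vc
      rw [← mul_pow, mul_div_assoc', ph_mul hη hts, ← pow_mul, mul_comm d 2, pow_mul, ← div_pow]
      congr 1
      rw [e1, e2]
      have := Real.cosh_sq η
      nlinarith
    rw [h2]
    unfold DD
    rw [mul_sub, mul_div_assoc']
    exact sub_le_sub_right (div_le_div_of_nonneg_right h1 (by positivity)) _

theorem key (h : IsN N) (hd3 : 2 ≤ d) {η : ℝ} (hη : 0 < η) :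
    2 * (∫ t in Ioo (2 * Real.sinh η) (2 * Real.cosh η), DD N (hh η t) * FF d η t) -
      (2 * Real.sinh (d * η)) ^ 2 * (4 * (Real.exp η - 1)) ≤
    (2 * Real.sinh (d * η)) ^ 2 * (sprawl (mx : E d → ℝ) - sprawl N) := by
  have hd0 : d ≠ 0 := by omega
  have hC := isN_mx d
  have hvN := h.vol_pos
  have hvC := hC.vol_pos
  have hs : 0 < Real.sinh η := Real.sinh_pos_iff.2 hη
  have hsum : Real.exp η + Real.exp (-η) = 2 * Real.cosh η := by
    rw [Real.cosh_eq]; ring
  have hprod : Real.exp η ^ d * Real.exp (-η) ^ d = 1 := by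
    rw [← mul_pow, ← Real.exp_add, add_neg_cancel, Real.exp_zero, one_pow]
  -- the formulas for `Psi`
  have P1 : ∀ (M : E d → ℝ), IsN M → Psi M 1 1 / vol M ^ 2 =
      2 - ∫ t in Ioo (0 : ℝ) 2, V M 1 1 t / vol M ^ 2 := by
    intro M hM
    have hv := hM.vol_pos
    rw [Psi_eq hM hd0 one_pos one_pos, integral_div]
    norm_num
    field_simp
  have P2 : ∀ (M : E d → ℝ), IsN M → Psi M (Real.exp η) (Real.exp (-η)) / vol M ^ 2 =
      2 * Real.cosh η - ∫ t in Ioo (0 : ℝ) (2 * Real.cosh η),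
        V M (Real.exp η) (Real.exp (-η)) t / vol M ^ 2 := by
    intro M hM
    have hv := hM.vol_pos
    rw [Psi_eq hM hd0 (Real.exp_pos _) (Real.exp_pos _), integral_div, hsum, hprod, one_mul,
      sub_div, mul_div_assoc, div_self (by positivity), mul_one]
  -- the difference of the first terms
  have vceq : ∀ t ∈ Ioo (0 : ℝ) 2, V (mx : E d → ℝ) 1 1 t / vol (mx : E d → ℝ) ^ 2 = vc d t := by
    intro t ht
    rw [V_mx d (by simpa using ht.1.le) (by linarith [ht.2]), vol_mx]
    unfold vc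
    rw [← pow_mul, mul_comm d 2, pow_mul, ← div_pow]
    congr 1
    ring
  have hcvc : IntegrableOn (vc d) (Ioo 0 2) :=
    ((measurable_vc d).continuousOn.integrableOn_Icc).mono_set Ioo_subset_Icc_self
  have A1 : Psi (mx : E d → ℝ) 1 1 / vol (mx : E d → ℝ) ^ 2 - Psi N 1 1 / vol N ^ 2 =
      ∫ t in Ioo (0 : ℝ) 2, DD N t := by
    rw [P1 _ hC, P1 N h, setIntegral_congr_fun measurableSet_Ioo vceq]
    unfold DD
    rw [integral_sub ((integrable_V h 1 1 0 2).div_const _) hcvc]
    ring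
  -- the difference of the second terms
  have A2 : Psi (mx : E d → ℝ) (Real.exp η) (Real.exp (-η)) / vol (mx : E d → ℝ) ^ 2 -
      Psi N (Real.exp η) (Real.exp (-η)) / vol N ^ 2 =
      ∫ t in Ioo (0 : ℝ) (2 * Real.cosh η), (V N (Real.exp η) (Real.exp (-η)) t / vol N ^ 2 -
        V (mx : E d → ℝ) (Real.exp η) (Real.exp (-η)) t / vol (mx : E d → ℝ) ^ 2) := by
    rw [P2 _ hC, P2 N h, integral_sub ((integrable_V h _ _ _ _).div_const _)
      ((integrable_V hC _ _ _ _).div_const _)]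
    ring
  have hsub : Ioo (2 * Real.sinh η) (2 * Real.cosh η) ⊆ Ioo 0 (2 * Real.cosh η) :=
    Ioo_subset_Ioo_left (by linarith)
  have A3 : ∫ t in Ioo (0 : ℝ) (2 * Real.cosh η), (V N (Real.exp η) (Real.exp (-η)) t / vol N ^ 2 -
        V (mx : E d → ℝ) (Real.exp η) (Real.exp (-η)) t / vol (mx : E d → ℝ) ^ 2) =
      ∫ t in Ioo (2 * Real.sinh η) (2 * Real.cosh η),
        (V N (Real.exp η) (Real.exp (-η)) t / vol N ^ 2 -
        V (mx : E d → ℝ) (Real.exp η) (Real.exp (-η)) t / vol (mx : E d → ℝ) ^ 2) := by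
    refine setIntegral_eq_of_subset_of_forall_diff_eq_zero measurableSet_Ioo hsub ?_
    rintro t ⟨ht, ht'⟩
    exact (diff_eta h hd0 hη ht.1 ht.2).1 (by
      by_contra hcon
      exact ht' ⟨not_le.1 hcon, ht.2⟩)
  -- integrability
  have hmD := measurable_DD h
  have hmh : Measurable (hh η) := by unfold hh; fun_prop
  have hmp : Measurable (ph η) := by unfold ph; fun_prop
  have himg : ∀ t ∈ Ioo (2 * Real.sinh η) (2 * Real.cosh η), hh η t ∈ Ioo (0 : ℝ) 2 := by
    intro t ht
    rw [← image_hh hη]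
    exact ⟨t, ht, rfl⟩
  have hint1 : IntegrableOn (fun t => ph η t ^ d * DD N (hh η t))
      (Ioo (2 * Real.sinh η) (2 * Real.cosh η)) := by
    refine Measure.integrableOn_of_bounded (M := (2 * Real.cosh η * Real.cosh η) ^ d)
      measure_Ioo_lt_top.ne ?_ ?_
    · exact ((hmp.pow_const d).mul (hmD.comp hmh)).aestronglyMeasurable
    · filter_upwards [ae_restrict_mem measurableSet_Ioo] with t ht
      have hu := himg t ht
      have hden := den_pos hη ht.1
      have hph : 0 ≤ ph η t := by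
        unfold ph
        have : 0 < t ^ 2 - 4 * Real.sinh η ^ 2 := by nlinarith [ht.1]
        positivity
      rw [Real.norm_eq_abs, abs_of_nonneg (mul_nonneg (by positivity) (DD_nonneg h hd0 hu))]
      calc ph η t ^ d * DD N (hh η t) ≤ ph η t ^ d * hh η t ^ d :=
            mul_le_mul_of_nonneg_left (DD_le h hd0 hu) (by positivity)
        _ = (t * Real.cosh η - 2 * Real.sinh η ^ 2) ^ d := by rw [← mul_pow, ph_mul_hh hη ht.1]
        _ ≤ (2 * Real.cosh η * Real.cosh η) ^ d := by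
            refine pow_le_pow_left₀ hden.le ?_ d
            have := Real.cosh_pos η
            nlinarith [ht.2, sq_nonneg (Real.sinh η)]
  have hint2 : IntegrableOn (fun t => DD N (hh η t) * hd η t)
      (Ioo (2 * Real.sinh η) (2 * Real.cosh η)) := by
    have hcont : ContinuousOn (hd η) (Icc (2 * Real.sinh η) (2 * Real.cosh η)) := by
      unfold hd
      refine ContinuousOn.div (by fun_prop) (by fun_prop) ?_
      intro t ht
      have h1 := Real.sinh_lt_cosh η
      have : 0 < t * Real.cosh η - 2 * Real.sinh η ^ 2 := by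
        have h2 := Real.cosh_pos η
        nlinarith [ht.1, mul_pos hs (sub_pos.2 h1)]
      positivity
    have h1 : IntegrableOn (hd η) (Ioo (2 * Real.sinh η) (2 * Real.cosh η)) :=
      hcont.integrableOn_Icc.mono_set Ioo_subset_Icc_self
    refine Integrable.bdd_mul (c := 2 ^ d) h1 (hmD.comp hmh).aestronglyMeasurable ?_
    filter_upwards [ae_restrict_mem measurableSet_Ioo] with t ht
    have hu := himg t ht
    rw [Real.norm_eq_abs, abs_of_nonneg (DD_nonneg h hd0 hu)]
    exact (DD_le h hd0 hu).trans (pow_le_pow_left₀ hu.1.le hu.2.le d)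
  -- the inequality for the second terms
  have A4 : ∫ t in Ioo (2 * Real.sinh η) (2 * Real.cosh η),
        (V N (Real.exp η) (Real.exp (-η)) t / vol N ^ 2 -
        V (mx : E d → ℝ) (Real.exp η) (Real.exp (-η)) t / vol (mx : E d → ℝ) ^ 2) ≤
      ∫ t in Ioo (2 * Real.sinh η) (2 * Real.cosh η), ph η t ^ d * DD N (hh η t) := by
    refine setIntegral_mono_on (((integrable_V h _ _ _ _).div_const _).sub
      ((integrable_V hC _ _ _ _).div_const _)) hint1 measurableSet_Ioo ?_
    intro t ht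
    exact (diff_eta h hd0 hη (lt_trans (by linarith) ht.1) ht.2).2 ht.1
  have A5 : ∫ t in Ioo (2 * Real.sinh η) (2 * Real.cosh η), DD N (hh η t) * FF d η t =
      Real.cosh ((2 * d + 1) * η) * (∫ t in Ioo (0 : ℝ) 2, DD N t) -
        ∫ t in Ioo (2 * Real.sinh η) (2 * Real.cosh η), ph η t ^ d * DD N (hh η t) := by
    rw [subst_hh hη, ← integral_const_mul, ← integral_sub (hint2.const_mul _) hint1]
    refine integral_congr_ae (Eventually.of_forall fun t => ?_)
    simp only [FF]
    ring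
  have B1 := sprawl_approx h hd0 hη
  have B2 := sprawl_approx hC hd0 hη
  rw [abs_le] at B1 B2
  rw [sub_div, mul_div_assoc, mul_div_assoc] at B1 B2
  rw [A3] at A2
  set c := Real.cosh ((2 * d + 1) * η) with hcdef
  have key2 : 2 * c * (Psi (mx : E d → ℝ) 1 1 / vol (mx : E d → ℝ) ^ 2 - Psi N 1 1 / vol N ^ 2) -
      2 * (Psi (mx : E d → ℝ) (Real.exp η) (Real.exp (-η)) / vol (mx : E d → ℝ) ^ 2 -
        Psi N (Real.exp η) (Real.exp (-η)) / vol N ^ 2) ≥
      2 * ∫ t in Ioo (2 * Real.sinh η) (2 * Real.cosh η), DD N (hh η t) * FF d η t := by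
    rw [A1, A2, A5]
    linarith
  nlinarith [B1.1, B1.2, B2.1, B2.2, key2]

theorem sprawl_le (h : IsN N) (hd3 : 3 ≤ d) : sprawl N ≤ sprawl (mx : E d → ℝ) := by
  have hd0 : d ≠ 0 := by omega
  have L1 := tendsto_main (d := d) (by omega) (measurable_DD h) (fun u hu => DD_nonneg h hd0 hu)
    (fun u hu => DD_le h hd0 hu) (DD_cont h)
  have L2 : 0 ≤ ∫ u in Ioo 0 2, DD N u * om d u :=
    integral_nonneg_main hd3 (measurable_DD h) (fun u hu => DD_nonneg h hd0 hu)
      (fun u hu => DD_le h hd0 hu) (fun t ht => DD_move h ht)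
  -- the limit of `sinh (d η)² / η²`
  have hsinh : Tendsto (fun η : ℝ => Real.sinh (d * η) / η) (𝓝[>] 0) (𝓝 d) := by
    have hder : HasDerivAt (fun η : ℝ => Real.sinh (d * η)) (Real.cosh (d * 0) * d) 0 := by
      have h1 : HasDerivAt (fun η : ℝ => (d : ℝ) * η) (d : ℝ) 0 := by
        simpa using (hasDerivAt_id (0 : ℝ)).const_mul (d : ℝ)
      simpa using h1.sinh
    rw [mul_zero, Real.cosh_zero, one_mul] at hder
    have := hder.tendsto_slope_zero_right
    simpa [smul_eq_mul, div_eq_inv_mul] using this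
  have hexp : Tendsto (fun η : ℝ => Real.exp η - 1) (𝓝[>] 0) (𝓝 0) := by
    have : Tendsto (fun η : ℝ => Real.exp η - 1) (𝓝 0) (𝓝 (Real.exp 0 - 1)) :=
      (Real.continuous_exp.sub continuous_const).tendsto 0
    rw [Real.exp_zero, sub_self] at this
    exact this.mono_left nhdsWithin_le_nhds
  have hle : 2 * (2 * ∫ u in Ioo 0 2, DD N u * om d u) - (2 * (d : ℝ)) ^ 2 * (4 * 0) ≤
      (2 * (d : ℝ)) ^ 2 * (sprawl (mx : E d → ℝ) - sprawl N) := by
    refine le_of_tendsto_of_tendsto (b := 𝓝[>] (0 : ℝ)) ((L1.const_mul 2).sub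
      (((hsinh.const_mul 2).pow 2).mul (hexp.const_mul 4)))
      (((hsinh.const_mul 2).pow 2).mul_const _) ?_
    filter_upwards [self_mem_nhdsWithin] with η hη
    have hη' : (0 : ℝ) < η := hη
    have hk := key h (by omega : 2 ≤ d) hη'
    have e1 : (2 * (Real.sinh (d * η) / η)) ^ 2 = (2 * Real.sinh (d * η)) ^ 2 / η ^ 2 := by
      field_simp
    rw [e1]
    have h2 : 0 < η ^ 2 := by positivity
    calc 2 * ((∫ t in Ioo (2 * Real.sinh η) (2 * Real.cosh η), DD N (hh η t) * FF d η t) / η ^ 2) -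
          (2 * Real.sinh (d * η)) ^ 2 / η ^ 2 * (4 * (Real.exp η - 1))
        = (2 * (∫ t in Ioo (2 * Real.sinh η) (2 * Real.cosh η), DD N (hh η t) * FF d η t) -
          (2 * Real.sinh (d * η)) ^ 2 * (4 * (Real.exp η - 1))) / η ^ 2 := by ring
      _ ≤ ((2 * Real.sinh (d * η)) ^ 2 * (sprawl (mx : E d → ℝ) - sprawl N)) / η ^ 2 :=
          div_le_div_of_nonneg_right hk h2.le
      _ = (2 * Real.sinh (d * η)) ^ 2 / η ^ 2 * (sprawl (mx : E d → ℝ) - sprawl N) := by ring
  have hdpos : (0 : ℝ) < (2 * (d : ℝ)) ^ 2 := by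
    have : (0 : ℝ) < d := by exact_mod_cast Nat.pos_of_ne_zero hd0
    positivity
  have : 0 ≤ (2 * (d : ℝ)) ^ 2 * (sprawl (mx : E d → ℝ) - sprawl N) := by linarith
  have := nonneg_of_mul_nonneg_right this hdpos
  linarith

end Pool.Agent.LibSP74
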