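import Pool.Agent.LibSP74.Defs

/-! Task AnA: the substitution. -/

set_option autoImplicit false

open MeasureTheory Set

namespace Pool.Agent.LibSP74

variable {η : ℝ}

theorem AnA_ch_sub_sh : 0 < Real.cosh η - Real.sinh η := by
  rw [Real.cosh_sub_sinh]; exact Real.exp_pos _

theorem AnA_den_pos (hη : 0 < η) {t : ℝ} (ht : 2 * Real.sinh η ≤ t) :
    0 < t * Real.cosh η - 2 * Real.sinh η ^ 2 := by
  have h1 : 0 < Real.sinh η := Real.sinh_pos_iff.2 hη
  have h2 : 0 < Real.cosh η - Real.sinh η := AnA_ch_sub_sh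
  have h3 : 0 < Real.cosh η := Real.cosh_pos η
  have h4 : 0 < Real.sinh η * (Real.cosh η - Real.sinh η) := mul_pos h1 h2
  nlinarith [mul_le_mul_of_nonneg_right ht h3.le]

/-- `t cosh η - 2 sinh² η > 2 sinh η (cosh η - sinh η) > 0`. -/
theorem den_pos (hη : 0 < η) {t : ℝ} (ht : 2 * Real.sinh η < t) :
    0 < t * Real.cosh η - 2 * Real.sinh η ^ 2 :=
  AnA_den_pos hη ht.le

theorem AnA_hasDerivAt (hη : 0 < η) {t : ℝ} (ht : 2 * Real.sinh η ≤ t) :
    HasDerivAt (hh η) (hd η t) t := by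
  have h0 := (AnA_den_pos hη ht).ne'
  have h1 : HasDerivAt (fun t : ℝ => t ^ 2 - 4 * Real.sinh η ^ 2) (2 * t) t := by
    simpa using ((hasDerivAt_id t).fun_pow 2).sub_const (4 * Real.sinh η ^ 2)
  have h2 : HasDerivAt (fun t : ℝ => t * Real.cosh η - 2 * Real.sinh η ^ 2) (Real.cosh η) t := by
    simpa using ((hasDerivAt_id t).mul_const (Real.cosh η)).sub_const (2 * Real.sinh η ^ 2)
  have h3 := h1.fun_div h2 h0
  have h4 : (2 * t * (t * Real.cosh η - 2 * Real.sinh η ^ 2) -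
      (t ^ 2 - 4 * Real.sinh η ^ 2) * Real.cosh η) /
      (t * Real.cosh η - 2 * Real.sinh η ^ 2) ^ 2 = hd η t := by
    unfold hd
    congr 1
    ring
  rw [h4] at h3
  exact h3

theorem hasDerivAt_hh (hη : 0 < η) {t : ℝ} (ht : 2 * Real.sinh η < t) :
    HasDerivAt (hh η) (hd η t) t := AnA_hasDerivAt hη ht.le

/-- The numerator `t² ch - 4 t sh² + 4 sh² ch` has the discriminant `16 sh² (sh² - ch²) < 0`. -/
theorem hd_pos (hη : 0 < η) {t : ℝ} (ht : 2 * Real.sinh η < t) : 0 < hd η t := by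
  have h1 : 0 < Real.sinh η := Real.sinh_pos_iff.2 hη
  have h3 : 0 < Real.cosh η := Real.cosh_pos η
  have h4 := Real.cosh_sq η
  unfold hd
  refine div_pos ?_ (pow_pos (den_pos hη ht) 2)
  have h5 : (t ^ 2 * Real.cosh η - 4 * t * Real.sinh η ^ 2 + 4 * Real.sinh η ^ 2 * Real.cosh η) *
      Real.cosh η = (t * Real.cosh η - 2 * Real.sinh η ^ 2) ^ 2 + 4 * Real.sinh η ^ 2 := by
    have : (t ^ 2 * Real.cosh η - 4 * t * Real.sinh η ^ 2 + 4 * Real.sinh η ^ 2 * Real.cosh η) *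
      Real.cosh η = t ^ 2 * Real.cosh η ^ 2 - 4 * t * Real.sinh η ^ 2 * Real.cosh η +
        4 * Real.sinh η ^ 2 * Real.cosh η ^ 2 := by ring
    rw [this, h4]
    have e2 : (t * Real.cosh η - 2 * Real.sinh η ^ 2) ^ 2 =
      t ^ 2 * Real.cosh η ^ 2 - 4 * t * Real.sinh η ^ 2 * Real.cosh η + 4 * Real.sinh η ^ 4 := by
      ring
    rw [e2, h4]
    ring
  have h6 : 0 < (t ^ 2 * Real.cosh η - 4 * t * Real.sinh η ^ 2 +
      4 * Real.sinh η ^ 2 * Real.cosh η) * Real.cosh η := by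
    rw [h5]; positivity
  exact (pos_iff_pos_of_mul_pos h6).2 h3

theorem AnA_lt : 2 * Real.sinh η < 2 * Real.cosh η := by
  have h2 : 0 < Real.cosh η - Real.sinh η := AnA_ch_sub_sh
  linarith

theorem AnA_strictMonoOn (hη : 0 < η) :
    StrictMonoOn (hh η) (Icc (2 * Real.sinh η) (2 * Real.cosh η)) := by
  apply strictMonoOn_of_deriv_pos (convex_Icc _ _)
  · intro t ht
    exact (AnA_hasDerivAt hη ht.1).continuousAt.continuousWithinAt
  · intro t ht
    rw [interior_Icc] at ht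
    rw [(hasDerivAt_hh hη ht.1).deriv]
    exact hd_pos hη ht.1

theorem AnA_hh_left : hh η (2 * Real.sinh η) = 0 := by
  unfold hh
  have : (2 * Real.sinh η) ^ 2 - 4 * Real.sinh η ^ 2 = 0 := by ring
  rw [this, zero_div]

theorem AnA_hh_right : hh η (2 * Real.cosh η) = 2 := by
  unfold hh
  have h4 := Real.cosh_sq η
  have e1 : (2 * Real.cosh η) ^ 2 - 4 * Real.sinh η ^ 2 = 4 := by linear_combination 4 * h4
  have e2 : 2 * Real.cosh η * Real.cosh η - 2 * Real.sinh η ^ 2 = 2 := by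
    linear_combination 2 * h4
  rw [e1, e2]; norm_num

/-- `hh η` maps the interval bijectively and increasingly; the values at the ends are `0` and `2`.
(`strictMonoOn_of_deriv_pos`, intermediate value theorem.) -/
theorem image_hh (hη : 0 < η) :
    hh η '' Ioo (2 * Real.sinh η) (2 * Real.cosh η) = Ioo 0 2 := by
  have hm := AnA_strictMonoOn hη
  have hlt := AnA_lt (η := η)
  apply Subset.antisymm
  · rintro _ ⟨t, ht, rfl⟩
    constructor
    · rw [← AnA_hh_left (η := η)]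
      exact hm ⟨le_rfl, hlt.le⟩ ⟨ht.1.le, ht.2.le⟩ ht.1
    · rw [← AnA_hh_right (η := η)]
      exact hm ⟨ht.1.le, ht.2.le⟩ ⟨hlt.le, le_rfl⟩ ht.2
  · have hc : ContinuousOn (hh η) (Icc (2 * Real.sinh η) (2 * Real.cosh η)) := fun t ht =>
      (AnA_hasDerivAt hη ht.1).continuousAt.continuousWithinAt
    have := intermediate_value_Ioo hlt.le hc
    rwa [AnA_hh_left (η := η), AnA_hh_right (η := η)] at this

theorem injOn_hh (hη : 0 < η) : InjOn (hh η) (Ioo (2 * Real.sinh η) (2 * Real.cosh η)) :=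
  (AnA_strictMonoOn hη).injOn.mono Ioo_subset_Icc_self

/-- `integral_image_eq_integral_abs_deriv_smul`. -/
theorem subst_hh (hη : 0 < η) (D : ℝ → ℝ) :
    ∫ u in Ioo 0 2, D u = ∫ t in Ioo (2 * Real.sinh η) (2 * Real.cosh η), D (hh η t) * hd η t := by
  have h := integral_image_eq_integral_abs_deriv_smul (measurableSet_Ioo)
    (fun x hx => (hasDerivAt_hh hη (t := x) hx.1).hasDerivWithinAt) (injOn_hh hη) D
  rw [image_hh hη] at h
  rw [h]
  refine setIntegral_congr_fun measurableSet_Ioo ?_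
  intro t ht
  simp only [smul_eq_mul]
  rw [abs_of_pos (hd_pos hη ht.1), mul_comm]

theorem AnA_num_pos (hη : 0 < η) {t : ℝ} (ht : 2 * Real.sinh η < t) :
    0 < t ^ 2 - 4 * Real.sinh η ^ 2 := by
  have h1 : 0 < Real.sinh η := Real.sinh_pos_iff.2 hη
  nlinarith

/-- Algebra: `ph η t * (hh η t * (4 - hh η t)) = 4 - (2 cosh η - t)²`. -/
theorem ph_mul (hη : 0 < η) {t : ℝ} (ht : 2 * Real.sinh η < t) :
    ph η t * (hh η t * (4 - hh η t)) = 4 - (2 * Real.cosh η - t) ^ 2 := by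
  have hA := (AnA_num_pos hη ht).ne'
  have hB := (den_pos hη ht).ne'
  have h4 := Real.cosh_sq η
  unfold ph hh
  have e : 4 - (2 * Real.cosh η - t) ^ 2 =
      4 * (t * Real.cosh η - 2 * Real.sinh η ^ 2) - (t ^ 2 - 4 * Real.sinh η ^ 2) := by
    linear_combination (-4) * h4
  rw [e]
  generalize t ^ 2 - 4 * Real.sinh η ^ 2 = A at hA ⊢
  generalize t * Real.cosh η - 2 * Real.sinh η ^ 2 = B at hB ⊢
  field_simp

/-- Algebra: `ph η t * hh η t = t cosh η - 2 sinh² η`. -/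
theorem ph_mul_hh (hη : 0 < η) {t : ℝ} (ht : 2 * Real.sinh η < t) :
    ph η t * hh η t = t * Real.cosh η - 2 * Real.sinh η ^ 2 := by
  have hA := (AnA_num_pos hη ht).ne'
  have hB := (den_pos hη ht).ne'
  unfold ph hh
  generalize t ^ 2 - 4 * Real.sinh η ^ 2 = A at hA ⊢
  generalize t * Real.cosh η - 2 * Real.sinh η ^ 2 = B at hB ⊢
  field_simp

end Pool.Agent.LibSP74
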