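import Pool.Agent.LibSP74.AnA

/-! Task AnB: the bound of the integrand. -/

set_option autoImplicit false

open MeasureTheory Set

namespace Pool.Agent.LibSP74

theorem AnB_small {η : ℝ} (h0 : 0 < η) (h1 : η ≤ 1 / 4) :
    Real.sinh η ≤ 2 * η ∧ Real.cosh η - 1 ≤ η ^ 2 ∧ Real.cosh η ≤ 2 ∧
      1 / 2 ≤ Real.cosh η - Real.sinh η := by
  have a1 := Real.abs_exp_sub_one_sub_id_le (x := η) (by rw [abs_of_pos h0]; linarith)
  have a2 := Real.abs_exp_sub_one_sub_id_le (x := -η) (by rw [abs_neg, abs_of_pos h0]; linarith)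
  rw [abs_le] at a1 a2
  have a3 : η ^ 2 ≤ η / 4 := by nlinarith
  have a4 : (-η) ^ 2 = η ^ 2 := by ring
  rw [a4] at a2
  refine ⟨?_, ?_, ?_, ?_⟩
  · rw [Real.sinh_eq]; linarith [a1.2, a2.1]
  · rw [Real.cosh_eq]; linarith [a1.2, a2.2]
  · rw [Real.cosh_eq]; linarith [a1.2, a2.2]
  · rw [Real.cosh_sub_sinh]
    have := Real.add_one_le_exp (-η)
    linarith

theorem AnB_cosh {x M : ℝ} (hM : Real.exp (x ^ 2 / 2) ≤ M) :
    Real.cosh x ≤ M ∧ Real.cosh x - 1 ≤ x ^ 2 / 2 * M := by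
  have h1 := Real.cosh_le_exp_half_sq x
  refine ⟨h1.trans hM, ?_⟩
  have h2 : Real.exp (x ^ 2 / 2) - 1 ≤ x ^ 2 / 2 * Real.exp (x ^ 2 / 2) := by
    have h3 := Real.add_one_le_exp (-(x ^ 2 / 2))
    have h4 : Real.exp (-(x ^ 2 / 2)) * Real.exp (x ^ 2 / 2) = 1 := by
      rw [← Real.exp_add]; simp
    have h5 := mul_le_mul_of_nonneg_right h3 (Real.exp_pos (x ^ 2 / 2)).le
    rw [h4] at h5
    linarith
  have h6 : x ^ 2 / 2 * Real.exp (x ^ 2 / 2) ≤ x ^ 2 / 2 * M :=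
    mul_le_mul_of_nonneg_left hM (by positivity)
  linarith

/-- Basic bounds. -/
theorem AnB_basic {η : ℝ} (h0 : 0 < η) (h1 : η ≤ 1 / 4) {t : ℝ}
    (ht : t ∈ Ioo (2 * Real.sinh η) (2 * Real.cosh η)) :
    0 < t ∧ t ≤ 4 ∧ t / 2 ≤ t * Real.cosh η - 2 * Real.sinh η ^ 2 ∧
    t * Real.cosh η - 2 * Real.sinh η ^ 2 ≤ 2 * t ∧
    0 < t ^ 2 - 4 * Real.sinh η ^ 2 ∧ 0 ≤ hh η t ∧ hh η t ≤ 2 * t ∧ 0 ≤ hd η t ∧ hd η t ≤ 16 ∧
    0 ≤ ph η t ∧ hh η t * ph η t ≤ 2 * t := by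
  obtain ⟨b1, b2, b3, b4⟩ := AnB_small h0 h1
  have hs : 0 < Real.sinh η := Real.sinh_pos_iff.2 h0
  have ht0 : 0 < t := by linarith [ht.1]
  have hA := AnA_num_pos h0 ht.1
  have hB := den_pos h0 ht.1
  have hs2 : 2 * Real.sinh η ^ 2 ≤ t * Real.sinh η := by nlinarith [ht.1]
  have hB1 : t / 2 ≤ t * Real.cosh η - 2 * Real.sinh η ^ 2 := by nlinarith
  have hB2 : t * Real.cosh η - 2 * Real.sinh η ^ 2 ≤ 2 * t := by
    nlinarith [sq_nonneg (Real.sinh η)]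
  have hh0 : 0 ≤ hh η t := by unfold hh; exact div_nonneg hA.le hB.le
  have hph := ph_mul_hh h0 ht.1
  refine ⟨ht0, by linarith [ht.2], hB1, hB2, hA, hh0, ?_, (hd_pos h0 ht.1).le, ?_, ?_, ?_⟩
  · unfold hh
    rw [div_le_iff₀ hB]
    have c1 : 2 * t * (t / 2) ≤ 2 * t * (t * Real.cosh η - 2 * Real.sinh η ^ 2) :=
      mul_le_mul_of_nonneg_left hB1 (by positivity)
    nlinarith [sq_nonneg (Real.sinh η)]
  · unfold hd
    rw [div_le_iff₀ (by positivity)]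
    have c1 : (t / 2) ^ 2 ≤ (t * Real.cosh η - 2 * Real.sinh η ^ 2) ^ 2 :=
      pow_le_pow_left₀ (by positivity) hB1 2
    have c2 : 4 * Real.sinh η ^ 2 ≤ t ^ 2 := by linarith
    have c3 : 4 * Real.sinh η ^ 2 * Real.cosh η ≤ t ^ 2 * 2 :=
      mul_le_mul c2 b3 (Real.cosh_pos η).le (by positivity)
    have c4 : t ^ 2 * Real.cosh η ≤ t ^ 2 * 2 := mul_le_mul_of_nonneg_left b3 (by positivity)
    have c5 : 0 ≤ 4 * t * Real.sinh η ^ 2 := by positivity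
    nlinarith
  · unfold ph; positivity
  · rw [mul_comm, hph]; exact hB2

/-- Second case: the differences. -/
theorem AnB_diff {η : ℝ} (h0 : 0 < η) (h1 : η ≤ 1 / 4) {t : ℝ}
    (ht : t ∈ Ioo (2 * Real.sinh η) (2 * Real.cosh η)) (h4 : 4 * Real.sinh η ≤ t) :
    |hd η t - 1| ≤ 12 * η ^ 2 + 128 * η ^ 2 / t ^ 2 ∧ |ph η t - 1| ≤ 448 * η ^ 2 / t ^ 2 ∧
      ph η t ≤ 8 := by
  obtain ⟨b1, b2, b3, b4⟩ := AnB_small h0 h1
  obtain ⟨ht0, ht4, hB1, hB2, hA, hh0, hh1, hd0, hd1, ph0, ph1⟩ := AnB_basic h0 h1 ht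
  have hs : 0 < Real.sinh η := Real.sinh_pos_iff.2 h0
  have hc1 : 1 ≤ Real.cosh η := Real.one_le_cosh η
  set s := Real.sinh η with hsdef
  set c := Real.cosh η with hcdef
  have hs2 : s ^ 2 ≤ 4 * η ^ 2 := by nlinarith
  have hA2 : t ^ 2 / 2 ≤ t ^ 2 - 4 * s ^ 2 := by nlinarith
  have hB0 : 0 < t * c - 2 * s ^ 2 := by linarith
  have hBsq : t ^ 2 / 4 ≤ (t * c - 2 * s ^ 2) ^ 2 := by
    have := pow_le_pow_left₀ (by positivity : (0 : ℝ) ≤ t / 2) hB1 2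
    calc t ^ 2 / 4 = (t / 2) ^ 2 := by ring
      _ ≤ _ := this
  refine ⟨?_, ?_, ?_⟩
  · have h2 : hd η t - 1 = (-(t ^ 2 * c * (c - 1)) + 4 * t * s ^ 2 * (c - 1) +
        4 * s ^ 2 * (c - s ^ 2)) / (t * c - 2 * s ^ 2) ^ 2 := by
      unfold hd
      rw [← hsdef, ← hcdef, eq_div_iff (pow_ne_zero 2 hB0.ne'), sub_mul,
        div_mul_cancel₀ _ (pow_ne_zero 2 hB0.ne')]
      ring
    rw [h2, abs_div, abs_of_pos (pow_pos hB0 2), div_le_iff₀ (pow_pos hB0 2)]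
    have n1 : |-(t ^ 2 * c * (c - 1)) + 4 * t * s ^ 2 * (c - 1) + 4 * s ^ 2 * (c - s ^ 2)| ≤
        3 * t ^ 2 * η ^ 2 + 32 * η ^ 2 := by
      have m1 : 0 ≤ c - 1 := by linarith
      have m2 : t ^ 2 * c * (c - 1) ≤ t ^ 2 * 2 * η ^ 2 := by
        apply mul_le_mul _ b2 m1 (by positivity)
        exact mul_le_mul_of_nonneg_left b3 (by positivity)
      have m3 : 4 * t * s ^ 2 * (c - 1) ≤ t ^ 2 * η ^ 2 := by
        apply mul_le_mul _ b2 m1 (by positivity)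
        have k1 : s ≤ 1 / 2 := by linarith
        have k2 : 4 * s ^ 2 ≤ t := by nlinarith
        nlinarith
      have m4 : 4 * s ^ 2 * (c - s ^ 2) ≤ 32 * η ^ 2 := by
        have k1 : c - s ^ 2 ≤ 2 := by nlinarith [sq_nonneg s]
        have k2 : 4 * s ^ 2 * (c - s ^ 2) ≤ 4 * s ^ 2 * 2 :=
          mul_le_mul_of_nonneg_left k1 (by positivity)
        nlinarith
      have m5 : 0 ≤ c - s ^ 2 := by
        have k1 : s ≤ 1 / 2 := by linarith
        nlinarith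
      have p1 : 0 ≤ t ^ 2 * c * (c - 1) := by positivity
      have p2 : 0 ≤ 4 * t * s ^ 2 * (c - 1) := by positivity
      have p3 : 0 ≤ 4 * s ^ 2 * (c - s ^ 2) := by positivity
      have p4 : 0 ≤ t ^ 2 * η ^ 2 := by positivity
      have p5 : 0 ≤ η ^ 2 := by positivity
      rw [abs_le]
      constructor <;> linarith
    refine n1.trans ?_
    have n2 : (12 * η ^ 2 + 128 * η ^ 2 / t ^ 2) * (t ^ 2 / 4) = 3 * t ^ 2 * η ^ 2 + 32 * η ^ 2 := by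
      field_simp; ring
    rw [← n2]
    exact mul_le_mul_of_nonneg_left hBsq (by positivity)
  · have h2 : ph η t - 1 = s ^ 2 * (t ^ 2 - 4 * t * c + 4 * s ^ 2 + 4) / (t ^ 2 - 4 * s ^ 2) := by
      unfold ph
      rw [← hsdef, ← hcdef, eq_div_iff hA.ne', sub_mul, div_mul_cancel₀ _ hA.ne']
      have h4 := Real.cosh_sq η
      rw [← hsdef, ← hcdef] at h4
      linear_combination t ^ 2 * h4
    rw [h2, abs_div, abs_of_pos hA, div_le_iff₀ hA, abs_mul, abs_of_nonneg (sq_nonneg s)]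
    have n1 : |t ^ 2 - 4 * t * c + 4 * s ^ 2 + 4| ≤ 56 := by
      have k1 : s ≤ 1 / 2 := by linarith
      have k2 : t ^ 2 ≤ 16 := by nlinarith
      have k3 : 0 ≤ 4 * t * c := by positivity
      have k4 : 4 * t * c ≤ 4 * 4 * 2 := by
        apply mul_le_mul _ b3 (by linarith) (by norm_num)
        linarith
      have k5 : s ^ 2 ≤ 1 := by nlinarith
      have k6 : 0 ≤ s ^ 2 := by positivity
      have k7 : 0 ≤ t ^ 2 := by positivity
      rw [abs_le]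
      constructor <;> linarith
    have n2 : s ^ 2 * |t ^ 2 - 4 * t * c + 4 * s ^ 2 + 4| ≤ (4 * η ^ 2) * 56 :=
      mul_le_mul hs2 n1 (abs_nonneg _) (by positivity)
    refine n2.trans ?_
    have n3 : 448 * η ^ 2 / t ^ 2 * (t ^ 2 / 2) = (4 * η ^ 2) * 56 := by
      field_simp; ring
    rw [← n3]
    exact mul_le_mul_of_nonneg_left hA2 (by positivity)
  · unfold ph
    rw [← hsdef, ← hcdef, div_le_iff₀ hA]
    have n1 : (t * c - 2 * s ^ 2) ^ 2 ≤ (2 * t) ^ 2 := pow_le_pow_left₀ hB0.le hB2 2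
    nlinarith

/-- Let `x = 2 sinh η / t ∈ (0, 1)`. Then `hh = t (1-x²)/(ch - x sh) ≤ 2 t`, `ph = (ch - x sh)²/(1-x²)`,
`hd = (ch - 2 x sh + x² ch)/(ch - x sh)² ≤ 16`, `ph · hh = t (ch - x sh) ≤ 2 t`, for `0 < η ≤ 1/4`
(note `ch - x sh ≥ ch - sh = e^{-η} ≥ 1/2`).
Case `x ≥ 1/2`, i.e. `t ≤ 4 sinh η`: `|D · FF| ≤ 16 cosh (2d+1) (2t)^d + (2t)^d`, `t ≤ 4 sinh η ≤ 8 η`
and `d ≥ 2`. Case `x ≤ 1/2`: `|hd - 1| ≤ C (η² + x²)`, `|ph - 1| ≤ C (η² + x²)`, `|cosh ((2d+1) η) - 1|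
≤ C η²`, so `|FF| ≤ C' (η² + x²)`, and `0 ≤ D ≤ (2t)^d`, `t ≤ 3`, `x t = 2 sinh η ≤ 4 η`. The constant
`C` depends only on `d`. -/
theorem bound_FF {d : ℕ} (hd2 : 2 ≤ d) : ∃ C : ℝ, ∀ η : ℝ, 0 < η → η ≤ 1 / 4 →
    ∀ t ∈ Ioo (2 * Real.sinh η) (2 * Real.cosh η), ∀ y : ℝ, 0 ≤ y → y ≤ hh η t ^ d →
      |y * FF d η t| ≤ C * η ^ 2 := by
  set M : ℝ := Real.exp ((2 * d + 1) ^ 2 / 2) with hM
  have hM0 : 0 < M := Real.exp_pos _
  set C1 : ℝ := 16 ^ d * (16 * M + 1) with hC1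
  set C2 : ℝ := 8 ^ d * (16 * ((2 * d + 1) ^ 2 / 2 * M) + 12) +
    4 * 8 ^ d * (128 + 448 * (d * 8 ^ d)) with hC2
  have hC10 : 0 ≤ C1 := by positivity
  have hC20 : 0 ≤ C2 := by positivity
  refine ⟨C1 + C2, ?_⟩
  intro η h0 h1 t ht y hy0 hy1
  obtain ⟨b1, b2, b3, b4⟩ := AnB_small h0 h1
  obtain ⟨ht0, ht4, hB1, hB2, hA, hh0, hh1, hd0, hd1, ph0, ph1⟩ := AnB_basic h0 h1 ht
  have hs : 0 < Real.sinh η := Real.sinh_pos_iff.2 h0
  have hη2 : 0 ≤ η ^ 2 := by positivity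
  have hMx : Real.exp (((2 * d + 1) * η) ^ 2 / 2) ≤ M := by
    rw [hM]
    apply Real.exp_le_exp.2
    have : ((2 * (d : ℝ) + 1) * η) ^ 2 ≤ (2 * d + 1) ^ 2 := by
      rw [mul_pow]
      have : η ^ 2 ≤ 1 := by nlinarith
      nlinarith [sq_nonneg (2 * (d : ℝ) + 1)]
    linarith
  obtain ⟨m1, m2⟩ := AnB_cosh hMx
  have hy2 : y ≤ (2 * t) ^ d := hy1.trans (pow_le_pow_left₀ hh0 hh1 d)
  have hch1 : 1 ≤ Real.cosh ((2 * d + 1) * η) := Real.one_le_cosh _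
  rcases le_total t (4 * Real.sinh η) with hc | hc
  · -- first case
    have e1 : |y * FF d η t| ≤ 16 ^ d * (16 * M + 1) * η ^ 2 := by
      have f1 : 0 ≤ y * (Real.cosh ((2 * d + 1) * η) * hd η t) :=
        mul_nonneg hy0 (mul_nonneg (by linarith) hd0)
      have f2 : 0 ≤ y * ph η t ^ d := mul_nonneg hy0 (pow_nonneg ph0 d)
      have f3 : y * (Real.cosh ((2 * d + 1) * η) * hd η t) ≤ (2 * t) ^ d * (M * 16) := by
        apply mul_le_mul hy2 _ (mul_nonneg (by linarith) hd0) (by positivity)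
        exact mul_le_mul m1 hd1 hd0 hM0.le
      have f4 : y * ph η t ^ d ≤ (2 * t) ^ d := by
        calc y * ph η t ^ d ≤ hh η t ^ d * ph η t ^ d :=
              mul_le_mul_of_nonneg_right hy1 (pow_nonneg ph0 d)
          _ = (hh η t * ph η t) ^ d := by rw [mul_pow]
          _ ≤ (2 * t) ^ d := pow_le_pow_left₀ (mul_nonneg hh0 ph0) ph1 d
      have f5 : (2 * t) ^ d ≤ 16 ^ d * η ^ 2 := by
        have g1 : 2 * t ≤ 16 * η := by linarith
        have g2 : (2 * t) ^ d ≤ (16 * η) ^ d := pow_le_pow_left₀ (by positivity) g1 d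
        have g3 : η ^ d ≤ η ^ 2 := pow_le_pow_of_le_one h0.le (by linarith) hd2
        rw [mul_pow (16 : ℝ) η d] at g2
        have g4 : (16 : ℝ) ^ d * η ^ d ≤ 16 ^ d * η ^ 2 :=
          mul_le_mul_of_nonneg_left g3 (by positivity)
        exact g2.trans g4
      have f6 : y * FF d η t = y * (Real.cosh ((2 * d + 1) * η) * hd η t) - y * ph η t ^ d := by
        unfold FF; ring
      have f7 : (2 * t) ^ d * (M * 16) ≤ 16 ^ d * η ^ 2 * (M * 16) :=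
        mul_le_mul_of_nonneg_right f5 (by positivity)
      have f8 : 0 ≤ 16 ^ d * η ^ 2 := by positivity
      have f9 : 0 ≤ 16 ^ d * η ^ 2 * (M * 16) := by positivity
      rw [f6, abs_le]
      constructor <;> nlinarith
    have : 0 ≤ C2 * η ^ 2 := by positivity
    rw [add_mul]
    linarith
  · -- second case
    obtain ⟨d1, d2, d3⟩ := AnB_diff h0 h1 ht hc
    have g1 : |FF d η t| ≤ (16 * ((2 * d + 1) ^ 2 / 2 * M) + 12) * η ^ 2 +
        (128 + 448 * (d * 8 ^ d)) * η ^ 2 / t ^ 2 := by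
      have k1 : FF d η t = (Real.cosh ((2 * d + 1) * η) - 1) * hd η t + (hd η t - 1) -
          (ph η t - 1) * ∑ i ∈ Finset.range d, ph η t ^ i := by
        have h3 : (ph η t - 1) * ∑ i ∈ Finset.range d, ph η t ^ i = ph η t ^ d - 1 :=
          mul_geom_sum (ph η t) d
        rw [h3]; unfold FF; ring
      have k2 : |(Real.cosh ((2 * d + 1) * η) - 1) * hd η t| ≤
          16 * ((2 * d + 1) ^ 2 / 2 * M) * η ^ 2 := by
        rw [abs_mul, abs_of_nonneg (by linarith), abs_of_nonneg hd0]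
        have := mul_le_mul m2 hd1 hd0 (by positivity)
        calc (Real.cosh ((2 * d + 1) * η) - 1) * hd η t ≤
            ((2 * d + 1) * η) ^ 2 / 2 * M * 16 := this
          _ = 16 * ((2 * d + 1) ^ 2 / 2 * M) * η ^ 2 := by ring
      have k3 : |∑ i ∈ Finset.range d, ph η t ^ i| ≤ d * 8 ^ d := by
        rw [abs_of_nonneg (Finset.sum_nonneg fun i _ => pow_nonneg ph0 i)]
        calc ∑ i ∈ Finset.range d, ph η t ^ i ≤ ∑ i ∈ Finset.range d, (8 : ℝ) ^ d := by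
              apply Finset.sum_le_sum
              intro i hi
              have hid : i ≤ d := (Finset.mem_range.1 hi).le
              exact (pow_le_pow_left₀ ph0 d3 i).trans (pow_le_pow_right₀ (by norm_num) hid)
          _ = d * 8 ^ d := by simp
      have k4 : |(ph η t - 1) * ∑ i ∈ Finset.range d, ph η t ^ i| ≤
          448 * η ^ 2 / t ^ 2 * (d * 8 ^ d) := by
        rw [abs_mul]
        exact mul_le_mul d2 k3 (abs_nonneg _) (by positivity)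
      rw [k1]
      have k5 := abs_sub ((Real.cosh ((2 * d + 1) * η) - 1) * hd η t + (hd η t - 1))
        ((ph η t - 1) * ∑ i ∈ Finset.range d, ph η t ^ i)
      have k6 := abs_add_le ((Real.cosh ((2 * d + 1) * η) - 1) * hd η t) (hd η t - 1)
      have k7 : (128 + 448 * ((d : ℝ) * 8 ^ d)) * η ^ 2 / t ^ 2 =
          128 * η ^ 2 / t ^ 2 + 448 * η ^ 2 / t ^ 2 * (d * 8 ^ d) := by
        field_simp
      rw [k7]
      linarith
    have g2 : y ≤ 8 ^ d := hy2.trans (pow_le_pow_left₀ (by positivity) (by linarith) d)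
    have g3 : y ≤ 4 * 8 ^ d * t ^ 2 := by
      have e1 : (2 * t) ^ d = (2 * t) ^ (d - 2) * (2 * t) ^ 2 := by
        rw [← pow_add]; congr 1; omega
      have e2 : (2 * t) ^ (d - 2) ≤ 8 ^ d := by
        refine (pow_le_pow_left₀ (by positivity) (by linarith : 2 * t ≤ 8) (d - 2)).trans ?_
        exact pow_le_pow_right₀ (by norm_num) (by omega)
      rw [e1] at hy2
      have e3 := mul_le_mul_of_nonneg_right e2 (by positivity : 0 ≤ (2 * t) ^ 2)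
      calc y ≤ _ := hy2
        _ ≤ 8 ^ d * (2 * t) ^ 2 := e3
        _ = 4 * 8 ^ d * t ^ 2 := by ring
    rw [abs_mul, abs_of_nonneg hy0]
    have g4 := mul_le_mul_of_nonneg_left g1 hy0
    have g5 : y * ((16 * ((2 * d + 1) ^ 2 / 2 * M) + 12) * η ^ 2) ≤
        8 ^ d * ((16 * ((2 * d + 1) ^ 2 / 2 * M) + 12) * η ^ 2) :=
      mul_le_mul_of_nonneg_right g2 (by positivity)
    have g6 : y * ((128 + 448 * (d * 8 ^ d)) * η ^ 2 / t ^ 2) ≤
        4 * 8 ^ d * t ^ 2 * ((128 + 448 * (d * 8 ^ d)) * η ^ 2 / t ^ 2) :=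
      mul_le_mul_of_nonneg_right g3 (by positivity)
    have g7 : 4 * 8 ^ d * t ^ 2 * ((128 + 448 * (d * 8 ^ d)) * η ^ 2 / t ^ 2) =
        4 * 8 ^ d * (128 + 448 * (d * 8 ^ d)) * η ^ 2 := by
      field_simp
    rw [g7] at g6
    have g8 : 0 ≤ C1 * η ^ 2 := by positivity
    have g9 : C2 * η ^ 2 = 8 ^ d * ((16 * ((2 * d + 1) ^ 2 / 2 * M) + 12) * η ^ 2) +
        4 * 8 ^ d * (128 + 448 * (d * 8 ^ d)) * η ^ 2 := by rw [hC2]; ring
    rw [add_mul, g9]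
    linarith

end Pool.Agent.LibSP74
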