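import Pool.Agent.LibSP74.Defs

/-! Task Basic: first properties of norms and volumes. -/

set_option autoImplicit false

open MeasureTheory Set

namespace Pool.Agent.LibSP74

namespace IsN

variable {d : ℕ} {N : E d → ℝ}

lemma zero (h : IsN N) : N 0 = 0 := by
  have := h.smul 0 0
  simpa using this

lemma nonneg (h : IsN N) (z : E d) : 0 ≤ N z := by
  by_cases hz : z = 0
  · rw [hz, h.zero]
  · exact (h.pos z hz).le

lemma neg (h : IsN N) (z : E d) : N (-z) = N z := by
  have := h.smul (-1) z
  simpa using this

lemma sub_comm (h : IsN N) (z w : E d) : N (z - w) = N (w - z) := by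
  rw [← h.neg, neg_sub]

lemma sub_le (h : IsN N) (z w : E d) : N (z - w) ≤ N z + N w := by
  rw [sub_eq_add_neg]
  exact (h.add_le z (-w)).trans (by rw [h.neg])

lemma smul_nonneg (h : IsN N) {c : ℝ} (hc : 0 ≤ c) (z : E d) : N (c • z) = c * N z := by
  rw [h.smul, abs_of_nonneg hc]

/-- The balls are closed. -/
lemma measurableSet_ball (h : IsN N) (r : ℝ) : MeasurableSet {x : E d | N x ≤ r} :=
  (isClosed_le h.cont continuous_const).measurableSet

lemma measurableSet_T (h : IsN N) (r s t : ℝ) : MeasurableSet (T N r s t) := by
  refine (IsClosed.inter (isClosed_le (h.cont.comp continuous_fst) continuous_const)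
    (IsClosed.inter (isClosed_le (h.cont.comp continuous_snd) continuous_const)
    (isClosed_le (h.cont.comp (continuous_fst.sub continuous_snd)) continuous_const))).measurableSet

end IsN

end Pool.Agent.LibSP74
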