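import Pool.Agent.LibSP74.Basic

/-! Task BasicA: volumes of the balls. -/

set_option autoImplicit false

open MeasureTheory Set
open scoped Pointwise

namespace Pool.Agent.LibSP74

namespace IsN

variable {d : ℕ} {N : E d → ℝ}

/-- The balls are bounded: `N z ≥ m ‖z‖` (see `norm_body` in `H78Sprawl/Polar.lean` for `d = 2`). -/
lemma isCompact_ball (h : IsN N) (r : ℝ) : IsCompact {x : E d | N x ≤ r} := by
  rcases subsingleton_or_nontrivial (E d) with hs | hs
  · exact Set.subsingleton_of_subsingleton.isCompact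
  · have hcs : IsCompact (Metric.sphere (0 : E d) 1) := isCompact_sphere 0 1
    obtain ⟨z₀, hz₀, hmin⟩ := hcs.exists_isMinOn (NormedSpace.sphere_nonempty.2 zero_le_one)
      h.cont.continuousOn
    have hz0 : z₀ ≠ 0 := by
      rintro rfl
      simp at hz₀
    have hm := h.pos z₀ hz0
    refine Metric.isCompact_of_isClosed_isBounded (isClosed_le h.cont continuous_const) ?_
    refine (Metric.isBounded_closedBall (x := (0 : E d)) (r := |r| / N z₀)).subset ?_
    intro z hz
    rw [Metric.mem_closedBall, dist_zero_right]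
    by_cases hz' : z = 0
    · rw [hz', norm_zero]; positivity
    have hn : 0 < ‖z‖ := norm_pos_iff.2 hz'
    have h1 : N z₀ ≤ N (‖z‖⁻¹ • z) := hmin (by
      rw [mem_sphere_iff_norm, sub_zero, norm_smul, norm_inv, norm_norm, inv_mul_cancel₀ hn.ne'])
    rw [h.smul_nonneg (by positivity)] at h1
    have hz1 : N z ≤ r := hz
    rw [le_div_iff₀ hm]
    have h2 : ‖z‖ * N z₀ ≤ ‖z‖ * (‖z‖⁻¹ * N z) := mul_le_mul_of_nonneg_left h1 hn.le
    rw [← mul_assoc, mul_inv_cancel₀ hn.ne', one_mul] at h2
    exact h2.trans (hz1.trans (le_abs_self r))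

/-- `{N ≤ r}` is `r • {N ≤ 1}`; `Measure.addHaar_smul`. For `r = 0`, `d ≠ 0` it is a point. -/
lemma volume_ball (h : IsN N) (hd : d ≠ 0) {r : ℝ} (hr : 0 ≤ r) :
    volume {x : E d | N x ≤ r} = ENNReal.ofReal (r ^ d * vol N) := by
  have hset : {x : E d | N x ≤ r} = r • {x : E d | N x ≤ 1} := by
    rcases hr.eq_or_lt with rfl | hr'
    · rw [Set.zero_smul_set ⟨0, by rw [Set.mem_ofPred_eq, h.zero]; exact zero_le_one⟩]
      ext z
      rw [Set.mem_ofPred_eq, Set.mem_zero]
      constructor
      · intro hz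
        by_contra hz'
        exact absurd (h.pos z hz') (not_lt.mpr hz)
      · rintro rfl
        rw [h.zero]
    · ext z
      rw [Set.mem_smul_set_iff_inv_smul_mem₀ hr'.ne', Set.mem_ofPred_eq, Set.mem_ofPred_eq,
        h.smul_nonneg (inv_nonneg.mpr hr), inv_mul_le_iff₀ hr', mul_one]
  rw [hset, Measure.addHaar_smul, finrank_euclideanSpace_fin, abs_of_nonneg (pow_nonneg hr d),
    ENNReal.ofReal_mul (pow_nonneg hr d)]
  unfold vol
  rw [ENNReal.ofReal_toReal (h.isCompact_ball 1).measure_lt_top.ne]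

/-- The unit ball contains an open set and is compact. -/
lemma vol_pos (h : IsN N) : 0 < vol N := by
  unfold vol
  refine ENNReal.toReal_pos ?_ (h.isCompact_ball 1).measure_lt_top.ne
  have h1 : 0 < volume {x : E d | N x < 1} :=
    (isOpen_lt h.cont continuous_const).measure_pos volume ⟨0, by
      rw [Set.mem_ofPred_eq, h.zero]; exact zero_lt_one⟩
  refine (h1.trans_le (measure_mono ?_)).ne'
  intro z hz
  exact le_of_lt (show N z < 1 from hz)

end IsN

end Pool.Agent.LibSP74
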