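import Pool.Agent.LibSP74.Basic

/-! Task CubeA: the sup norm. -/

set_option autoImplicit false

open MeasureTheory Set

namespace Pool.Agent.LibSP74

theorem isN_mx (d : ℕ) : IsN (mx : E d → ℝ) := by
  refine ⟨?_, ?_, ?_, ?_⟩
  · exact (PiLp.continuous_ofLp 2 (fun _ : Fin d => ℝ)).norm
  · intro c z
    change ‖(WithLp.ofLp (c • z) : Fin d → ℝ)‖ = |c| * ‖(WithLp.ofLp z : Fin d → ℝ)‖
    rw [WithLp.ofLp_smul, norm_smul, Real.norm_eq_abs]
  · intro z w
    change ‖(WithLp.ofLp (z + w) : Fin d → ℝ)‖ ≤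
      ‖(WithLp.ofLp z : Fin d → ℝ)‖ + ‖(WithLp.ofLp w : Fin d → ℝ)‖
    rw [WithLp.ofLp_add]
    exact norm_add_le _ _
  · intro z hz
    change 0 < ‖(WithLp.ofLp z : Fin d → ℝ)‖
    rw [norm_pos_iff]
    intro h
    apply hz
    ext i
    exact congrFun h i

theorem cube_eq (d : ℕ) : {x : E d | ∀ i : Fin d, |EuclideanSpace.proj (𝕜 := ℝ) i x| ≤ 1} =
    {x : E d | mx x ≤ 1} := by
  ext x
  simp only [mem_ofPred_eq, mx]
  rw [pi_norm_le_iff_of_nonneg zero_le_one]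
  simp [Real.norm_eq_abs]

theorem vol_mx (d : ℕ) : vol (mx : E d → ℝ) = 2 ^ d := by
  have h1 : {x : E d | mx x ≤ 1} =
      (WithLp.ofLp : E d → (Fin d → ℝ)) ⁻¹' (Metric.closedBall 0 1) := by
    ext x
    simp [mx]
  have h2 : volume {x : E d | mx x ≤ 1} = ENNReal.ofReal ((2 * 1) ^ Fintype.card (Fin d)) := by
    rw [h1, (PiLp.volume_preserving_ofLp (Fin d)).measure_preimage
      Metric.isClosed_closedBall.measurableSet.nullMeasurableSet,
      Real.volume_pi_closedBall _ zero_le_one]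
  rw [vol, h2, ENNReal.toReal_ofReal (by positivity)]
  simp

end Pool.Agent.LibSP74
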