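import Mathlib

/-!
# The sprawl of centrally symmetric convex bodies: the cube has the largest sprawl

Paper proof (helper74). `N` is a norm on `R^d` with unit ball `K`,
`V(r,s,t) = vol {(x,y) : N x ≤ r, N y ≤ s, N (x-y) ≤ t}`.

1. (`step`) For fixed `m` let `S_δ(m) = {w : N w ≤ t, N ((1-δ)m + w/2) ≤ a, N ((1+δ)m - w/2) ≤ b}`. The
   set `(S_δ(m) - S_δ(m))/2` is contained in the same set for `δ = 0` and `a, b` replaced by `(a+b)/2`;
   so the volume does not decrease (Brunn-Minkowski in the form `|A| ≤ |S|` if `(A-A)/2 ⊆ S`).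
2. (`move`) So `V(r,s,t) ≤ V(ρ,ρ,tq)` for `|δ| < 1`, `q = √(1-δ²)`, `ρ = q(r/(1+δ) + s/(1-δ))/2`.
   For the cube and `δ = (r-s)/t` there is equality, as `V = (4rs-(r+s-t)²)^d`.
3. (`V_ge`) `V(1,1,t) ≥ (t(4-t)/4)^d |K|²`, with equality for the cube.
4. The sprawl is computed from `Ψ(r,s) = ∫_{rK×sK} N(x-y)` for `(r,s) = (1,1)` and `(e^η,e^{-η})`, `η → 0`.
5. A limit computation, and a positivity argument which uses `move` for `(1,t,1)`, `δ = 1-t`.
-/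

set_option autoImplicit false

open MeasureTheory Set

namespace Pool.Agent.LibSP74

/-- The euclidean space of dimension `d`. -/
abbrev E (d : ℕ) := EuclideanSpace ℝ (Fin d)

/-- A norm on `R^d`, as a function. -/
structure IsN {d : ℕ} (N : E d → ℝ) : Prop where
  cont : Continuous N
  smul : ∀ (c : ℝ) (z : E d), N (c • z) = |c| * N z
  add_le : ∀ z w : E d, N (z + w) ≤ N z + N w
  pos : ∀ z : E d, z ≠ 0 → 0 < N z

/-- The set of the pairs `(x, y)` with `N x ≤ r`, `N y ≤ s`, `N (x - y) ≤ t`. -/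
def T {d : ℕ} (N : E d → ℝ) (r s t : ℝ) : Set (E d × E d) :=
  {p | N p.1 ≤ r ∧ N p.2 ≤ s ∧ N (p.1 - p.2) ≤ t}

/-- Its volume. -/
noncomputable def V {d : ℕ} (N : E d → ℝ) (r s t : ℝ) : ℝ := (volume (T N r s t)).toReal

/-- The volume of the unit ball. -/
noncomputable def vol {d : ℕ} (N : E d → ℝ) : ℝ := (volume {x : E d | N x ≤ 1}).toReal

/-- The set of the step: here `p.1` is `m` and `p.2` is `w`. -/
def R {d : ℕ} (N : E d → ℝ) (δ a b t : ℝ) : Set (E d × E d) :=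
  {p | N p.2 ≤ t ∧ N ((1 - δ) • p.1 + (1 / 2 : ℝ) • p.2) ≤ a ∧
    N ((1 + δ) • p.1 - (1 / 2 : ℝ) • p.2) ≤ b}

/-- The sprawl. -/
noncomputable def sprawl {d : ℕ} (N : E d → ℝ) : ℝ :=
  (∫ x in {x : E d | N x ≤ 1}, ∫ y in {x : E d | N x ≤ 1}, N ((N x)⁻¹ • x - (N y)⁻¹ • y)) / vol N ^ 2

/-- The integral of the distance. -/
noncomputable def Psi {d : ℕ} (N : E d → ℝ) (r s : ℝ) : ℝ :=
  ∫ x in {x : E d | N x ≤ r}, ∫ y in {y : E d | N y ≤ s}, N (x - y)

/-- The sup norm. -/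
noncomputable def mx {d : ℕ} (x : E d) : ℝ := ‖(WithLp.ofLp x : Fin d → ℝ)‖

/-- The normalised volume function of the cube for `r = s = 1`. -/
noncomputable def vc (d : ℕ) (t : ℝ) : ℝ := (t * (4 - t) / 4) ^ d

/-- The substitution `t ↦ tb / ρ`. -/
noncomputable def hh (η t : ℝ) : ℝ :=
  (t ^ 2 - 4 * Real.sinh η ^ 2) / (t * Real.cosh η - 2 * Real.sinh η ^ 2)

/-- Its derivative. -/
noncomputable def hd (η t : ℝ) : ℝ :=
  (t ^ 2 * Real.cosh η - 4 * t * Real.sinh η ^ 2 + 4 * Real.sinh η ^ 2 * Real.cosh η) /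
    (t * Real.cosh η - 2 * Real.sinh η ^ 2) ^ 2

/-- The square of `ρ`. -/
noncomputable def ph (η t : ℝ) : ℝ :=
  (t * Real.cosh η - 2 * Real.sinh η ^ 2) ^ 2 / (t ^ 2 - 4 * Real.sinh η ^ 2)

/-- The weight. -/
noncomputable def om (d : ℕ) (t : ℝ) : ℝ :=
  (d : ℝ) * (2 * d + 1) / 2 + 2 * d / t - 2 * (d - 1) / t ^ 2

/-- The integrand without the factor `D`. -/
noncomputable def FF (d : ℕ) (η t : ℝ) : ℝ :=
  Real.cosh ((2 * d + 1) * η) * hd η t - ph η t ^ d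

end Pool.Agent.LibSP74
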