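import Pool.Agent.LibSP74.VolB

/-! Task Layer: the layer cake formula for `Psi`. -/

set_option autoImplicit false

open MeasureTheory Set

namespace Pool.Agent.LibSP74

variable {d : ℕ} {N : E d → ℝ}

theorem Layer_Psi_prod (h : IsN N) (r s : ℝ) :
    Psi N r s = ∫ p in {x : E d | N x ≤ r} ×ˢ {y : E d | N y ≤ s}, N (p.1 - p.2) := by
  have hc : Continuous fun p : E d × E d => N (p.1 - p.2) :=
    h.cont.comp (continuous_fst.sub continuous_snd)
  have hK : IsCompact ({x : E d | N x ≤ r} ×ˢ {y : E d | N y ≤ s}) :=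
    (h.isCompact_ball r).prod (h.isCompact_ball s)
  have hi : IntegrableOn (fun p : E d × E d => N (p.1 - p.2))
      ({x : E d | N x ≤ r} ×ˢ {y : E d | N y ≤ s}) (volume.prod volume) :=
    hc.continuousOn.integrableOn_compact hK
  rw [Measure.volume_eq_prod, setIntegral_prod _ hi]
  rfl

theorem Layer_total (h : IsN N) (hd : d ≠ 0) {r s : ℝ} (hr : 0 < r) (hs : 0 < s) :
    (volume ({x : E d | N x ≤ r} ×ˢ {y : E d | N y ≤ s})).toReal =
      r ^ d * s ^ d * vol N ^ 2 := by
  rw [Measure.volume_eq_prod, Measure.prod_prod, h.volume_ball hd hr.le, h.volume_ball hd hs.le,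
    ENNReal.toReal_mul, ENNReal.toReal_ofReal, ENNReal.toReal_ofReal]
  · ring
  · have := h.vol_pos
    positivity
  · have := h.vol_pos
    positivity

theorem Layer_V_int (h : IsN N) (r s : ℝ) (a b : ℝ) : IntegrableOn (V N r s) (Ioo a b) :=
  (((V_mono h r s).monotoneOn _).integrableOn_isCompact isCompact_Icc).mono_set
    (Ioo_subset_Icc_self (a := a) (b := b))

/-- For `(x, y) ∈ {N ≤ r} × {N ≤ s}`: `N (x - y) = (r + s) - ∫_0^{r+s} 1[N (x - y) ≤ t] dt`. Fubini. -/
theorem Psi_eq (h : IsN N) (hd : d ≠ 0) {r s : ℝ} (hr : 0 < r) (hs : 0 < s) :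
    Psi N r s = (r + s) * (r ^ d * s ^ d * vol N ^ 2) - ∫ t in Ioo 0 (r + s), V N r s t := by
  set B : Set (E d × E d) := {x : E d | N x ≤ r} ×ˢ {y : E d | N y ≤ s} with hB
  have hc : Continuous fun p : E d × E d => N (p.1 - p.2) :=
    h.cont.comp (continuous_fst.sub continuous_snd)
  have hK : IsCompact B := (h.isCompact_ball r).prod (h.isCompact_ball s)
  have hBm : MeasurableSet B := hK.measurableSet
  have hBf : volume B ≠ ⊤ := hK.measure_lt_top.ne
  have hi : IntegrableOn (fun p : E d × E d => N (p.1 - p.2)) B :=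
    hc.continuousOn.integrableOn_compact hK
  rw [Layer_Psi_prod h, ← hB]
  have hl := Integrable.integral_eq_integral_meas_lt (μ := volume.restrict B)
    (f := fun p : E d × E d => N (p.1 - p.2)) hi
    (Filter.Eventually.of_forall fun p => h.nonneg _)
  rw [hl]
  have htot := Layer_total h hd hr hs
  rw [← hB] at htot
  have key : ∀ t : ℝ, (volume.restrict B).real {p : E d × E d | t < N (p.1 - p.2)} =
      r ^ d * s ^ d * vol N ^ 2 - V N r s t := by
    intro t
    have hm : MeasurableSet {p : E d × E d | t < N (p.1 - p.2)} :=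
      (isOpen_lt continuous_const hc).measurableSet
    have hT : T N r s t = B \ {p : E d × E d | t < N (p.1 - p.2)} := by
      ext p
      constructor
      · rintro ⟨h1, h2, h3⟩
        exact ⟨⟨h1, h2⟩, not_lt.2 h3⟩
      · rintro ⟨⟨h1, h2⟩, h3⟩
        exact ⟨h1, h2, not_lt.1 h3⟩
    have hV : V N r s t = volume.real (B \ {p : E d × E d | t < N (p.1 - p.2)}) := by
      unfold V
      rw [hT]
      rfl
    rw [hV, measureReal_restrict_apply hm, inter_comm]
    have h1 := measureReal_sdiff_add_inter (μ := volume) (s := B)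
      (t := {p : E d × E d | t < N (p.1 - p.2)}) hm hBf
    have h2 : volume.real B = r ^ d * s ^ d * vol N ^ 2 := htot
    linarith
  have hzero : ∀ t : ℝ, r + s ≤ t →
      (volume.restrict B).real {p : E d × E d | t < N (p.1 - p.2)} = 0 := by
    intro t ht
    rw [key t, V_large h hd hr.le hs.le ht, sub_self]
  have hsplit : ∫ t in Ioi (0 : ℝ), (volume.restrict B).real {p : E d × E d | t < N (p.1 - p.2)} =
      ∫ t in Ioo (0 : ℝ) (r + s), (volume.restrict B).real {p : E d × E d | t < N (p.1 - p.2)} := by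
    apply setIntegral_eq_of_subset_of_forall_sdiff_eq_zero measurableSet_Ioi
    · exact fun t ht => ht.1
    · intro t ht
      apply hzero
      by_contra hlt
      exact ht.2 ⟨ht.1, not_le.1 hlt⟩
  rw [hsplit]
  simp_rw [key]
  have hci : Integrable (fun _ : ℝ => r ^ d * s ^ d * vol N ^ 2)
      (volume.restrict (Ioo (0 : ℝ) (r + s))) := integrable_const _
  rw [integral_sub hci (Layer_V_int h r s 0 (r + s)), setIntegral_const]
  congr 1
  simp only [measureReal_def, Real.volume_Ioo, smul_eq_mul, sub_zero]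
  rw [ENNReal.toReal_ofReal (by linarith)]

/-- From `Psi_eq` and `V_scale`, or directly. -/
theorem Psi_scale (h : IsN N) (hd : d ≠ 0) {r : ℝ} (hr : 0 < r) :
    Psi N r r = r ^ (2 * d + 1) * Psi N 1 1 := by
  rw [Psi_eq h hd hr hr, Psi_eq h hd one_pos one_pos]
  have hV : ∀ t : ℝ, V N r r t = r ^ (2 * d) * V N 1 1 (t / r) := by
    intro t
    have := V_scale h hr 1 1 (t / r)
    rw [mul_one, mul_div_cancel₀ _ hr.ne'] at this
    exact this
  have hI : ∫ t in Ioo 0 (r + r), V N r r t = r ^ (2 * d + 1) * ∫ t in Ioo 0 (1 + 1 : ℝ), V N 1 1 t := by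
    simp_rw [hV]
    rw [integral_const_mul, ← integral_Ioc_eq_integral_Ioo, ← integral_Ioc_eq_integral_Ioo,
      ← intervalIntegral.integral_of_le (by linarith), ← intervalIntegral.integral_of_le (by norm_num),
      intervalIntegral.integral_comp_div (fun u => V N 1 1 u) hr.ne', zero_div]
    have : (r + r) / r = 1 + 1 := by
      field_simp
    rw [this, smul_eq_mul]
    ring
  rw [hI]
  ring

theorem Psi_comm (h : IsN N) (hd : d ≠ 0) {r s : ℝ} (hr : 0 < r) (hs : 0 < s) :
    Psi N r s = Psi N s r := by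
  rw [Psi_eq h hd hr hs, Psi_eq h hd hs hr, add_comm s r]
  simp_rw [V_comm h s r]
  ring

end Pool.Agent.LibSP74
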