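import Pool.Agent.LibSP74.BasicA

/-! Task MoveA: linear changes of variables. -/

set_option autoImplicit false

open MeasureTheory Set

namespace Pool.Agent.LibSP74

variable {d : ℕ} {N : E d → ℝ}

/-- The shear of the first coordinate by the second. -/
lemma MoveA_shear (c : ℝ) :
    MeasurePreserving (fun p : E d × E d => (p.1 + c • p.2, p.2)) volume volume := by
  have h1 : MeasurePreserving (fun p : E d × E d => (p.1, p.2 + c • p.1))
      ((volume : Measure (E d)).prod (volume : Measure (E d)))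
      ((volume : Measure (E d)).prod (volume : Measure (E d))) := by
    refine MeasurePreserving.skew_product (f := fun x : E d => x)
      (g := fun (x y : E d) => y + c • x) (MeasurePreserving.id _) ?_ ?_
    · exact (continuous_snd.add (continuous_fst.const_smul c)).measurable
    · exact Filter.Eventually.of_forall fun x =>
        (measurePreserving_add_right (volume : Measure (E d)) (c • x)).map_eq
  have h2 : MeasurePreserving (Prod.swap : E d × E d → E d × E d)
      ((volume : Measure (E d)).prod (volume : Measure (E d)))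
      ((volume : Measure (E d)).prod (volume : Measure (E d))) := Measure.measurePreserving_swap
  exact (h2.comp (h1.comp h2))

/-- The reflection of the second coordinate. -/
lemma MoveA_refl :
    MeasurePreserving (fun p : E d × E d => (p.1, p.1 - p.2)) volume volume := by
  refine MeasurePreserving.skew_product (f := fun x : E d => x)
      (g := fun (x y : E d) => x - y) (MeasurePreserving.id _) ?_ ?_
  · exact (continuous_fst.sub continuous_snd).measurable
  · exact Filter.Eventually.of_forall fun x =>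
        (Measure.measurePreserving_sub_left (volume : Measure (E d)) x).map_eq

/-- The scaling of both coordinates. -/
lemma MoveA_scale {q : ℝ} (hq : 0 < q) :
    MeasurePreserving (fun p : E d × E d => (q • p.1, q⁻¹ • p.2)) volume volume := by
  refine ⟨((continuous_fst.const_smul q).prodMk (continuous_snd.const_smul q⁻¹)).measurable, ?_⟩
  have h1 : Measure.map (fun x : E d => q • x) volume =
      ENNReal.ofReal |(q ^ d)⁻¹| • (volume : Measure (E d)) := by
    have := Measure.map_addHaar_smul (volume : Measure (E d)) hq.ne'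
    simpa using this
  have h2 : Measure.map (fun x : E d => q⁻¹ • x) volume =
      ENNReal.ofReal |((q⁻¹) ^ d)⁻¹| • (volume : Measure (E d)) := by
    have := Measure.map_addHaar_smul (volume : Measure (E d)) (inv_ne_zero hq.ne')
    simpa using this
  have h3 : Measure.map (Prod.map (fun x : E d => q • x) (fun x : E d => q⁻¹ • x))
      ((volume : Measure (E d)).prod (volume : Measure (E d))) =
      (Measure.map (fun x : E d => q • x) volume).prod (Measure.map (fun x : E d => q⁻¹ • x) volume) :=
    (Measure.map_prod_map _ _ (by fun_prop) (by fun_prop)).symm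
  change Measure.map (Prod.map (fun x : E d => q • x) (fun x : E d => q⁻¹ • x))
      ((volume : Measure (E d)).prod (volume : Measure (E d))) = _
  rw [h3, h1, h2, Measure.prod_smul_left, Measure.prod_smul_right, smul_smul,
    ← ENNReal.ofReal_mul (abs_nonneg _)]
  have h4 : |(q ^ d)⁻¹| * |((q⁻¹) ^ d)⁻¹| = 1 := by
    rw [← abs_mul, inv_pow, inv_inv, inv_mul_cancel₀ (pow_ne_zero _ hq.ne'), abs_one]
  rw [h4, ENNReal.ofReal_one, one_smul]
  rfl

/-- Let `q = √(1-δ²)`. The map `(x, y) ↦ (m, w)` with `x - y = w / q`,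
`y = q m - (1-δ) w / (2q)`, hence `x = q m + (1+δ) w / (2q)`, preserves the volume. Under it
`N x ≤ r` becomes `N ((1-δ) m + w/2) ≤ r q / (1+δ)` (multiply by `q / (1+δ)`, `q² = (1-δ)(1+δ)`),
`N y ≤ s` becomes `N ((1+δ) m - w/2) ≤ s q / (1-δ)` and `N (x-y) ≤ t` becomes `N w ≤ t q`.
Proof by Fubini: for fixed `y` substitute `x = y + w/q` (factor `q^{-d}`), exchange the integrals, for
fixed `w` substitute `y = q m - (1-δ) w/(2q)` (factor `q^d`). (`Measure.prod_apply`,
`Measure.prod_apply_symm`, `Measure.addHaar_preimage_smul`, `measure_preimage_add`.) Or use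
`MeasureTheory.Measure.addHaar_preimage_linearMap` with the determinant. -/
theorem volume_T_eq (h : IsN N) {δ : ℝ} (hδ : |δ| < 1) (r s t : ℝ) :
    volume (T N r s t) = volume (R N δ (r * √(1 - δ ^ 2) / (1 + δ)) (s * √(1 - δ ^ 2) / (1 - δ))
      (t * √(1 - δ ^ 2))) := by
  obtain ⟨hl, hu⟩ := abs_lt.mp hδ
  have hp : 0 < 1 + δ := by linarith
  have hm : 0 < 1 - δ := by linarith
  have hq2 : 0 < 1 - δ ^ 2 := by nlinarith
  set q : ℝ := √(1 - δ ^ 2) with hqdef
  have hq : 0 < q := Real.sqrt_pos.mpr hq2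
  have hqq : q * q = (1 + δ) * (1 - δ) := by
    rw [hqdef, Real.mul_self_sqrt hq2.le]; ring
  have hL := (MoveA_refl (d := d)).comp ((MoveA_shear (d := d) ((1 + δ) / 2)).comp
    (MoveA_scale (d := d) hq))
  rw [← hL.measure_preimage (h.measurableSet_T r s t).nullMeasurableSet]
  congr 1
  ext ⟨m, w⟩
  simp only [T, R, mem_preimage, mem_ofPred_eq, Function.comp_apply]
  have e1 : q • m + ((1 + δ) / 2) • q⁻¹ • w - (q • m + ((1 + δ) / 2) • q⁻¹ • w - q⁻¹ • w) =
      q⁻¹ • w := by abel
  rw [e1]
  have e2 : (1 - δ) • m + (1 / 2 : ℝ) • w =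
      (q / (1 + δ)) • (q • m + ((1 + δ) / 2) • q⁻¹ • w) := by
    rw [smul_add, smul_smul, smul_smul, smul_smul]
    congr 2
    · field_simp; linarith
    · field_simp
  have e3 : (1 + δ) • m - (1 / 2 : ℝ) • w =
      (q / (1 - δ)) • (q • m + ((1 + δ) / 2) • q⁻¹ • w - q⁻¹ • w) := by
    rw [smul_sub, smul_add, smul_smul, smul_smul, smul_smul, smul_smul, add_sub_assoc, ← sub_smul,
      sub_eq_add_neg, ← neg_smul]
    congr 2
    · field_simp; linarith
    · field_simp; ring
  rw [e2, e3, h.smul_nonneg (c := q⁻¹) (by positivity), h.smul_nonneg (c := q / (1 + δ)) (by positivity),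
    h.smul_nonneg (c := q / (1 - δ)) (by positivity)]
  have c1 : ∀ A B : ℝ, q / (1 + δ) * A ≤ B * q / (1 + δ) ↔ A ≤ B := by
    intro A B
    rw [div_mul_eq_mul_div, div_le_div_iff_of_pos_right hp, mul_comm B q, mul_le_mul_iff_right₀ hq]
  have c2 : ∀ A B : ℝ, q / (1 - δ) * A ≤ B * q / (1 - δ) ↔ A ≤ B := by
    intro A B
    rw [div_mul_eq_mul_div, div_le_div_iff_of_pos_right hm, mul_comm B q, mul_le_mul_iff_right₀ hq]
  have c3 : ∀ A B : ℝ, q⁻¹ * A ≤ B ↔ A ≤ B * q := by
    intro A B
    rw [inv_mul_le_iff₀ hq, mul_comm]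
  rw [c1, c2, c3]
  tauto

/-- The case `δ = 0`. -/
theorem volume_R_zero (h : IsN N) (r s t : ℝ) : volume (R N 0 r s t) = volume (T N r s t) := by
  have := volume_T_eq h (δ := 0) (by norm_num) r s t
  simp only [ne_eq, OfNat.ofNat_ne_zero, not_false_eq_true, zero_pow, sub_zero, Real.sqrt_one,
    mul_one, add_zero, div_one] at this
  exact this.symm

/-- For `δ = 1` the conditions are `N w ≤ t`, `N (w/2) ≤ t/2`, `N (2m - w/2) ≤ b`; for fixed `w`
substitute `m' = 2m - w/2`. -/
theorem volume_R_one (h : IsN N) (hd : d ≠ 0) {b t : ℝ} (hb : 0 ≤ b) (ht : 0 ≤ t) :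
    volume (R N 1 (t / 2) b t) = ENNReal.ofReal ((t * (b / 2)) ^ d * vol N ^ 2) := by
  have hL := MoveA_shear (d := d) (-(1 / 4))
  have hmeas : MeasurableSet ({x : E d | N x ≤ b / 2} ×ˢ {x : E d | N x ≤ t}) :=
    (h.measurableSet_ball _).prod (h.measurableSet_ball _)
  have hset : R N 1 (t / 2) b t = (fun p : E d × E d => (p.1 + (-(1 / 4) : ℝ) • p.2, p.2)) ⁻¹'
      ({x : E d | N x ≤ b / 2} ×ˢ {x : E d | N x ≤ t}) := by
    ext ⟨m, w⟩
    simp only [R, mem_preimage, mem_ofPred_eq, mem_prod]
    have e1 : (1 - 1 : ℝ) • m + (1 / 2 : ℝ) • w = (1 / 2 : ℝ) • w := by simp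
    have e2 : (1 + 1 : ℝ) • m - (1 / 2 : ℝ) • w = (2 : ℝ) • (m + (-(1 / 4) : ℝ) • w) := by
      rw [smul_add, smul_smul, sub_eq_add_neg, ← neg_smul]
      norm_num
    rw [e1, e2, h.smul_nonneg (by norm_num), h.smul_nonneg (by norm_num)]
    constructor
    · rintro ⟨h1, -, h3⟩
      exact ⟨by linarith, h1⟩
    · rintro ⟨h1, h2⟩
      exact ⟨h2, by linarith, by linarith⟩
  rw [hset, hL.measure_preimage hmeas.nullMeasurableSet]
  change ((volume : Measure (E d)).prod (volume : Measure (E d))) _ = _
  rw [Measure.prod_prod, h.volume_ball hd (by positivity), h.volume_ball hd ht,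
    ← ENNReal.ofReal_mul (mul_nonneg (by positivity) (h.vol_pos).le)]
  congr 1
  rw [mul_pow]
  ring

end Pool.Agent.LibSP74
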