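import Pool.Agent.LibSP74.VolA

/-! Task VolB: values and bounds of `V`. -/

set_option autoImplicit false

open MeasureTheory Set

namespace Pool.Agent.LibSP74

variable {d : ℕ} {N : E d → ℝ}

lemma VolB_prod (h : IsN N) (hd : d ≠ 0) {r s : ℝ} (hr : 0 ≤ r) (hs : 0 ≤ s) :
    volume ({x : E d | N x ≤ r} ×ˢ {x : E d | N x ≤ s}) =
      ENNReal.ofReal (r ^ d * s ^ d * vol N ^ 2) := by
  have hv : 0 ≤ vol N := ENNReal.toReal_nonneg
  rw [Measure.volume_eq_prod, Measure.prod_prod, h.volume_ball hd hr, h.volume_ball hd hs,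
    ← ENNReal.ofReal_mul (by positivity)]
  congr 1
  ring

/-- `T ⊆ {N ≤ r} ×ˢ {N ≤ s}`. -/
theorem V_le (h : IsN N) (hd : d ≠ 0) {r s : ℝ} (hr : 0 ≤ r) (hs : 0 ≤ s) (t : ℝ) :
    V N r s t ≤ r ^ d * s ^ d * vol N ^ 2 := by
  have hv : 0 ≤ vol N := ENNReal.toReal_nonneg
  have h1 : volume (T N r s t) ≤ ENNReal.ofReal (r ^ d * s ^ d * vol N ^ 2) := by
    rw [← VolB_prod h hd hr hs]
    apply measure_mono
    rintro p ⟨h1, h2, -⟩
    exact ⟨h1, h2⟩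
  unfold V
  exact ENNReal.toReal_le_of_le_ofReal (by positivity) h1

/-- Equality if `t ≥ r + s`. -/
theorem V_large (h : IsN N) (hd : d ≠ 0) {r s t : ℝ} (hr : 0 ≤ r) (hs : 0 ≤ s) (ht : r + s ≤ t) :
    V N r s t = r ^ d * s ^ d * vol N ^ 2 := by
  have hv : 0 ≤ vol N := ENNReal.toReal_nonneg
  have h1 : T N r s t = {x : E d | N x ≤ r} ×ˢ {x : E d | N x ≤ s} := by
    ext p
    constructor
    · rintro ⟨h1, h2, -⟩
      exact ⟨h1, h2⟩
    · rintro ⟨h1, h2⟩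
      refine ⟨h1, h2, ?_⟩
      have h3 : N p.1 ≤ r := h1
      have h4 : N p.2 ≤ s := h2
      have := h.sub_le p.1 p.2
      linarith
  unfold V
  rw [h1, VolB_prod h hd hr hs, ENNReal.toReal_ofReal (by positivity)]

/-- If `r ≥ s + t` then `N x ≤ r` is automatic. (`V_swap`, `V_comm`, `V_large`.) -/
theorem V_small (h : IsN N) (hd : d ≠ 0) {r s t : ℝ} (hs : 0 ≤ s) (ht : 0 ≤ t) (hr : s + t ≤ r) :
    V N r s t = s ^ d * t ^ d * vol N ^ 2 := by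
  rw [V_comm h, V_swap h, V_large h hd hs ht hr]

/-- From `V_swap` and `V_le`. -/
theorem V_le' (h : IsN N) (hd : d ≠ 0) {r s t : ℝ} (hr : 0 ≤ r) (ht : 0 ≤ t) :
    V N r s t ≤ r ^ d * t ^ d * vol N ^ 2 := by
  rw [V_swap h]
  exact V_le h hd hr ht s

end Pool.Agent.LibSP74
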