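import Pool.Agent.LibSP74.Step
import Pool.Agent.LibSP74.MoveA
import Pool.Agent.LibSP74.VolB

/-! Task Move: consequences for `V`. -/

set_option autoImplicit false

open MeasureTheory Set

namespace Pool.Agent.LibSP74

variable {d : ℕ} {N : E d → ℝ}

/-- `volume_T_eq`, `step`, `volume_R_zero`. -/
theorem move (h : IsN N) {δ : ℝ} (hδ : |δ| < 1) (r s t : ℝ) :
    V N r s t ≤ V N (√(1 - δ ^ 2) * (r / (1 + δ) + s / (1 - δ)) / 2)
      (√(1 - δ ^ 2) * (r / (1 + δ) + s / (1 - δ)) / 2) (t * √(1 - δ ^ 2)) := by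
  have e : √(1 - δ ^ 2) * (r / (1 + δ) + s / (1 - δ)) / 2
      = (r * √(1 - δ ^ 2) / (1 + δ) + s * √(1 - δ ^ 2) / (1 - δ)) / 2 := by
    ring
  unfold V
  apply ENNReal.toReal_mono (volume_T_ne_top h _ _ _)
  rw [volume_T_eq h hδ, e, ← volume_R_zero h]
  exact step h _ _ _ _

/-- `move` and `V_scale`: with `ρ = √(1-δ²) (r/(1+δ) + s/(1-δ))/2 > 0`. -/
theorem move' (h : IsN N) {δ : ℝ} (hδ : |δ| < 1) {r s t ρ u : ℝ} (hρ : 0 < ρ)
    (h1 : ρ = √(1 - δ ^ 2) * (r / (1 + δ) + s / (1 - δ)) / 2) (h2 : t * √(1 - δ ^ 2) = ρ * u) :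
    V N r s t ≤ ρ ^ (2 * d) * V N 1 1 u := by
  have := move h hδ r s t
  rw [← h1, h2] at this
  have e := V_scale h hρ 1 1 u
  rw [mul_one] at e
  rwa [e] at this

/-- `move'` with `δ = 2 sinh η / t`; `ρ = (t cosh η - 2 sinh² η) / (t √(1-δ²))`, `ρ² = ph η t`. -/
theorem move_eta (h : IsN N) {η t : ℝ} (hη : 0 < η) (h1 : 2 * Real.sinh η < t) :
    V N (Real.exp η) (Real.exp (-η)) t ≤ ph η t ^ d * V N 1 1 (hh η t) := by
  have hs : 0 < Real.sinh η := Real.sinh_pos_iff.2 hη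
  have hc : Real.sinh η < Real.cosh η := Real.sinh_lt_cosh η
  have ht : 0 < t := by linarith
  set S := Real.sinh η with hS
  set C := Real.cosh η with hC
  have hden : 0 < t * C - 2 * S ^ 2 := by nlinarith
  have hnum : 0 < t ^ 2 - 4 * S ^ 2 := by nlinarith
  set δ := 2 * S / t with hδd
  have hδ0 : 0 < δ := by positivity
  have hδ1 : δ < 1 := by rw [hδd, div_lt_one ht]; exact h1
  have hδ : |δ| < 1 := by rw [abs_of_pos hδ0]; exact hδ1
  have hq2 : 1 - δ ^ 2 = (t ^ 2 - 4 * S ^ 2) / t ^ 2 := by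
    rw [hδd]
    field_simp
    ring
  have hq0 : 0 < 1 - δ ^ 2 := by rw [hq2]; positivity
  set q := √(1 - δ ^ 2) with hq
  have hqpos : 0 < q := Real.sqrt_pos.2 hq0
  have hqq : q ^ 2 = 1 - δ ^ 2 := Real.sq_sqrt hq0.le
  set ρ := (t * C - 2 * S ^ 2) / (t * q) with hρd
  have hρ : 0 < ρ := by positivity
  have hexp1 : Real.exp η = C + S := (Real.cosh_add_sinh η).symm
  have hexp2 : Real.exp (-η) = C - S := (Real.cosh_sub_sinh η).symm
  have hph : ph η t = (t * C - 2 * S ^ 2) ^ 2 / (t ^ 2 - 4 * S ^ 2) := rfl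
  have hhh : hh η t = (t ^ 2 - 4 * S ^ 2) / (t * C - 2 * S ^ 2) := rfl
  have htt : t ^ 2 * ((t ^ 2 - 4 * S ^ 2) / t ^ 2) = t ^ 2 - 4 * S ^ 2 := by
    rw [mul_div_assoc', mul_div_cancel_left₀]
    positivity
  have hρ2 : ρ ^ 2 = ph η t := by
    rw [hρd, div_pow, mul_pow, hqq, hq2, hph, htt]
  have key := move' h hδ (r := Real.exp η) (s := Real.exp (-η)) (t := t) (ρ := ρ) (u := hh η t) hρ
    (by
      have a1 : 1 + δ ≠ 0 := by linarith
      have a2 : 1 - δ ≠ 0 := by linarith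
      have a3 : (1 + δ) * (1 - δ) = q ^ 2 := by rw [hqq]; ring
      have a4 : Real.exp η / (1 + δ) + Real.exp (-η) / (1 - δ)
          = (2 * C - 2 * δ * S) / q ^ 2 := by
        rw [← a3, hexp1, hexp2, div_add_div _ _ a1 a2]
        congr 1
        ring
      rw [a4, hρd]
      have a5 : q * ((2 * C - 2 * δ * S) / q ^ 2) / 2 = (C - δ * S) / q := by
        field_simp
      rw [a5, hδd]
      field_simp)
    (by
      have b1 : t * q = (t ^ 2 - 4 * S ^ 2) / (t * q) := by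
        rw [eq_div_iff (by positivity)]
        have : t * q * (t * q) = t ^ 2 * q ^ 2 := by ring
        rw [this, hqq, hq2, htt]
      show t * q = ρ * hh η t
      rw [b1, hρd, hhh, div_mul_div_comm, mul_comm (t * C - 2 * S ^ 2), mul_div_mul_right _ _ hden.ne'])
  rw [pow_mul, hρ2] at key
  exact key

/-- `V_swap` and `move'` with `r = 1`, `s = t`, `t = 1`, `δ = 1 - t`. -/
theorem move_one (h : IsN N) {t : ℝ} (h0 : 0 < t) (h1 : t < 1) :
    V N 1 1 t ≤ (t * (3 - t) ^ 2 / (4 * (2 - t))) ^ d * V N 1 1 ((4 - 2 * t) / (3 - t)) := by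
  have hδ : |1 - t| < 1 := by
    rw [abs_of_pos (by linarith)]
    linarith
  have hq2 : 1 - (1 - t) ^ 2 = t * (2 - t) := by ring
  have h2t : 0 < 2 - t := by linarith
  have h3t : 0 < 3 - t := by linarith
  have hq0 : 0 < 1 - (1 - t) ^ 2 := by rw [hq2]; positivity
  set q := √(1 - (1 - t) ^ 2) with hq
  have hqpos : 0 < q := Real.sqrt_pos.2 hq0
  have hqq : q ^ 2 = t * (2 - t) := by rw [← hq2]; exact Real.sq_sqrt hq0.le
  set ρ := q * (3 - t) / (2 * (2 - t)) with hρd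
  have hρ : 0 < ρ := by positivity
  have hρ2 : ρ ^ 2 = t * (3 - t) ^ 2 / (4 * (2 - t)) := by
    rw [hρd, div_pow, mul_pow, hqq]
    field_simp
    ring
  have key := move' h hδ (r := 1) (s := t) (t := 1) (ρ := ρ) (u := (4 - 2 * t) / (3 - t)) hρ
    (by
      show ρ = q * (1 / (1 + (1 - t)) + t / (1 - (1 - t))) / 2
      have a1 : 1 + (1 - t) = 2 - t := by ring
      have a2 : 1 - (1 - t) = t := by ring
      rw [a1, a2, hρd]
      field_simp
      ring)
    (by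
      show 1 * q = ρ * ((4 - 2 * t) / (3 - t))
      rw [hρd]
      field_simp
      ring)
  rw [pow_mul, hρ2] at key
  rw [V_swap h 1 1 t]
  exact key

/-- `step` with `δ = 1`, `a = t/2`, `b = 2 - t/2`, `volume_R_one`, `volume_R_zero`. -/
theorem V_ge (h : IsN N) (hd : d ≠ 0) {t : ℝ} (h0 : 0 ≤ t) (h2 : t ≤ 2) :
    vc d t * vol N ^ 2 ≤ V N 1 1 t := by
  have hstep := step h 1 (t / 2) (2 - t / 2) t
  rw [volume_R_one h hd (by linarith) h0] at hstep
  have e1 : (t / 2 + (2 - t / 2)) / 2 = 1 := by ring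
  rw [e1, volume_R_zero h] at hstep
  have e2 : t * ((2 - t / 2) / 2) = t * (4 - t) / 4 := by ring
  rw [e2] at hstep
  have := ENNReal.toReal_mono (volume_T_ne_top h 1 1 t) hstep
  rw [ENNReal.toReal_ofReal (by
    have : 0 ≤ t * (4 - t) / 4 := by
      have : 0 ≤ 4 - t := by linarith
      positivity
    positivity)] at this
  exact this

end Pool.Agent.LibSP74
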