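import Pool.Agent.LibSP74.Defs

/-! Task PL1: the Brunn-Minkowski inequality on the line. -/

set_option autoImplicit false

open MeasureTheory Set

namespace Pool.Agent.LibSP74

/-- the volume of the set of the midpoints of a point and the points of a set -/
private theorem PL1_vol (K : Set ℝ) (b : ℝ) :
    volume ((fun x => (x + b) / 2) '' K) = ENNReal.ofReal (1 / 2) * volume K := by
  have e : (fun x : ℝ => (x + b) / 2) '' K = (fun y : ℝ => 2 * y) ⁻¹' ((fun y : ℝ => y + -b) ⁻¹' K) := by
    ext y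
    constructor
    · rintro ⟨x, hx, rfl⟩
      change 2 * ((x + b) / 2) + -b ∈ K
      rw [show 2 * ((x + b) / 2) + -b = x by ring]
      exact hx
    · intro hy
      exact ⟨2 * y + -b, hy, by ring⟩
  rw [e, Real.volume_preimage_mul_left (by norm_num), measure_preimage_add_right]
  norm_num

private theorem PL1_compact {K L S : Set ℝ} (hK : IsCompact K) (hL : IsCompact L)
    (hK0 : K.Nonempty) (hL0 : L.Nonempty) (h : ∀ x ∈ K, ∀ y ∈ L, (x + y) / 2 ∈ S) :
    volume K + volume L ≤ 2 * volume S := by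
  set a := sSup K with ha
  set b := sInf L with hb
  have haK : a ∈ K := hK.sSup_mem hK0
  have hbL : b ∈ L := hL.sInf_mem hL0
  set S1 := (fun x => (x + b) / 2) '' K with hS1
  set S2 := (fun x => (x + a) / 2) '' L with hS2
  have h1 : S1 ⊆ S := by
    rintro _ ⟨x, hx, rfl⟩
    exact h x hx b hbL
  have h2 : S2 ⊆ S := by
    rintro _ ⟨x, hx, rfl⟩
    have := h a haK x hx
    rwa [add_comm] at this
  have hc1 : IsCompact S1 := hK.image (by fun_prop)
  have hc2 : IsCompact S2 := hL.image (by fun_prop)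
  have hint : volume (S1 ∩ S2) = 0 := by
    refine measure_mono_null ?_ (measure_singleton ((a + b) / 2))
    rintro z ⟨⟨x, hx, rfl⟩, ⟨y, hy, hyx⟩⟩
    have e1 : x ≤ a := le_csSup hK.bddAbove hx
    have e2 : b ≤ y := csInf_le hL.bddBelow hy
    simp only at hyx
    rw [mem_singleton_iff]
    linarith
  have hsum : volume (S1 ∪ S2) = volume S1 + volume S2 := by
    have := measure_union_add_inter S1 hc2.measurableSet (μ := volume)
    rwa [hint, add_zero] at this
  have e1 : volume S1 = ENNReal.ofReal (1 / 2) * volume K := PL1_vol K b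
  have e2 : volume S2 = ENNReal.ofReal (1 / 2) * volume L := PL1_vol L a
  have hle : volume S1 + volume S2 ≤ volume S := by
    rw [← hsum]
    exact measure_mono (union_subset h1 h2)
  have h3 : (2 : ENNReal) * ENNReal.ofReal (1 / 2) = 1 := by
    rw [show (2 : ENNReal) = ENNReal.ofReal 2 by simp, ← ENNReal.ofReal_mul (by norm_num)]
    norm_num
  calc volume K + volume L = 2 * (volume S1 + volume S2) := by
        rw [e1, e2, mul_add, ← mul_assoc, ← mul_assoc, h3, one_mul, one_mul]
    _ ≤ 2 * volume S := by gcongr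

private theorem PL1_sup {A : Set ℝ} (hA : MeasurableSet A) (hA0 : A.Nonempty) :
    volume A ≤ ⨆ K : {K : Set ℝ // K.Nonempty ∧ IsCompact K ∧ K ⊆ A}, volume K.1 := by
  obtain ⟨x0, hx0⟩ := hA0
  rw [hA.measure_eq_iSup_isCompact]
  refine iSup_le fun K => iSup_le fun hK => iSup_le fun hKc => ?_
  refine (measure_mono (subset_insert x0 K)).trans ?_
  exact le_iSup (fun K : {K : Set ℝ // K.Nonempty ∧ IsCompact K ∧ K ⊆ A} => volume K.1)
    ⟨insert x0 K, insert_nonempty _ _, hKc.insert x0, insert_subset hx0 hK⟩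

/-- If `(x + y)/2 ∈ S` for all `x ∈ A`, `y ∈ B` then `|A| + |B| ≤ 2 |S|` (`A`, `B` not empty).
Proof: by inner regularity (`MeasurableSet.measure_eq_iSup_isCompact`) it is enough to treat nonempty
compact sets `A`, `B` (if `volume A` is `0` replace `A` by a point, ...). Then `S` contains
`(A + min B)/2` and `(max A + B)/2`, which meet in at most one point, namely `(max A + min B)/2`; each
is a translate of `A/2`, `B/2` (`Real.volume_preimage_mul_left`, `measure_preimage_add_right`, or
`Measure.addHaar_image_homothety`). -/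
theorem bm_line {A B S : Set ℝ} (hA : MeasurableSet A) (hB : MeasurableSet B) (hS : MeasurableSet S)
    (hA0 : A.Nonempty) (hB0 : B.Nonempty) (h : ∀ x ∈ A, ∀ y ∈ B, (x + y) / 2 ∈ S) :
    volume A + volume B ≤ 2 * volume S := by
  have : Nonempty {K : Set ℝ // K.Nonempty ∧ IsCompact K ∧ K ⊆ A} :=
    ⟨⟨{hA0.some}, singleton_nonempty _, isCompact_singleton, singleton_subset_iff.2 hA0.some_mem⟩⟩
  have : Nonempty {K : Set ℝ // K.Nonempty ∧ IsCompact K ∧ K ⊆ B} :=
    ⟨⟨{hB0.some}, singleton_nonempty _, isCompact_singleton, singleton_subset_iff.2 hB0.some_mem⟩⟩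
  refine (add_le_add (PL1_sup hA hA0) (PL1_sup hB hB0)).trans ?_
  refine ENNReal.iSup_add_iSup_le fun K L => ?_
  exact PL1_compact K.2.2.1 L.2.2.1 K.2.1 L.2.1 fun x hx y hy =>
    h x (K.2.2.2 hx) y (L.2.2.2 hy)

end Pool.Agent.LibSP74
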