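import Pool.Agent.LibSP74.PL1

/-! Task PL2: the Prékopa-Leindler inequality on the line. -/

set_option autoImplicit false

open MeasureTheory Set
open scoped ENNReal

namespace Pool.Agent.LibSP74

private theorem PL2_layer {F : ℝ → ℝ≥0∞} (hF : Measurable F) (h1 : ∀ x, F x ≤ 1) :
    ∫⁻ x, F x = ∫⁻ t in Ioi (0 : ℝ), volume {x | ENNReal.ofReal t < F x} := by
  have hne : ∀ x, F x ≠ ∞ := fun x => ne_top_of_le_ne_top ENNReal.one_ne_top (h1 x)
  have e1 : ∫⁻ x, F x = ∫⁻ x, ENNReal.ofReal (F x).toReal :=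
    lintegral_congr fun x => (ENNReal.ofReal_toReal (hne x)).symm
  rw [e1, lintegral_eq_lintegral_meas_lt volume (Filter.Eventually.of_forall
    fun x => ENNReal.toReal_nonneg) hF.ennreal_toReal.aemeasurable]
  refine setLIntegral_congr_fun measurableSet_Ioi fun t ht => ?_
  have ht' : (0 : ℝ) ≤ t := le_of_lt ht
  change volume {x | t < (F x).toReal} = volume {x | ENNReal.ofReal t < F x}
  congr 1
  ext x
  exact (ENNReal.ofReal_lt_iff_lt_toReal ht' (hne x)).symm

private theorem PL2_meas (F : ℝ → ℝ≥0∞) :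
    Measurable fun t : ℝ => volume {x | ENNReal.ofReal t < F x} := by
  refine Antitone.measurable fun s t hst => ?_
  refine measure_mono fun x hx => ?_
  exact lt_of_le_of_lt (ENNReal.ofReal_le_ofReal hst) hx

private theorem PL2_key {F G H : ℝ → ℝ≥0∞} (hF : Measurable F) (hG : Measurable G)
    (hH : Measurable H) (hF1 : ∀ x, F x ≤ 1) (hG1 : ∀ x, G x ≤ 1) (hH1 : ∀ x, H x ≤ 1)
    (hF2 : ∀ l < 1, ∃ x, l < F x) (hG2 : ∀ l < 1, ∃ x, l < G x)
    (hh : ∀ x y l, l < F x → l < G y → l < H ((x + y) / 2)) :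
    (∫⁻ x, F x) + (∫⁻ x, G x) ≤ 2 * ∫⁻ x, H x := by
  rw [PL2_layer hF hF1, PL2_layer hG hG1, PL2_layer hH hH1,
    ← lintegral_add_left (PL2_meas F), ← lintegral_const_mul' _ _ (by norm_num)]
  refine lintegral_mono fun t => ?_
  rcases lt_or_ge (ENNReal.ofReal t) 1 with hl | hl
  · refine bm_line (measurableSet_lt measurable_const hF) (measurableSet_lt measurable_const hG)
      (measurableSet_lt measurable_const hH) (hF2 _ hl) (hG2 _ hl) fun x hx y hy => ?_
    exact hh x y _ hx hy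
  · have e1 : {x | ENNReal.ofReal t < F x} = ∅ := by
      ext x
      constructor
      · intro hx
        exact absurd (hx.trans_le (hF1 x)) (not_lt.2 hl)
      · intro hx
        exact hx.elim
    have e2 : {x | ENNReal.ofReal t < G x} = ∅ := by
      ext x
      constructor
      · intro hx
        exact absurd (hx.trans_le (hG1 x)) (not_lt.2 hl)
      · intro hx
        exact hx.elim
    simp only [e1, e2, measure_empty, add_zero]
    exact zero_le

private theorem PL2_amgm {X Y Z : ℝ≥0∞} (h : X + Y ≤ 2 * Z) : X * Y ≤ Z ^ 2 := by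
  by_cases hZ : Z = ∞
  · rw [hZ]
    simp
  · have hXY : X + Y ≠ ∞ := ne_top_of_le_ne_top (ENNReal.mul_ne_top (by norm_num) hZ) h
    have hX : X ≠ ∞ := fun hX => hXY (by rw [hX, top_add])
    have hY : Y ≠ ∞ := fun hY => hXY (by rw [hY, add_top])
    lift X to NNReal using hX
    lift Y to NNReal using hY
    lift Z to NNReal using hZ
    have h' : X + Y ≤ 2 * Z := by exact_mod_cast h
    have h2 : X * Y ≤ Z ^ 2 := by
      have h3 : (X : ℝ) + Y ≤ 2 * Z := by exact_mod_cast h'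
      have h4 : (X : ℝ) * Y ≤ (Z : ℝ) ^ 2 := by
        nlinarith [sq_nonneg ((X : ℝ) - Y), X.coe_nonneg, Y.coe_nonneg, Z.coe_nonneg]
      exact_mod_cast h4
    exact_mod_cast h2

/-- Bounded case. If one of `⨆ x, f x`, `⨆ x, g x` is `0` it is trivial. Divide `f` by `a = ⨆ f`, `g`
by `b = ⨆ g`, `h` by `√(ab)`: all suprema are `1`. For `0 < l < 1` the set `{h > l}` (note `h² ≥ f g`)
contains the midpoints of `{f > l}` and `{g > l}`, which are not empty; so by `bm_line`
`|{f > l}| + |{g > l}| ≤ 2 |{h > l}|`. Integrate over `l ∈ (0,1)` (layer cake,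
`MeasureTheory.lintegral_eq_lintegral_meas_lt` or Tonelli): `∫f + ∫g ≤ 2 ∫h`, and
`4 ∫f ∫g ≤ (∫f + ∫g)²`. -/
theorem pl_line_bdd {f g h : ℝ → ℝ≥0∞} (hf : Measurable f) (hg : Measurable g) (hh : Measurable h)
    {a b : ℝ≥0∞} (ha : a ≠ ∞) (hb : b ≠ ∞) (hfa : ∀ x, f x ≤ a) (hgb : ∀ x, g x ≤ b)
    (H : ∀ x y, f x * g y ≤ h ((x + y) / 2) ^ 2) :
    (∫⁻ x, f x) * (∫⁻ x, g x) ≤ (∫⁻ x, h x) ^ 2 := by
  set a' : ℝ≥0∞ := ⨆ x, f x with ha'
  set b' : ℝ≥0∞ := ⨆ x, g x with hb'
  have hat : a' ≠ ∞ := ne_top_of_le_ne_top ha (iSup_le hfa)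
  have hbt : b' ≠ ∞ := ne_top_of_le_ne_top hb (iSup_le hgb)
  by_cases ha0 : a' = 0
  · have : ∫⁻ x, f x = 0 := by
      have e : ∀ x, f x = 0 := fun x => le_antisymm (by rw [← ha0]; exact le_iSup f x) zero_le
      simp [e]
    rw [this, zero_mul]
    exact zero_le
  by_cases hb0 : b' = 0
  · have : ∫⁻ x, g x = 0 := by
      have e : ∀ x, g x = 0 := fun x => le_antisymm (by rw [← hb0]; exact le_iSup g x) zero_le
      simp [e]
    rw [this, mul_zero]
    exact zero_le
  set c : ℝ≥0∞ := (a' * b') ^ (1 / 2 : ℝ) with hc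
  have hcc : c * c = a' * b' := by
    rw [hc, ← ENNReal.rpow_add_of_nonneg _ _ (by norm_num) (by norm_num)]
    norm_num
  have hab0 : a' * b' ≠ 0 := mul_ne_zero ha0 hb0
  have habt : a' * b' ≠ ∞ := ENNReal.mul_ne_top hat hbt
  have hc0 : c ≠ 0 := by
    intro h0
    rw [h0, zero_mul] at hcc
    exact hab0 hcc.symm
  have hct : c ≠ ∞ := by
    intro h0
    rw [h0, ENNReal.top_mul_top] at hcc
    exact habt hcc.symm
  have hkey := PL2_key (F := fun x => f x * a'⁻¹) (G := fun x => g x * b'⁻¹)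
    (H := fun x => min (h x * c⁻¹) 1) (hf.mul_const _) (hg.mul_const _)
    ((hh.mul_const _).min measurable_const)
    (fun x => by
      rw [← ENNReal.mul_inv_cancel ha0 hat]
      exact mul_le_mul_left (le_iSup f x) _)
    (fun x => by
      rw [← ENNReal.mul_inv_cancel hb0 hbt]
      exact mul_le_mul_left (le_iSup g x) _)
    (fun x => min_le_right _ _)
    (fun l hl => by
      have h1 : l * a' < a' := by
        calc l * a' < 1 * a' := (ENNReal.mul_lt_mul_iff_left ha0 hat).2 hl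
          _ = a' := one_mul _
      obtain ⟨x, hx⟩ := lt_iSup_iff.1 h1
      refine ⟨x, ?_⟩
      change l < f x * a'⁻¹
      rw [← div_eq_mul_inv]
      exact (ENNReal.lt_div_iff_mul_lt (Or.inl ha0) (Or.inl hat)).2 hx)
    (fun l hl => by
      have h1 : l * b' < b' := by
        calc l * b' < 1 * b' := (ENNReal.mul_lt_mul_iff_left hb0 hbt).2 hl
          _ = b' := one_mul _
      obtain ⟨x, hx⟩ := lt_iSup_iff.1 h1
      refine ⟨x, ?_⟩
      change l < g x * b'⁻¹
      rw [← div_eq_mul_inv]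
      exact (ENNReal.lt_div_iff_mul_lt (Or.inl hb0) (Or.inl hbt)).2 hx)
    (fun x y l hx hy => by
      have hx' : l < f x * a'⁻¹ := hx
      have hy' : l < g y * b'⁻¹ := hy
      have hl1 : l < 1 := by
        refine hx'.trans_le ?_
        rw [← ENNReal.mul_inv_cancel ha0 hat]
        exact mul_le_mul_left (le_iSup f x) _
      refine lt_min ?_ hl1
      by_contra hcon
      rw [not_lt] at hcon
      have h1 : l * l < (f x * a'⁻¹) * (g y * b'⁻¹) := ENNReal.mul_lt_mul hx' hy'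
      have h2 : (f x * a'⁻¹) * (g y * b'⁻¹) ≤
          (h ((x + y) / 2) * c⁻¹) * (h ((x + y) / 2) * c⁻¹) := by
        calc (f x * a'⁻¹) * (g y * b'⁻¹) = (f x * g y) * (a'⁻¹ * b'⁻¹) := by ring
          _ = (f x * g y) * (a' * b')⁻¹ := by
            rw [ENNReal.mul_inv (Or.inl ha0) (Or.inl hat)]
          _ ≤ (h ((x + y) / 2) ^ 2) * (a' * b')⁻¹ := mul_le_mul_left (H x y) _
          _ = (h ((x + y) / 2) * c⁻¹) * (h ((x + y) / 2) * c⁻¹) := by
            rw [← hcc, ENNReal.mul_inv (Or.inl hc0) (Or.inl hct)]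
            ring
      exact absurd (h1.trans_le (h2.trans (mul_le_mul' hcon hcon))) (lt_irrefl _))
  have e1 : ∫⁻ x, f x * a'⁻¹ = (∫⁻ x, f x) * a'⁻¹ := lintegral_mul_const _ hf
  have e2 : ∫⁻ x, g x * b'⁻¹ = (∫⁻ x, g x) * b'⁻¹ := lintegral_mul_const _ hg
  have e3 : ∫⁻ x, min (h x * c⁻¹) 1 ≤ (∫⁻ x, h x) * c⁻¹ := by
    rw [← lintegral_mul_const _ hh]
    exact lintegral_mono fun x => min_le_left _ _
  rw [e1, e2] at hkey
  have h4 := PL2_amgm (hkey.trans (mul_le_mul_right e3 2))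
  calc (∫⁻ x, f x) * (∫⁻ x, g x)
      = ((∫⁻ x, f x) * (a'⁻¹ * a')) * ((∫⁻ x, g x) * (b'⁻¹ * b')) := by
        rw [ENNReal.inv_mul_cancel ha0 hat, ENNReal.inv_mul_cancel hb0 hbt, mul_one, mul_one]
    _ = (((∫⁻ x, f x) * a'⁻¹) * ((∫⁻ x, g x) * b'⁻¹)) * (a' * b') := by ring
    _ ≤ (((∫⁻ x, h x) * c⁻¹) ^ 2) * (a' * b') := mul_le_mul_left h4 _
    _ = ((∫⁻ x, h x) * (c⁻¹ * c)) ^ 2 := by
        rw [← hcc]
        ring
    _ = (∫⁻ x, h x) ^ 2 := by rw [ENNReal.inv_mul_cancel hc0 hct, mul_one]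

/-- General case: apply the bounded case to `min f n`, `min g n`, and monotone convergence. -/
theorem pl_line {f g h : ℝ → ℝ≥0∞} (hf : Measurable f) (hg : Measurable g) (hh : Measurable h)
    (H : ∀ x y, f x * g y ≤ h ((x + y) / 2) ^ 2) :
    (∫⁻ x, f x) * (∫⁻ x, g x) ≤ (∫⁻ x, h x) ^ 2 := by
  have hsup : ∀ {u : ℝ → ℝ≥0∞}, Measurable u → ∫⁻ x, u x = ⨆ n : ℕ, ∫⁻ x, min (u x) n := by
    intro u hu
    rw [← lintegral_iSup (fun n => hu.min measurable_const)
      (fun m n hmn x => min_le_min_left _ (by exact_mod_cast hmn))]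
    refine lintegral_congr fun x => ?_
    have e := inf_iSup_eq (u x) (fun n : ℕ => (n : ℝ≥0∞))
    rw [ENNReal.iSup_natCast, inf_top_eq] at e
    exact e
  have hmono : ∀ u : ℝ → ℝ≥0∞, Monotone fun n : ℕ => ∫⁻ x, min (u x) n := fun u m n hmn =>
    lintegral_mono fun x => min_le_min_left _ (by exact_mod_cast hmn)
  rw [hsup hf, hsup hg, ENNReal.iSup_mul]
  refine iSup_le fun n => ?_
  rw [ENNReal.mul_iSup]
  refine iSup_le fun m => ?_
  refine (mul_le_mul' (hmono f (le_max_left n m)) (hmono g (le_max_right n m))).trans ?_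
  refine pl_line_bdd (hf.min measurable_const) (hg.min measurable_const) hh
    (ENNReal.natCast_ne_top (max n m)) (ENNReal.natCast_ne_top (max n m))
    (fun x => min_le_right _ _) (fun x => min_le_right _ _) fun x y => ?_
  exact (mul_le_mul' (min_le_left _ _) (min_le_left _ _)).trans (H x y)

end Pool.Agent.LibSP74
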