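import Pool.Agent.LibSP74.BasicA
import Pool.Agent.LibSP74.PL3

/-! Task Step: the movement. -/

set_option autoImplicit false

open MeasureTheory Set

namespace Pool.Agent.LibSP74

variable {d : ℕ} {N : E d → ℝ}

theorem measurableSet_R (h : IsN N) (δ a b t : ℝ) : MeasurableSet (R N δ a b t) := by
  have hN := h.cont
  have h1 : IsClosed {p : E d × E d | N p.2 ≤ t} :=
    isClosed_le (hN.comp continuous_snd) continuous_const
  have h2 : IsClosed {p : E d × E d | N ((1 - δ) • p.1 + (1 / 2 : ℝ) • p.2) ≤ a} :=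
    isClosed_le (hN.comp (by fun_prop : Continuous fun p : E d × E d =>
      (1 - δ) • p.1 + (1 / 2 : ℝ) • p.2)) continuous_const
  have h3 : IsClosed {p : E d × E d | N ((1 + δ) • p.1 - (1 / 2 : ℝ) • p.2) ≤ b} :=
    isClosed_le (hN.comp (by fun_prop : Continuous fun p : E d × E d =>
      (1 + δ) • p.1 - (1 / 2 : ℝ) • p.2)) continuous_const
  exact (h1.inter (h2.inter h3)).measurableSet

theorem Step_half (h : IsN N) {a b : ℝ} {x y z : E d} (hx : N x ≤ a) (hy : N y ≤ b)
    (hz : z = (1 / 2 : ℝ) • (x + y)) : N z ≤ (a + b) / 2 := by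
  rw [hz, h.smul, abs_of_pos (by norm_num)]
  have := h.add_le x y
  linarith

theorem Step_neg (h : IsN N) (x : E d) : N (-x) = N x := by
  have := h.smul (-1) x
  rw [neg_one_smul] at this
  rw [this]
  simp

/-- Fubini (`Measure.prod_apply`): it is enough to compare the sections at each `m`. Let `w`, `w'` be
in the section for `δ`. Then `(w - w')/2` is in the section for `0`: `N (w - w') ≤ 2 t` and
`m + (w - w')/4 = ½ (((1-δ)m + w/2) + ((1+δ)m - w'/2))`,
`m - (w - w')/4 = ½ (((1+δ)m - w/2) + ((1-δ)m + w'/2))`. So `bm_symm` applies. -/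
theorem step (h : IsN N) (δ a b t : ℝ) :
    volume (R N δ a b t) ≤ volume (R N 0 ((a + b) / 2) ((a + b) / 2) t) := by
  rw [Measure.volume_eq_prod, Measure.prod_apply (measurableSet_R h _ _ _ _),
    Measure.prod_apply (measurableSet_R h _ _ _ _)]
  refine lintegral_mono fun m => ?_
  refine bm_symm (measurable_prodMk_left (measurableSet_R h _ _ _ _))
    (measurable_prodMk_left (measurableSet_R h _ _ _ _)) ?_
  rintro w ⟨hw1, hw2, hw3⟩ w' ⟨hw1', hw2', hw3'⟩
  simp only at hw1 hw2 hw3 hw1' hw2' hw3'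
  refine ⟨?_, ?_, ?_⟩
  · have h1 : N ((1 / 2 : ℝ) • (w - w')) ≤ (t + t) / 2 :=
      Step_half h hw1 ((Step_neg h w').le.trans hw1') (by rw [sub_eq_add_neg])
    simp only
    linarith
  · refine Step_half h hw2 hw3' ?_
    simp only
    module
  · have h1 := Step_half h hw3 hw2' (z := (1 + 0 : ℝ) • m - (1 / 2 : ℝ) • ((1 / 2 : ℝ) • (w - w')))
      (by module)
    simp only
    linarith

end Pool.Agent.LibSP74
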