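import Pool.Agent.LibSP74.BasicA

/-! Task VolA: symmetries and scaling of `V`. -/

set_option autoImplicit false

open MeasureTheory Set
open scoped Pointwise

namespace Pool.Agent.LibSP74

variable {d : ℕ} {N : E d → ℝ}

/-- `T N r s t` is bounded, so its volume is finite. (`T ⊆ {N ≤ r} ×ˢ {N ≤ s}`.) -/
theorem volume_T_ne_top (h : IsN N) (r s t : ℝ) : volume (T N r s t) ≠ ⊤ := by
  have h1 : T N r s t ⊆ {x : E d | N x ≤ r} ×ˢ {x : E d | N x ≤ s} := fun p hp => ⟨hp.1, hp.2.1⟩
  have h2 : IsCompact ({x : E d | N x ≤ r} ×ˢ {x : E d | N x ≤ s}) :=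
    (h.isCompact_ball r).prod (h.isCompact_ball s)
  exact ((measure_mono h1).trans_lt h2.measure_lt_top).ne

/-- Exchange `x`, `y`. -/
theorem V_comm (h : IsN N) (r s t : ℝ) : V N r s t = V N s r t := by
  have h1 : MeasurePreserving (Prod.swap : E d × E d → E d × E d) volume volume :=
    Measure.measurePreserving_swap
  have h2 : Prod.swap ⁻¹' (T N s r t) = T N r s t := by
    ext p
    constructor
    · rintro ⟨h1, h2, h3⟩
      refine ⟨h2, h1, ?_⟩
      rw [h.sub_comm]
      exact h3
    · rintro ⟨h1, h2, h3⟩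
      refine ⟨h2, h1, ?_⟩
      rw [h.sub_comm] at h3
      exact h3
  unfold V
  rw [← h2, h1.measure_preimage (h.measurableSet_T s r t).nullMeasurableSet]

/-- `(x, y) ↦ (x, x - y)` preserves the volume (`measurePreserving_add_prod`, ... or Fubini and
`measure_preimage_sub_left` in each section). -/
theorem V_swap (h : IsN N) (r s t : ℝ) : V N r s t = V N r t s := by
  have h1 : MeasurePreserving (fun p : E d × E d => (p.1, -p.2)) volume volume :=
    (MeasurePreserving.id volume).prod (Measure.measurePreserving_neg volume)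
  have h2 : MeasurePreserving (fun p : E d × E d => (p.1, p.1 + p.2)) volume volume :=
    measurePreserving_prod_add volume volume
  have h3 := h2.comp h1
  have h4 : ((fun p : E d × E d => (p.1, p.1 + p.2)) ∘ fun p : E d × E d => (p.1, -p.2)) ⁻¹'
      (T N r t s) = T N r s t := by
    ext p
    have e1 : p.1 + -p.2 = p.1 - p.2 := (sub_eq_add_neg _ _).symm
    have e2 : p.1 - (p.1 + -p.2) = p.2 := by abel
    constructor
    · rintro ⟨a1, a2, a3⟩
      have a2' : N (p.1 + -p.2) ≤ t := a2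
      have a3' : N (p.1 - (p.1 + -p.2)) ≤ s := a3
      rw [e1] at a2'
      rw [e2] at a3'
      exact ⟨a1, a3', a2'⟩
    · rintro ⟨a1, a2, a3⟩
      refine ⟨a1, ?_, ?_⟩
      · show N (p.1 + -p.2) ≤ t
        rw [e1]
        exact a3
      · show N (p.1 - (p.1 + -p.2)) ≤ s
        rw [e2]
        exact a2
  unfold V
  rw [← h4, h3.measure_preimage (h.measurableSet_T r t s).nullMeasurableSet]

/-- Scaling, in dimension `2 d` (`Measure.addHaar_smul` on `E d × E d`, whose dimension is `2 d`; or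
Fubini). -/
theorem V_scale (h : IsN N) {l : ℝ} (hl : 0 < l) (r s t : ℝ) :
    V N (l * r) (l * s) (l * t) = l ^ (2 * d) * V N r s t := by
  have h1 : T N (l * r) (l * s) (l * t) = l • T N r s t := by
    ext p
    rw [mem_smul_set_iff_inv_smul_mem₀ hl.ne']
    have hli : 0 < l⁻¹ := inv_pos.2 hl
    have e : ∀ (z : E d) (a : ℝ), N (l⁻¹ • z) ≤ a ↔ N z ≤ l * a := by
      intro z a
      rw [h.smul_nonneg hli.le, inv_mul_le_iff₀ hl]
    constructor
    · rintro ⟨a1, a2, a3⟩
      refine ⟨(e _ _).2 a1, (e _ _).2 a2, ?_⟩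
      show N (l⁻¹ • p.1 - l⁻¹ • p.2) ≤ t
      rw [← smul_sub]
      exact (e _ _).2 a3
    · rintro ⟨a1, a2, a3⟩
      refine ⟨(e _ _).1 a1, (e _ _).1 a2, ?_⟩
      have a3' : N (l⁻¹ • p.1 - l⁻¹ • p.2) ≤ t := a3
      rw [← smul_sub] at a3'
      exact (e _ _).1 a3'
  have h2 : Module.finrank ℝ (E d × E d) = 2 * d := by
    rw [Module.finrank_prod, finrank_euclideanSpace_fin]
    ring
  have h3 : (volume : Measure (E d × E d)).IsAddHaarMeasure :=
    Measure.prod.instIsAddHaarMeasure volume volume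
  unfold V
  rw [h1, Measure.addHaar_smul, h2, ENNReal.toReal_mul, ENNReal.toReal_ofReal (abs_nonneg _),
    abs_of_pos (by positivity)]

theorem V_nonneg (r s t : ℝ) : 0 ≤ V N r s t := ENNReal.toReal_nonneg

theorem V_mono (h : IsN N) (r s : ℝ) : Monotone (V N r s) := by
  intro a b hab
  unfold V
  exact ENNReal.toReal_mono (volume_T_ne_top h r s b)
    (measure_mono fun p hp => ⟨hp.1, hp.2.1, hp.2.2.trans hab⟩)

end Pool.Agent.LibSP74
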